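import Mathlib

/-!
Words, tiles, stopped words.
-/

namespace Pool.Agent.MP_2dc627_co.H36

open Finset

attribute [-simp] Nat.cast_list_sum

/-- The word `t` placed at `s` has a tile of length `x` starting at `b`. -/
def Has : ℤ → List ℕ → ℤ → ℕ → Prop
  | _, [], _, _ => False
  | s, y :: t, b, x => (b = s ∧ x = y) ∨ Has (s + y) t b x

/-- The word `t` placed at `s` and the word `u` placed at `s'` have no common tile. -/
def Dj (s : ℤ) (t : List ℕ) (s' : ℤ) (u : List ℕ) : Prop :=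
  ∀ b x, Has s t b x → Has s' u b x → False

/-- All letters are allowed. -/
def Word (Λ : Finset ℕ) (t : List ℕ) : Prop := ∀ x ∈ t, x ∈ Λ

/-- Words stopped when the sum first reaches `r`. -/
def Pre (Λ : Finset ℕ) : ℕ → Finset (List ℕ)
  | 0 => {[]}
  | r + 1 => Λ.biUnion fun x => (Pre Λ (r - (x - 1))).image (List.cons x)
decreasing_by omega

/-- Words of sum `l`. -/
def W (Λ : Finset ℕ) (l : ℕ) : Finset (List ℕ) := (Pre Λ l).filter fun t => t.sum = l

variable {Λ : Finset ℕ}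

@[simp] lemma has_nil {s b : ℤ} {x : ℕ} : Has s [] b x ↔ False := Iff.rfl

lemma has_cons {s b : ℤ} {x y : ℕ} {t : List ℕ} :
    Has s (y :: t) b x ↔ (b = s ∧ x = y) ∨ Has (s + y) t b x := Iff.rfl

lemma has_single {s b : ℤ} {x y : ℕ} : Has s [y] b x ↔ b = s ∧ x = y := by
  simp [has_cons]

lemma has_append {s b : ℤ} {x : ℕ} {a v : List ℕ} :
    Has s (a ++ v) b x ↔ Has s a b x ∨ Has (s + (a.sum : ℕ)) v b x := by
  induction a generalizing s with
  | nil => simp
  | cons y a ih => simp [has_cons, ih, or_assoc, add_assoc]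

lemma Has.bounds {s b : ℤ} {x : ℕ} {t : List ℕ} (h : Has s t b x) :
    s ≤ b ∧ b + x ≤ s + (t.sum : ℕ) ∧ x ∈ t := by
  induction t generalizing s with
  | nil => exact h.elim
  | cons y t ih =>
    rcases h with ⟨rfl, rfl⟩ | h
    · simp
    · obtain ⟨h1, h2, h3⟩ := ih h
      simp only [List.sum_cons, Nat.cast_add, List.mem_cons]
      refine ⟨by omega, by omega, Or.inr h3⟩

lemma has_shift {s b s' b' : ℤ} {x : ℕ} {t : List ℕ} (h : b' - s' = b - s) :
    Has s t b x ↔ Has s' t b' x := by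
  induction t generalizing s s' with
  | nil => simp
  | cons y t ih =>
    rw [has_cons, has_cons, ih (s' := s' + y) (by omega)]
    have : b = s ↔ b' = s' := by omega
    rw [this]

lemma has_reverse {s b s' b' : ℤ} {x : ℕ} {t : List ℕ}
    (h : b' - s' = s + (t.sum : ℕ) - b - x) : Has s t.reverse b x ↔ Has s' t b' x := by
  induction t generalizing s' with
  | nil => simp
  | cons y t ih =>
    simp only [List.sum_cons, Nat.cast_add] at h
    rw [List.reverse_cons, has_append, has_single, has_cons, ih (s' := s' + y) (by omega),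
      List.sum_reverse, or_comm]
    refine or_congr_left ?_
    constructor <;> rintro ⟨h1, rfl⟩ <;> exact ⟨by omega, rfl⟩

lemma has_iff {s b : ℤ} {x : ℕ} {t : List ℕ} :
    Has s t b x ↔ ∃ a v, t = a ++ x :: v ∧ b = s + (a.sum : ℕ) := by
  constructor
  · intro h
    induction t generalizing s with
    | nil => exact h.elim
    | cons y t ih =>
      rcases h with ⟨rfl, rfl⟩ | h
      · exact ⟨[], t, rfl, by simp⟩
      · obtain ⟨a, v, rfl, rfl⟩ := ih h
        exact ⟨y :: a, v, rfl, by simp [add_assoc]⟩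
  · rintro ⟨a, v, rfl, rfl⟩
    rw [has_append, has_cons]
    simp

lemma has_replicate {s b : ℤ} {x y k : ℕ} :
    Has s (List.replicate k y) b x ↔ x = y ∧ ∃ j < k, b = s + (j * y : ℕ) := by
  induction k generalizing s with
  | zero => simp
  | succ k ih =>
    rw [List.replicate_succ, has_cons, ih]
    constructor
    · rintro (⟨rfl, rfl⟩ | ⟨rfl, j, hj, rfl⟩)
      · exact ⟨rfl, 0, by omega, by simp⟩
      · exact ⟨rfl, j + 1, by omega, by push_cast; ring⟩
    · rintro ⟨rfl, j, hj, rfl⟩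
      rcases j with _ | j
      · simp
      · exact Or.inr ⟨rfl, j, by omega, by push_cast; ring⟩

lemma Dj.symm {s s' : ℤ} {t u : List ℕ} (h : Dj s t s' u) : Dj s' u s t :=
  fun b x h1 h2 => h b x h2 h1

lemma Dj.shift {s s' r r' : ℤ} {t u : List ℕ} (h : Dj s t s' u) (e : r' - r = s' - s) :
    Dj r t r' u := fun b x h1 h2 =>
  h (b - r + s) x ((has_shift (by omega)).1 h1) ((has_shift (by omega)).1 h2)

lemma Dj.reverse {s s' r r' : ℤ} {t u : List ℕ} (h : Dj s t s' u)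
    (e : r + s + (t.sum : ℕ) = r' + s' + (u.sum : ℕ)) : Dj r t.reverse r' u.reverse :=
  fun b x h1 h2 => h (r + s + (t.sum : ℕ) - b - x) x ((has_reverse (by omega)).1 h1)
    ((has_reverse (by omega)).1 h2)

lemma Dj.left {s s' : ℤ} {a v a' v' : List ℕ} (h : Dj s (a ++ v) s' (a' ++ v')) : Dj s a s' a' :=
  fun b x h1 h2 => h b x (has_append.2 (Or.inl h1)) (has_append.2 (Or.inl h2))

@[simp] lemma word_nil : Word Λ [] := by simp [Word]

@[simp] lemma word_cons {x : ℕ} {t : List ℕ} : Word Λ (x :: t) ↔ x ∈ Λ ∧ Word Λ t := by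
  simp [Word]

@[simp] lemma word_append {a t : List ℕ} : Word Λ (a ++ t) ↔ Word Λ a ∧ Word Λ t := by
  simp [Word, or_imp, forall_and]

@[simp] lemma word_reverse {t : List ℕ} : Word Λ t.reverse ↔ Word Λ t := by simp [Word]

lemma word_replicate {x k : ℕ} (hx : x ∈ Λ) : Word Λ (List.replicate k x) := by
  intro y hy
  rw [List.eq_of_mem_replicate hy]; exact hx

lemma Word.eq_nil (h0 : 0 ∉ Λ) {t : List ℕ} (ht : Word Λ t) (h : t.sum = 0) : t = [] := by
  cases t with
  | nil => rfl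
  | cons x t =>
    simp only [List.sum_cons, word_cons] at h ht
    have : x = 0 := by omega
    exact absurd (this ▸ ht.1) h0

lemma pos_of_mem (h0 : 0 ∉ Λ) {x : ℕ} (hx : x ∈ Λ) : 0 < x :=
  Nat.pos_of_ne_zero fun h => h0 (h ▸ hx)

/-- Two tiles of one word. -/
lemma Has.two (h0 : 0 ∉ Λ) {s b b' : ℤ} {x x' : ℕ} {t : List ℕ} (ht : Word Λ t)
    (h : Has s t b x) (h' : Has s t b' x') (hb : b ≤ b') :
    (b = b' ∧ x = x') ∨ ∃ r, Word Λ r ∧ b' = b + x + (r.sum : ℕ) := by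
  induction t generalizing s with
  | nil => exact h.elim
  | cons y t ih =>
    rw [word_cons] at ht
    have hy := pos_of_mem h0 ht.1
    rcases h with ⟨rfl, rfl⟩ | h <;> rcases h' with ⟨h1, h2⟩ | h'
    · exact Or.inl ⟨h1.symm, h2.symm⟩
    · obtain ⟨a, v, rfl, rfl⟩ := has_iff.1 h'
      exact Or.inr ⟨a, (word_append.1 ht.2).1, rfl⟩
    · have := h.bounds.1
      omega
    · exact ih ht.2 h h'

lemma Has.unique (h0 : 0 ∉ Λ) {s b : ℤ} {x x' : ℕ} {t : List ℕ} (ht : Word Λ t)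
    (h : Has s t b x) (h' : Has s t b x') : x = x' := by
  rcases h.two h0 ht h' le_rfl with h1 | ⟨r, -, h1⟩
  · exact h1.2
  · have := pos_of_mem h0 (ht x h.bounds.2.2)
    omega

lemma has_head (h0 : 0 ∉ Λ) {s : ℤ} {x : ℕ} {t : List ℕ} (ht : Word Λ t) :
    Has s t s x ↔ t.head? = some x := by
  cases t with
  | nil => simp
  | cons y t =>
    have h1 : Has s (y :: t) s y := Or.inl ⟨rfl, rfl⟩
    simp only [List.head?_cons, Option.some.injEq]
    exact ⟨fun h => h1.unique h0 ht h, fun h => h ▸ h1⟩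

lemma has_last (h0 : 0 ∉ Λ) {s : ℤ} {x : ℕ} {t : List ℕ} (ht : Word Λ t) :
    Has s t (s + (t.sum : ℕ) - x) x ↔ t.getLast? = some x := by
  rw [← List.head?_reverse, ← has_head h0 (s := s) (word_reverse.2 ht)]
  exact (has_reverse (by omega)).symm

/-- Words with the same sum at the start of one word coincide. -/
lemma append_cancel (h0 : 0 ∉ Λ) {a a' v v' : List ℕ} (ha : Word Λ a) (ha' : Word Λ a')
    (h : a ++ v = a' ++ v') (hs : a.sum = a'.sum) : a = a' ∧ v = v' := by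
  rcases List.append_eq_append_iff.1 h with ⟨r, rfl, rfl⟩ | ⟨r, rfl, rfl⟩
  · have := Word.eq_nil h0 (word_append.1 ha').2 (by simpa using hs.symm)
    simp [this]
  · have := Word.eq_nil h0 (word_append.1 ha).2 (by simpa using hs)
    simp [this]

lemma pre_zero : Pre Λ 0 = {[]} := by rw [Pre]

lemma pre_pos (h0 : 0 ∉ Λ) {r : ℕ} (hr : 0 < r) :
    Pre Λ r = Λ.biUnion fun x => (Pre Λ (r - x)).image (List.cons x) := by
  obtain ⟨r, rfl⟩ : ∃ r', r = r' + 1 := ⟨r - 1, by omega⟩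
  rw [Pre]
  refine biUnion_congr rfl fun x hx => ?_
  have := pos_of_mem h0 hx
  rw [show r - (x - 1) = r + 1 - x by omega]

lemma mem_pre (h0 : 0 ∉ Λ) {r : ℕ} {w : List ℕ} :
    w ∈ Pre Λ r ↔ Word Λ w ∧ r ≤ w.sum ∧ ∀ b x, Has 0 w b x → b < r := by
  induction w generalizing r with
  | nil =>
    rcases Nat.eq_zero_or_pos r with rfl | hr
    · simp [pre_zero]
    · rw [pre_pos h0 hr]; simp; omega
  | cons y w ih =>
    rcases Nat.eq_zero_or_pos r with rfl | hr
    · simp only [pre_zero, mem_singleton, reduceCtorEq, false_iff]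
      rintro ⟨-, -, h⟩
      exact lt_irrefl _ (h 0 y (Or.inl ⟨rfl, rfl⟩))
    · rw [pre_pos h0 hr]
      simp only [mem_biUnion, mem_image, List.cons.injEq, word_cons, List.sum_cons]
      constructor
      · rintro ⟨x, hx, a, ha, rfl, rfl⟩
        obtain ⟨h1, h2, h3⟩ := ih.1 ha
        refine ⟨⟨hx, h1⟩, by omega, ?_⟩
        rintro b z (⟨rfl, rfl⟩ | h)
        · exact_mod_cast hr
        · have := h3 (b - x) z ((has_shift (by omega)).1 h)
          have := h.bounds.1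
          omega
      · rintro ⟨⟨h1, h2⟩, h3, h4⟩
        refine ⟨y, h1, w, ih.2 ⟨h2, by omega, fun b x h => ?_⟩, rfl, rfl⟩
        have := h4 (b + y) x (Or.inr ((has_shift (by omega)).1 h))
        omega

lemma mem_W (h0 : 0 ∉ Λ) {l : ℕ} {t : List ℕ} : t ∈ W Λ l ↔ Word Λ t ∧ t.sum = l := by
  rw [W, mem_filter, mem_pre h0]
  refine ⟨fun h => ⟨h.1.1, h.2⟩, fun h => ⟨⟨h.1, h.2.ge, fun b x hb => ?_⟩, h.2⟩⟩
  have h1 := hb.bounds
  have := pos_of_mem h0 (h.1 x h1.2.2)
  have := h.2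
  omega

lemma W_zero : W Λ 0 = {[]} := by simp [W, pre_zero]

lemma concat_mem_pre (h0 : 0 ∉ Λ) {r x : ℕ} {a : List ℕ} :
    a ++ [x] ∈ Pre Λ r ↔ Word Λ a ∧ x ∈ Λ ∧ a.sum < r ∧ r ≤ a.sum + x := by
  rw [mem_pre h0]
  simp only [word_append, word_cons, word_nil, and_true, List.sum_append, List.sum_cons,
    List.sum_nil, add_zero, has_append, has_single]
  constructor
  · rintro ⟨⟨h1, h2⟩, h3, h4⟩
    exact ⟨h1, h2, by have := h4 _ x (Or.inr ⟨rfl, rfl⟩); omega, h3⟩
  · rintro ⟨h1, h2, h3, h4⟩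
    refine ⟨⟨h1, h2⟩, h4, ?_⟩
    rintro b y (h | ⟨rfl, rfl⟩)
    · have := h.bounds
      omega
    · omega

lemma append_mem_pre (h0 : 0 ∉ Λ) {r r' : ℕ} (hr : r ≤ r') {a v : List ℕ} (ha : a ∈ Pre Λ r)
    (hv : v ∈ Pre Λ (r' - a.sum)) : a ++ v ∈ Pre Λ r' := by
  rw [mem_pre h0] at *
  refine ⟨word_append.2 ⟨ha.1, hv.1⟩, by have := hv.2.1; simp; omega, fun b x h => ?_⟩
  rcases has_append.1 h with h | h
  · have := ha.2.2 b x h
    omega
  · have := hv.2.2 (b - (a.sum : ℕ)) x ((has_shift (by omega)).1 h)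
    have := h.bounds.1
    omega

lemma sum_pre_pos {M : Type*} [AddCommMonoid M] (h0 : 0 ∉ Λ) {r : ℕ} (hr : 0 < r)
    (G : List ℕ → M) : ∑ w ∈ Pre Λ r, G w = ∑ x ∈ Λ, ∑ w ∈ Pre Λ (r - x), G (x :: w) := by
  rw [pre_pos h0 hr, sum_biUnion]
  · exact sum_congr rfl fun x _ => sum_image fun a _ b _ h => (List.cons.inj h).2
  · intro x _ y _ hxy
    simp only [Function.onFun, disjoint_left, mem_image]
    rintro _ ⟨a, -, rfl⟩ ⟨b, -, h⟩
    exact hxy (List.cons.inj h).1.symm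

lemma sum_W_reverse {M : Type*} [AddCommMonoid M] (h0 : 0 ∉ Λ) (l : ℕ) (G : List ℕ → M) :
    ∑ t ∈ W Λ l, G t.reverse = ∑ t ∈ W Λ l, G t :=
  sum_nbij' List.reverse List.reverse (by simp [mem_W h0]) (by simp [mem_W h0]) (by simp)
    (by simp) (by simp)

/-- The word `π` occurs in `t` at position `c`. -/
def Occ (c : ℕ) (π t : List ℕ) : Prop := ∃ a v, t = a ++ π ++ v ∧ a.sum = c

open Classical in
lemma sum_W_occ {M : Type*} [AddCommMonoid M] (h0 : 0 ∉ Λ) {l c : ℕ} {π : List ℕ}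
    (hπ : Word Λ π) (hl : c + π.sum ≤ l) (G : List ℕ → M) :
    ∑ t ∈ W Λ l, (if Occ c π t then G t else 0) =
      ∑ a ∈ W Λ c, ∑ v ∈ W Λ (l - c - π.sum), G (a ++ π ++ v) := by
  rw [← sum_filter, ← sum_product']
  symm
  refine sum_nbij (fun p => p.1 ++ π ++ p.2) ?_ ?_ ?_ (fun _ _ => rfl)
  · rintro ⟨a, v⟩ h
    simp only [mem_product, mem_W h0] at h
    simp only [mem_filter, mem_W h0, word_append, List.sum_append]
    exact ⟨⟨⟨⟨h.1.1, hπ⟩, h.2.1⟩, by omega⟩, a, v, rfl, h.1.2⟩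
  · rintro ⟨a, v⟩ h ⟨a', v'⟩ h' e
    simp only [coe_product, Set.mem_prod, mem_coe, mem_W h0] at h h'
    simp only [List.append_assoc] at e
    obtain ⟨rfl, e'⟩ := append_cancel h0 h.1.1 h'.1.1 e (by omega)
    rw [List.append_cancel_left e']
  · intro t ht
    simp only [coe_filter, mem_W h0, Set.mem_ofPred_eq] at ht
    obtain ⟨⟨h1, h2⟩, a, v, rfl, rfl⟩ := ht
    simp only [word_append, List.sum_append] at h1 h2
    refine ⟨(a, v), ?_, rfl⟩
    simp only [coe_product, Set.mem_prod, mem_coe, mem_W h0]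
    exact ⟨⟨h1.1.1, trivial⟩, h1.2, by omega⟩

lemma occ_shift (h0 : 0 ∉ Λ) {c : ℕ} {π t b : List ℕ} (hb : Word Λ b) :
    Occ (c + b.sum) π (b ++ t) ↔ Occ c π t := by
  constructor
  · rintro ⟨a, v, h, e⟩
    rw [List.append_assoc] at h
    rcases List.append_eq_append_iff.1 h with ⟨r, rfl, rfl⟩ | ⟨r, rfl, h⟩
    · exact ⟨r, v, by simp, by simp at e; omega⟩
    · simp only [List.sum_append] at e
      obtain rfl := Word.eq_nil h0 (word_append.1 hb).2 (by omega)
      exact ⟨[], v, by simpa using h, by simp; omega⟩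
  · rintro ⟨a, v, rfl, rfl⟩
    exact ⟨b ++ a, v, by simp, by simp [add_comm]⟩

lemma occ_local (h0 : 0 ∉ Λ) {c : ℕ} {π a v : List ℕ} (hv : Word Λ v) (h : c + π.sum ≤ a.sum) :
    Occ c π (a ++ v) ↔ Occ c π a := by
  constructor
  · rintro ⟨a', v', e, rfl⟩
    rcases List.append_eq_append_iff.1 e with ⟨r, e', rfl⟩ | ⟨r, rfl, rfl⟩
    · have := congrArg List.sum e'
      simp only [List.sum_append] at this
      obtain rfl := Word.eq_nil h0 (word_append.1 hv).1 (by omega)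
      exact ⟨a', [], by simpa using e'.symm, rfl⟩
    · exact ⟨a', r, rfl, rfl⟩
  · rintro ⟨a', v', rfl, rfl⟩
    exact ⟨a', v' ++ v, by simp, rfl⟩

lemma exists_unif {α : Type*} (s : Finset α) (P : α → ℕ → Prop)
    (hP : ∀ a k k', k ≤ k' → P a k → P a k') (h : ∀ a ∈ s, ∃ k, P a k) :
    ∃ k, ∀ a ∈ s, P a k := by
  choose! f hf using h
  exact ⟨s.sup f, fun a ha => hP a _ _ (le_sup ha) (hf a ha)⟩

end Pool.Agent.MP_2dc627_co.H36
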