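import Mathlib
import Pool.Agent.MP_2dc627_co.H36.Basics

/-!
The random walk with step probabilities `τ ^ x`.
-/

namespace Pool.Agent.MP_2dc627_co.H36

open Finset

attribute [-simp] Nat.cast_list_sum

/-- The data of an aperiodic set of tile lengths with least element at least two. -/
structure Ctx where
  Λ : Finset ℕ
  S : ℕ
  M : ℕ
  Fr : ℕ
  τ : ℝ
  hS : S ∈ Λ
  hM : M ∈ Λ
  hSle : ∀ x ∈ Λ, S ≤ x
  hleM : ∀ x ∈ Λ, x ≤ M
  hS2 : 2 ≤ S
  hFr : ∀ m, Fr ≤ m → ∃ t, Word Λ t ∧ t.sum = m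
  τ0 : 0 < τ
  τ1 : τ < 1
  hsum : ∑ x ∈ Λ, τ ^ x = 1

namespace Ctx

variable (K : Ctx)

lemma h0 : 0 ∉ K.Λ := fun h => by have := K.hSle 0 h; have := K.hS2; omega

lemma exists_ndvd : ∃ x ∈ K.Λ, ¬ K.S ∣ x := by
  by_contra h
  push Not at h
  have := K.hS2
  obtain ⟨t, ht, e⟩ := K.hFr (K.S * K.Fr + 1) (by nlinarith)
  have h1 : K.S ∣ t.sum := List.dvd_sum fun x hx => h x (ht x hx)
  rw [e, Nat.dvd_add_right (dvd_mul_right _ _)] at h1
  have := Nat.le_of_dvd one_pos h1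
  omega

lemma S_lt_M : K.S < K.M := by
  obtain ⟨x, hx, h⟩ := K.exists_ndvd
  have h1 := K.hSle x hx
  have h2 := K.hleM x hx
  have : x ≠ K.S := fun e => h (e ▸ dvd_rfl)
  omega

lemma exists_ne (x : ℕ) : ∃ y ∈ K.Λ, y ≠ x := by
  have := K.S_lt_M
  by_cases h : K.S = x
  · exact ⟨K.M, K.hM, by omega⟩
  · exact ⟨K.S, K.hS, h⟩

lemma pw (n : ℕ) : 0 < K.τ ^ n := pow_pos K.τ0 n

lemma pw_anti {m n : ℕ} (h : m ≤ n) : K.τ ^ n ≤ K.τ ^ m :=
  pow_le_pow_of_le_one K.τ0.le K.τ1.le h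

lemma pw_le_one (n : ℕ) : K.τ ^ n ≤ 1 := pow_le_one₀ K.τ0.le K.τ1.le

/-- Expectation over words stopped at `r`. -/
noncomputable def Ex (r : ℕ) (H : List ℕ → ℝ) : ℝ := ∑ w ∈ Pre K.Λ r, K.τ ^ w.sum * H w

/-- Weighted sum over words of sum `l`. -/
noncomputable def Sm (l : ℕ) (H : List ℕ → ℝ) : ℝ := ∑ t ∈ W K.Λ l, K.τ ^ l * H t

/-- The renewal sequence. -/
noncomputable def u (l : ℕ) : ℝ := (W K.Λ l).card * K.τ ^ l

variable {K}

lemma pre_word {r : ℕ} {w : List ℕ} (h : w ∈ Pre K.Λ r) : Word K.Λ w := ((mem_pre K.h0).1 h).1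

lemma pre_ge {r : ℕ} {w : List ℕ} (h : w ∈ Pre K.Λ r) : r ≤ w.sum := ((mem_pre K.h0).1 h).2.1

lemma pre_has {r : ℕ} {w : List ℕ} (h : w ∈ Pre K.Λ r) {s b : ℤ} {x : ℕ} (hb : Has s w b x) :
    b < s + r := by
  have := ((mem_pre K.h0).1 h).2.2 (b - s) x ((has_shift (by omega)).1 hb)
  omega

lemma pre_lt {r : ℕ} {w : List ℕ} (h : w ∈ Pre K.Λ r) : w.sum < r + K.M := by
  have := K.S_lt_M
  rcases List.eq_nil_or_concat' w with rfl | ⟨a, x, rfl⟩
  · simp; omega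
  · obtain ⟨-, h1, h2, -⟩ := (concat_mem_pre K.h0).1 h
    have := K.hleM x h1
    simp; omega

lemma Ex_zero (H : List ℕ → ℝ) : K.Ex 0 H = H [] := by simp [Ex, pre_zero]

lemma Ex_pos {r : ℕ} (hr : 0 < r) (H : List ℕ → ℝ) :
    K.Ex r H = ∑ x ∈ K.Λ, K.τ ^ x * K.Ex (r - x) fun w => H (x :: w) := by
  simp only [Ex, sum_pre_pos K.h0 hr, mul_sum, List.sum_cons, pow_add, mul_assoc]

lemma Ex_const (r : ℕ) (c : ℝ) : K.Ex r (fun _ => c) = c := by
  induction r using Nat.strong_induction_on with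
  | _ r ih =>
    rcases Nat.eq_zero_or_pos r with rfl | hr
    · exact Ex_zero _
    · rw [Ex_pos hr, sum_congr rfl fun x hx => by
        rw [ih (r - x) (by have := pos_of_mem K.h0 hx; omega)], ← sum_mul, K.hsum, one_mul]

lemma Ex_mono {r : ℕ} {H G : List ℕ → ℝ} (h : ∀ w ∈ Pre K.Λ r, H w ≤ G w) :
    K.Ex r H ≤ K.Ex r G :=
  sum_le_sum fun w hw => mul_le_mul_of_nonneg_left (h w hw) (K.pw _).le

lemma Ex_congr {r : ℕ} {H G : List ℕ → ℝ} (h : ∀ w ∈ Pre K.Λ r, H w = G w) :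
    K.Ex r H = K.Ex r G :=
  sum_congr rfl fun w hw => by rw [h w hw]

lemma Ex_add (r : ℕ) (H G : List ℕ → ℝ) :
    K.Ex r (fun w => H w + G w) = K.Ex r H + K.Ex r G := by
  simp only [Ex, mul_add, sum_add_distrib]

lemma Ex_sub (r : ℕ) (H G : List ℕ → ℝ) :
    K.Ex r (fun w => H w - G w) = K.Ex r H - K.Ex r G := by
  simp only [Ex, mul_sub, sum_sub_distrib]

lemma Ex_mul (r : ℕ) (c : ℝ) (H : List ℕ → ℝ) : K.Ex r (fun w => c * H w) = c * K.Ex r H := by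
  simp only [Ex, mul_sum, mul_left_comm]

lemma Ex_sum {ι : Type*} (r : ℕ) (s : Finset ι) (H : ι → List ℕ → ℝ) :
    K.Ex r (fun w => ∑ i ∈ s, H i w) = ∑ i ∈ s, K.Ex r (H i) := by
  simp only [Ex, mul_sum]; exact sum_comm

lemma Ex_le {r : ℕ} {H : List ℕ → ℝ} {c : ℝ} (h : ∀ w ∈ Pre K.Λ r, H w ≤ c) : K.Ex r H ≤ c :=
  (Ex_mono h).trans (Ex_const r c).le

lemma le_Ex {r : ℕ} {H : List ℕ → ℝ} {c : ℝ} (h : ∀ w ∈ Pre K.Λ r, c ≤ H w) : c ≤ K.Ex r H :=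
  (Ex_const r c).ge.trans (Ex_mono h)

lemma abs_Ex_le (r : ℕ) (H : List ℕ → ℝ) : |K.Ex r H| ≤ K.Ex r fun w => |H w| := by
  refine (abs_sum_le_sum_abs _ _).trans (sum_le_sum fun w _ => ?_)
  rw [abs_mul, abs_of_pos (K.pw _)]

lemma single_le_Ex {r : ℕ} {H : List ℕ → ℝ} (h : ∀ w ∈ Pre K.Λ r, 0 ≤ H w) {w : List ℕ}
    (hw : w ∈ Pre K.Λ r) : K.τ ^ w.sum * H w ≤ K.Ex r H :=
  single_le_sum (f := fun w => K.τ ^ w.sum * H w) (fun w hw => mul_nonneg (K.pw _).le (h w hw)) hw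

lemma exists_ge_Ex (r : ℕ) (H : List ℕ → ℝ) : ∃ w ∈ Pre K.Λ r, K.Ex r H ≤ H w := by
  have hne : (Pre K.Λ r).Nonempty := by
    by_contra h
    have := Ex_const (K := K) r 1
    simp [Ex, not_nonempty_iff_eq_empty.1 h] at this
  obtain ⟨w, hw, h⟩ := exists_max_image _ H hne
  exact ⟨w, hw, Ex_le h⟩

lemma Ex_tower {r r' : ℕ} (h : r ≤ r') (H : List ℕ → ℝ) :
    K.Ex r' H = K.Ex r fun a => K.Ex (r' - a.sum) fun v => H (a ++ v) := by
  induction r using Nat.strong_induction_on generalizing r' H with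
  | _ r ih =>
    rcases Nat.eq_zero_or_pos r with rfl | hr
    · simp [Ex_zero]
    · rw [Ex_pos hr, Ex_pos (hr.trans_le h)]
      refine sum_congr rfl fun x hx => ?_
      rw [ih (r - x) (by have := pos_of_mem K.h0 hx; omega) (by omega)]
      simp only [List.sum_cons, List.cons_append, Nat.sub_sub]

lemma Sm_eq_Ex (l : ℕ) (H : List ℕ → ℝ) :
    K.Sm l H = K.Ex l fun w => if w.sum = l then H w else 0 := by
  simp only [Sm, Ex, W, sum_filter]
  refine sum_congr rfl fun w _ => ?_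
  split_ifs with h <;> simp [h]

lemma Sm_tower {r l : ℕ} (h : r + K.M ≤ l) (H : List ℕ → ℝ) :
    K.Sm l H = K.Ex r fun a => K.Sm (l - a.sum) fun v => H (a ++ v) := by
  rw [Sm_eq_Ex, Ex_tower (r := r) (by omega)]
  refine Ex_congr fun a ha => ?_
  rw [Sm_eq_Ex]
  refine Ex_congr fun v _ => ?_
  have := pre_lt ha
  simp only [List.sum_append]
  exact if_congr (by omega) rfl rfl

lemma Sm_const (l : ℕ) (c : ℝ) : K.Sm l (fun _ => c) = K.u l * c := by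
  simp [Sm, u, mul_assoc]

lemma Sm_mono {l : ℕ} {H G : List ℕ → ℝ} (h : ∀ w ∈ W K.Λ l, H w ≤ G w) :
    K.Sm l H ≤ K.Sm l G :=
  sum_le_sum fun w hw => mul_le_mul_of_nonneg_left (h w hw) (K.pw _).le

lemma Sm_congr {l : ℕ} {H G : List ℕ → ℝ} (h : ∀ w ∈ W K.Λ l, H w = G w) :
    K.Sm l H = K.Sm l G :=
  sum_congr rfl fun w hw => by rw [h w hw]

lemma Sm_nonneg {l : ℕ} {H : List ℕ → ℝ} (h : ∀ w ∈ W K.Λ l, 0 ≤ H w) : 0 ≤ K.Sm l H :=
  sum_nonneg fun w hw => mul_nonneg (K.pw _).le (h w hw)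

lemma Sm_add (l : ℕ) (H G : List ℕ → ℝ) :
    K.Sm l (fun w => H w + G w) = K.Sm l H + K.Sm l G := by
  simp only [Sm, mul_add, sum_add_distrib]

lemma Sm_mul (l : ℕ) (c : ℝ) (H : List ℕ → ℝ) : K.Sm l (fun w => c * H w) = c * K.Sm l H := by
  simp only [Sm, mul_sum, mul_left_comm]

lemma Sm_sum {ι : Type*} (l : ℕ) (s : Finset ι) (H : ι → List ℕ → ℝ) :
    K.Sm l (fun w => ∑ i ∈ s, H i w) = ∑ i ∈ s, K.Sm l (H i) := by
  simp only [Sm, mul_sum]; exact sum_comm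

lemma single_le_Sm {l : ℕ} {H : List ℕ → ℝ} (h : ∀ w ∈ W K.Λ l, 0 ≤ H w) {w : List ℕ}
    (hw : w ∈ W K.Λ l) : K.τ ^ l * H w ≤ K.Sm l H :=
  single_le_sum (f := fun w => K.τ ^ l * H w) (fun w hw => mul_nonneg (K.pw _).le (h w hw)) hw

open Classical in
lemma Sm_ind {l : ℕ} {A : Finset (List ℕ)} (h : A ⊆ W K.Λ l) :
    K.Sm l (fun t => if t ∈ A then 1 else 0) = A.card * K.τ ^ l := by
  simp only [Sm, mul_ite, mul_one, mul_zero]
  rw [← sum_filter, filter_mem_eq_inter, inter_eq_right.2 h]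
  simp

lemma u_nonneg (l : ℕ) : 0 ≤ K.u l := mul_nonneg (Nat.cast_nonneg _) (K.pw _).le

lemma u_eq_Ex (l : ℕ) : K.u l = K.Ex l fun w => if w.sum = l then 1 else 0 := by
  rw [← Sm_eq_Ex, Sm_const, mul_one]

lemma u_le_one (l : ℕ) : K.u l ≤ 1 := by
  rw [u_eq_Ex]
  exact Ex_le fun w _ => by split_ifs <;> norm_num

lemma u_zero : K.u 0 = 1 := by simp [u, W_zero]

lemma u_tower {r l : ℕ} (h : r + K.M ≤ l) : K.u l = K.Ex r fun a => K.u (l - a.sum) := by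
  simpa only [Sm_const, mul_one] using Sm_tower h fun _ => 1

lemma u_pos {l : ℕ} (hl : 0 < l) :
    K.u l = ∑ x ∈ K.Λ, K.τ ^ x * if x ≤ l then K.u (l - x) else 0 := by
  rw [u_eq_Ex, Ex_pos hl]
  refine sum_congr rfl fun x _ => ?_
  congr 1
  split_ifs with h
  · rw [u_eq_Ex]
    exact Ex_congr fun w _ => if_congr (by simp; omega) rfl rfl
  · rw [show l - x = 0 by omega, Ex_zero, if_neg (by simp; omega)]

/-- Revealing the last position. -/
lemma Ex_last (r : ℕ) (H : List ℕ → ℝ) : K.Ex (r + 1) H =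
    ∑ x ∈ K.Λ, K.τ ^ x * K.Ex r fun w => if w.sum = r then H (w ++ [x]) else H w := by
  induction r using Nat.strong_induction_on generalizing H with
  | _ r ih =>
    rcases Nat.eq_zero_or_pos r with rfl | hr
    · rw [Ex_pos (by omega)]
      refine sum_congr rfl fun x hx => ?_
      rw [show 0 + 1 - x = 0 by have := pos_of_mem K.h0 hx; omega]
      simp [Ex_zero]
    · rw [Ex_pos (by omega)]
      simp only [Ex_pos hr, mul_sum]
      rw [sum_comm]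
      refine sum_congr rfl fun y hy => ?_
      have := pos_of_mem K.h0 hy
      simp only [mul_left_comm _ (K.τ ^ y), ← mul_sum]
      congr 1
      by_cases h : y ≤ r
      · rw [show r + 1 - y = r - y + 1 by omega, ih _ (by omega)]
        refine sum_congr rfl fun x _ => ?_
        congr 1
        exact Ex_congr fun w _ => if_congr (by simp; omega) rfl rfl
      · rw [show r + 1 - y = 0 by omega, show r - y = 0 by omega]
        simp only [Ex_zero]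
        rw [sum_congr rfl fun x _ => by rw [if_neg (by simp; omega)], ← sum_mul, K.hsum, one_mul]

variable (K) in
/-- Pairs of a last letter and an overshoot. -/
def Q : Finset (ℕ × ℕ) := (K.Λ ×ˢ range K.M).filter fun q => q.2 < q.1

lemma mem_Q {q : ℕ × ℕ} : q ∈ K.Q ↔ q.1 ∈ K.Λ ∧ q.2 < q.1 := by
  simp only [Q, mem_filter, mem_product, mem_range]
  exact ⟨fun h => ⟨h.1.1, h.2⟩, fun h => ⟨⟨h.1, h.2.trans_le (K.hleM _ h.1)⟩, h.2⟩⟩

lemma Ex_Q {r : ℕ} (hr : K.M ≤ r) (H : List ℕ → ℝ) : K.Ex r H =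
    ∑ q ∈ K.Q, ∑ a ∈ W K.Λ (r + q.2 - q.1), K.τ ^ (r + q.2) * H (a ++ [q.1]) := by
  rw [sum_sigma', Ex]
  symm
  refine sum_nbij (fun p => p.2 ++ [p.1.1]) ?_ ?_ ?_ ?_
  · rintro ⟨⟨x, i⟩, a⟩ h
    simp only [mem_sigma, mem_Q, mem_W K.h0] at h
    have := K.hleM x h.1.1
    show a ++ [x] ∈ _
    exact (concat_mem_pre K.h0).2 ⟨h.2.1, h.1.1, by omega, by omega⟩
  · rintro ⟨⟨x, i⟩, a⟩ h ⟨⟨x', i'⟩, a'⟩ h' e
    simp only [mem_coe, mem_sigma, mem_Q, mem_W K.h0] at h h'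
    obtain ⟨e1, e'⟩ : a = a' ∧ [x] = [x'] := List.append_inj' e rfl
    subst e1
    obtain rfl : x = x' := by simpa using e'
    have := K.hleM x h.1.1
    have h1 := h.2.2
    have h2 := h'.2.2
    obtain rfl : i = i' := by omega
    rfl
  · intro w hw
    rw [mem_coe] at hw
    have := K.S_lt_M
    rcases List.eq_nil_or_concat' w with rfl | ⟨a, x, rfl⟩
    · have := pre_ge hw
      simp at this; omega
    · obtain ⟨h1, h2, h3, h4⟩ := (concat_mem_pre K.h0).1 hw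
      refine ⟨⟨(x, a.sum + x - r), a⟩, ?_, rfl⟩
      simp only [mem_coe, mem_sigma, mem_Q, mem_W K.h0]
      exact ⟨⟨h2, by omega⟩, h1, by omega⟩
  · rintro ⟨⟨x, i⟩, a⟩ h
    simp only [mem_sigma, mem_Q, mem_W K.h0] at h
    have := K.hleM x h.1.1
    simp only [List.sum_append, List.sum_cons, List.sum_nil]
    rw [show a.sum + (x + 0) = r + i by omega]

end Ctx

end Pool.Agent.MP_2dc627_co.H36
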