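import Mathlib
import Pool.Agent.MP_2dc627_co.H36.Ctx

/-!
The product bound for cross intersecting families of stopped words.
-/

namespace Pool.Agent.MP_2dc627_co.H36

open Finset

attribute [-simp] Nat.cast_list_sum

lemma closure_alg {p a b d e T : ℝ} (hp0 : 0 ≤ p) (hp : p ≤ 1 / 2) (hd : 0 ≤ d) (he : 0 ≤ e)
    (h : p ^ 2 * d ≤ (1 - 2 * p) * a ∨ p ^ 2 * e ≤ (1 - 2 * p) * b)
    (h1 : (a + d) * b ≤ T) (h2 : a * (b + e) ≤ T) : (a + p * d) * (b + p * e) ≤ T := by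
  have h3 : p ^ 2 * d * e ≤ (1 - 2 * p) * max (d * b) (e * a) := by
    rcases h with h | h
    · have := mul_le_mul_of_nonneg_left (le_max_right (d * b) (e * a)) (by linarith : 0 ≤ 1 - 2 * p)
      nlinarith
    · have := mul_le_mul_of_nonneg_left (le_max_left (d * b) (e * a)) (by linarith : 0 ≤ 1 - 2 * p)
      nlinarith
  have h4 := mul_le_mul_of_nonneg_left (le_max_left (d * b) (e * a)) hp0
  have h5 := mul_le_mul_of_nonneg_left (le_max_right (d * b) (e * a)) hp0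
  have h6 : a * b + max (d * b) (e * a) ≤ T := by
    rcases max_choice (d * b) (e * a) with h | h <;> rw [h] <;> linarith
  nlinarith

namespace Ctx

variable {K : Ctx}

lemma avg_le {y : ℕ → ℝ} {c : ℝ} (h : ∀ x ∈ K.Λ, y x ≤ c) : ∑ x ∈ K.Λ, K.τ ^ x * y x ≤ c := by
  rw [← one_mul c, ← K.hsum, sum_mul]
  exact sum_le_sum fun x hx => mul_le_mul_of_nonneg_left (h x hx) (K.pw _).le

lemma avg_nonneg {y : ℕ → ℝ} (h : ∀ x ∈ K.Λ, 0 ≤ y x) : 0 ≤ ∑ x ∈ K.Λ, K.τ ^ x * y x :=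
  sum_nonneg fun x hx => mul_nonneg (K.pw _).le (h x hx)

lemma avg_le' {y : ℕ → ℝ} {c d : ℝ} {x0 : ℕ} (h0 : x0 ∈ K.Λ) (h : ∀ x ∈ K.Λ.erase x0, y x ≤ c)
    (hd : y x0 ≤ d) : ∑ x ∈ K.Λ, K.τ ^ x * y x ≤ c + K.τ ^ x0 * (d - c) := by
  have hs : ∑ x ∈ K.Λ.erase x0, K.τ ^ x = 1 - K.τ ^ x0 := by
    rw [← K.hsum, ← add_sum_erase _ _ h0]; ring
  have : ∑ x ∈ K.Λ.erase x0, K.τ ^ x * y x ≤ (1 - K.τ ^ x0) * c := by
    rw [← hs, sum_mul]
    exact sum_le_sum fun x hx => mul_le_mul_of_nonneg_left (h x hx) (K.pw _).le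
  have := mul_le_mul_of_nonneg_left hd (K.pw x0).le
  rw [← add_sum_erase _ _ h0]
  linarith

lemma erase_nonempty (x : ℕ) : (K.Λ.erase x).Nonempty := by
  obtain ⟨y, hy, h⟩ := K.exists_ne x
  exact ⟨y, mem_erase.2 ⟨h, hy⟩⟩

lemma closure_step (hp : K.τ ^ K.S ≤ 1 / 2) {y z : ℕ → ℝ} {π k T : ℝ} (hk0 : 0 ≤ k)
    (hk : π * (K.τ ^ K.S) ^ 2 ≤ k * (1 - 2 * K.τ ^ K.S)) (hy : ∀ x ∈ K.Λ, 0 ≤ y x)
    (hz : ∀ x ∈ K.Λ, 0 ≤ z x)
    (ho : (∀ x ∈ K.Λ, ∀ x' ∈ K.Λ, y x - y x' ≤ π) ∨ ∀ x ∈ K.Λ, ∀ x' ∈ K.Λ, z x - z x' ≤ π)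
    (h : ∀ x ∈ K.Λ, ∀ x' ∈ K.Λ, x ≠ x' → (y x + k) * (z x' + k) ≤ T) :
    (∑ x ∈ K.Λ, K.τ ^ x * y x + k) * (∑ x ∈ K.Λ, K.τ ^ x * z x + k) ≤ T := by
  obtain ⟨x1, hx1, h1⟩ := exists_max_image K.Λ y ⟨_, K.hS⟩
  obtain ⟨x2, hx2, h2⟩ := exists_max_image K.Λ z ⟨_, K.hS⟩
  have hz0 := avg_nonneg hz
  have := hy x1 hx1
  by_cases hx : x1 = x2
  swap
  · refine le_trans ?_ (h x1 hx1 x2 hx2 hx)
    have := avg_le h1
    have := avg_le h2
    gcongr
  subst hx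
  obtain ⟨x3, hx3, h3⟩ := exists_max_image _ y (erase_nonempty (K := K) x1)
  obtain ⟨x4, hx4, h4⟩ := exists_max_image _ z (erase_nonempty (K := K) x1)
  have e1 := avg_le' hx1 h3 le_rfl
  have e2 := avg_le' hx1 h4 le_rfl
  rw [mem_erase] at hx3 hx4
  have hq : K.τ ^ x1 ≤ K.τ ^ K.S := K.pw_anti (K.hSle _ hx1)
  have hp0 := K.pw K.S
  set p := K.τ ^ K.S
  have d1 := sub_nonneg.2 (h1 _ hx3.2)
  have d2 := sub_nonneg.2 (h2 _ hx4.2)
  have := hy _ hx3.2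
  have := hz _ hx4.2
  have e3 := mul_le_mul_of_nonneg_right hq d1
  have e4 := mul_le_mul_of_nonneg_right hq d2
  refine le_trans ?_ (closure_alg (a := y x3 + k) (b := z x4 + k) hp0.le hp d1 d2 ?_ ?_ ?_)
  · have := mul_nonneg hp0.le d1
    exact mul_le_mul (by linarith) (by linarith) (by linarith) (by linarith)
  · rcases ho with ho | ho
    · have := mul_le_mul_of_nonneg_left (ho _ hx1 _ hx3.2) (sq_nonneg p)
      exact Or.inl (by nlinarith)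
    · have := mul_le_mul_of_nonneg_left (ho _ hx1 _ hx4.2) (sq_nonneg p)
      exact Or.inr (by nlinarith)
  · simpa [add_comm] using h _ hx1 _ hx4.2 hx4.1.symm
  · simpa [add_comm] using h _ hx3.2 _ hx1 hx3.1

/-- Extension of a word that ends exactly at the cut. -/
def ext (s c x : ℕ) (w : List ℕ) : List ℕ := if s + w.sum = c then w ++ [x] else w

lemma Ex_ext (s c : ℕ) (H : List ℕ → ℝ) :
    K.Ex (c + 1 - s) H = ∑ x ∈ K.Λ, K.τ ^ x * K.Ex (c - s) fun w => H (ext s c x w) := by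
  by_cases h : s ≤ c
  · rw [show c + 1 - s = c - s + 1 by omega, Ex_last]
    refine sum_congr rfl fun x _ => congrArg _ (Ex_congr fun w _ => ?_)
    rw [ext, apply_ite H]
    exact if_congr (by omega) rfl rfl
  · rw [show c + 1 - s = 0 by omega, show c - s = 0 by omega]
    simp only [Ex_zero, ext]
    rw [sum_congr rfl fun x _ => by rw [if_neg (by simp; omega)], ← sum_mul, K.hsum, one_mul]

lemma ext_mem {s c x : ℕ} {w : List ℕ} (hw : w ∈ Pre K.Λ (c - s)) (hx : x ∈ K.Λ) :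
    ext s c x w ∈ Pre K.Λ (c + 1 - s) := by
  have := pre_ge hw
  have := pos_of_mem K.h0 hx
  unfold ext
  split_ifs with h
  · exact (concat_mem_pre K.h0).2 ⟨pre_word hw, hx, by omega, by omega⟩
  · refine (mem_pre K.h0).2 ⟨pre_word hw, by omega, fun b y hb => ?_⟩
    have := pre_has hw hb
    omega

lemma has_ext {s c x y : ℕ} {b : ℤ} {w : List ℕ} (hw : w ∈ Pre K.Λ (c - s))
    (h : Has s (ext s c x w) b y) : (Has s w b y ∧ b < c) ∨ (b = c ∧ y = x) := by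
  have key : Has s w b y → b < c := fun h => by
    have := pre_has hw h
    have := h.bounds
    omega
  unfold ext at h
  split_ifs at h with h1
  · rcases has_append.1 h with h | h
    · exact Or.inl ⟨h, key h⟩
    · rw [has_single] at h
      exact Or.inr ⟨by omega, h.2⟩
  · exact Or.inl ⟨h, key h⟩

lemma ext_osc {π : ℝ} (hπ0 : 0 ≤ π) (hπ : ∀ m, 0 < m → K.u m ≤ π) {s c : ℕ} (hs : s ≠ c)
    {F : List ℕ → ℝ} (hF : ∀ w, 0 ≤ F w ∧ F w ≤ 1) (x x' : ℕ) :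
    (K.Ex (c - s) fun w => F (ext s c x w)) - (K.Ex (c - s) fun w => F (ext s c x' w)) ≤ π := by
  rw [← Ex_sub]
  by_cases h : s < c
  · refine le_trans ?_ (hπ (c - s) (by omega))
    rw [u_eq_Ex]
    refine Ex_mono fun w _ => ?_
    split_ifs with h1
    · have := (hF (ext s c x w)).2
      have := (hF (ext s c x' w)).1
      linarith
    · simp only [ext, if_neg (show ¬ s + w.sum = c by omega), sub_self, le_refl]
  · rw [show c - s = 0 by omega, Ex_zero]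
    simpa only [ext, if_neg (show ¬ s + [].sum = c by simp; omega), sub_self]

theorem closure (hp : K.τ ^ K.S ≤ 1 / 2) {π k T : ℝ} (hπ0 : 0 ≤ π) (hπ : ∀ m, 0 < m → K.u m ≤ π)
    (hk0 : 0 ≤ k) (hk : π * (K.τ ^ K.S) ^ 2 ≤ k * (1 - 2 * K.τ ^ K.S)) {s s' : ℕ} (hs : s ≠ s')
    (c : ℕ) (F G : List ℕ → ℝ) (hF : ∀ w, 0 ≤ F w ∧ F w ≤ 1) (hG : ∀ w, 0 ≤ G w ∧ G w ≤ 1)
    (h : ∀ w ∈ Pre K.Λ (c - s), ∀ w' ∈ Pre K.Λ (c - s'), Dj s w s' w' →
      (F w + k) * (G w' + k) ≤ T) :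
    (K.Ex (c - s) F + k) * (K.Ex (c - s') G + k) ≤ T := by
  induction c generalizing F G with
  | zero =>
    simp only [Nat.zero_sub, Ex_zero] at h ⊢
    exact h [] (by simp [pre_zero]) [] (by simp [pre_zero]) fun _ _ h _ => h
  | succ c ih =>
    rw [Ex_ext, Ex_ext]
    refine closure_step hp hk0 hk (fun x _ => le_Ex fun _ _ => (hF _).1)
      (fun x _ => le_Ex fun _ _ => (hG _).1) ?_ fun x hx x' hx' hne =>
        ih _ _ (fun _ => hF _) (fun _ => hG _) fun w hw w' hw' hd =>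
          h _ (ext_mem hw hx) _ (ext_mem hw' hx') fun b y h1 h2 => ?_
    · by_cases h1 : s = c
      · exact Or.inr fun x _ x' _ => ext_osc hπ0 hπ (by omega) hG x x'
      · exact Or.inl fun x _ x' _ => ext_osc hπ0 hπ h1 hF x x'
    · rcases has_ext hw h1 with h1 | h1 <;> rcases has_ext hw' h2 with h2 | h2
      · exact hd b y h1.1 h2.1
      all_goals omega

end Ctx

end Pool.Agent.MP_2dc627_co.H36
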