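import Mathlib
import Pool.Agent.MP_2dc627_co.H36.Ctx

/-!
The renewal theorem.
-/

namespace Pool.Agent.MP_2dc627_co.H36

open Finset Filter Topology

attribute [-simp] Nat.cast_list_sum

lemma exists_tau {Λ : Finset ℕ} (h0 : 0 ∉ Λ) (h2 : 2 ≤ Λ.card) :
    ∃ τ : ℝ, 0 < τ ∧ τ < 1 ∧ ∑ x ∈ Λ, τ ^ x = 1 := by
  have hc : ContinuousOn (fun τ : ℝ => ∑ x ∈ Λ, τ ^ x) (Set.Icc 0 1) := by fun_prop
  have h1 : (1 : ℝ) ∈ Set.Ioo (∑ x ∈ Λ, (0 : ℝ) ^ x) (∑ x ∈ Λ, (1 : ℝ) ^ x) := by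
    constructor
    · rw [sum_eq_zero fun x hx => zero_pow (pos_of_mem h0 hx).ne']
      exact one_pos
    · simp only [one_pow, sum_const, nsmul_eq_mul, mul_one]
      exact_mod_cast h2
  obtain ⟨τ, hτ, e⟩ := intermediate_value_Ioo zero_le_one hc h1
  exact ⟨τ, hτ.1, hτ.2, e⟩

namespace Ctx

variable {K : Ctx}

lemma p_ne_half : K.τ ^ K.S ≠ 1 / 2 := by
  intro h
  have hτ := K.τ0.ne'
  have hSM := K.S_lt_M
  have hS := K.hS2
  set ρ : ℝ := K.τ⁻¹ with hρ
  have h1 : ρ ^ K.S = 2 := by rw [hρ, inv_pow, h]; norm_num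
  have hi : IsIntegral ℤ ρ := by
    refine IsIntegral.of_pow (n := K.S) (by omega) ?_
    rw [h1]
    exact_mod_cast isIntegral_algebraMap (R := ℤ) (A := ℝ) (x := 2)
  set z : ℝ := ρ ^ (K.M - 1) - ∑ x ∈ K.Λ.erase K.M, ρ ^ (K.M - x - 1) with hz
  have hzi : IsIntegral ℤ z := (hi.pow _).sub (IsIntegral.sum _ fun x _ => hi.pow _)
  have h2 : ρ * z = 1 := by
    have e : ρ ^ K.M = ∑ x ∈ K.Λ, ρ ^ (K.M - x) := by
      rw [← mul_one (ρ ^ K.M), ← K.hsum, mul_sum]
      refine sum_congr rfl fun x hx => ?_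
      obtain ⟨k, hk⟩ := Nat.exists_eq_add_of_le (K.hleM x hx)
      rw [hk, Nat.add_sub_cancel_left, pow_add, mul_right_comm, ← mul_pow, hρ,
        inv_mul_cancel₀ hτ, one_pow, one_mul]
    rw [← add_sum_erase _ _ K.hM, Nat.sub_self, pow_zero] at e
    rw [hz, mul_sub, mul_sum, ← pow_succ', show K.M - 1 + 1 = K.M by omega, e,
      add_sub_assoc, ← sum_sub_distrib, sum_eq_zero fun x hx => ?_, add_zero]
    have := K.hleM x (mem_erase.1 hx).2
    have := (mem_erase.1 hx).1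
    rw [← pow_succ', show K.M - x - 1 + 1 = K.M - x by omega, sub_self]
  have h3 : z ^ K.S = algebraMap ℚ ℝ (1 / 2) := by
    have : ρ ^ K.S * z ^ K.S = 1 := by rw [← mul_pow, h2, one_pow]
    rw [h1] at this
    simp only [one_div, map_inv₀, map_ofNat]
    linarith
  have h4 : IsIntegral ℤ (1 / 2 : ℚ) := by
    rw [← isIntegral_algebraMap_iff (algebraMap ℚ ℝ).injective, ← h3]
    exact hzi.pow _
  obtain ⟨y, hy⟩ := IsIntegrallyClosed.isIntegral_iff.1 h4
  have h5 : (2 * y : ℚ) = 1 := by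
    simp only [algebraMap_int_eq, eq_intCast] at hy
    rw [hy]; norm_num
  have h6 : 2 * y = 1 := by exact_mod_cast h5
  omega

lemma exists_pibar : ∃ π : ℝ, 0 < π ∧ π < 1 ∧ ∀ m, 0 < m → K.u m ≤ π := by
  have hSM := K.S_lt_M
  have hS := K.hS2
  have hq := K.pw K.M
  have hq1 : K.τ ^ K.M < 1 := pow_lt_one₀ K.τ0.le K.τ1 (by omega)
  set q := K.τ ^ K.M with hqd
  have hs : ∑ x ∈ K.Λ.erase K.M, K.τ ^ x = 1 - q := by
    rw [← K.hsum, ← add_sum_erase _ _ K.hM]; ring
  have key : ∀ m c, 0 < m → (∀ x ∈ K.Λ.erase K.M, (if x ≤ m then K.u (m - x) else 0) ≤ c) →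
      K.u m ≤ q * (if K.M ≤ m then K.u (m - K.M) else 0) + (1 - q) * c := by
    intro m c hm h
    rw [u_pos hm, ← add_sum_erase _ _ K.hM, ← hs, sum_mul]
    gcongr with x hx
    · exact (K.pw _).le
    · exact h x hx
  have h1 : ∀ m, 0 < m → m < K.M → K.u m ≤ 1 - q := by
    intro m hm hM
    have := key m 1 hm fun x _ => by
      split_ifs
      · exact u_le_one _
      · norm_num
    rwa [if_neg (by omega), mul_zero, zero_add, mul_one] at this
  refine ⟨1 - q * (1 - q), by nlinarith, by nlinarith, fun m => ?_⟩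
  induction m using Nat.strong_induction_on with
  | _ m ih =>
    intro hm
    rcases lt_trichotomy m K.M with h | h | h
    · have := h1 m hm h
      nlinarith
    · have := key m (1 - q) hm fun x hx => by
        have := K.hleM x (mem_erase.1 hx).2
        have := K.hSle x (mem_erase.1 hx).2
        have := (mem_erase.1 hx).1
        rw [if_pos (by omega)]
        exact h1 _ (by omega) (by omega)
      rw [if_pos (by omega), show m - K.M = 0 by omega, u_zero] at this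
      nlinarith
    · have := key m (1 - q * (1 - q)) hm fun x hx => by
        have := K.hleM x (mem_erase.1 hx).2
        have := K.hSle x (mem_erase.1 hx).2
        rw [if_pos (by omega)]
        exact ih _ (by omega) (by omega)
      rw [if_pos (by omega)] at this
      have h2 := ih (m - K.M) (by omega) (by omega)
      nlinarith

lemma u_persist {c : ℕ} {β : ℝ} (h : ∀ j < K.M, β ≤ K.u (c + j)) (n : ℕ) (hn : c ≤ n) :
    β ≤ K.u n := by
  induction n using Nat.strong_induction_on with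
  | _ n ih =>
    by_cases h1 : n < c + K.M
    · have := h (n - c) (by omega)
      rwa [show c + (n - c) = n by omega] at this
    · have := K.S_lt_M
      rw [u_pos (by omega), ← one_mul β, ← K.hsum, sum_mul]
      refine sum_le_sum fun x hx => mul_le_mul_of_nonneg_left ?_ (K.pw _).le
      have := K.hleM x hx
      have := pos_of_mem K.h0 hx
      rw [if_pos (by omega)]
      exact ih _ (by omega) (by omega)

variable (K) in
/-- The limit of the renewal sequence. -/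
noncomputable def C : ℝ := limsup K.u atTop

lemma u_bdd : IsBoundedUnder (· ≤ ·) atTop K.u := ⟨1, Eventually.of_forall (f := atTop) u_le_one⟩

lemma u_bdd' : IsBoundedUnder (· ≥ ·) atTop K.u :=
  ⟨0, Eventually.of_forall (f := atTop) u_nonneg⟩

lemma tendsto_u : Tendsto K.u atTop (𝓝 K.C) := by
  rw [tendsto_order]
  refine ⟨fun a ha => ?_, fun a ha => eventually_lt_of_limsup_lt ha u_bdd⟩
  have hq := K.pw (K.Fr + K.M)
  set q := K.τ ^ (K.Fr + K.M) with hqd
  have hq1 : q ≤ 1 := K.pw_le_one _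
  set ε := q * (K.C - a) / 4 with hε
  have hε0 : 0 < ε := by have := sub_pos.2 ha; positivity
  obtain ⟨N, hN⟩ := eventually_atTop.1
    (eventually_lt_of_limsup_lt (show limsup K.u atTop < K.C + ε from lt_add_of_pos_right _ hε0)
      u_bdd)
  obtain ⟨n, hn, hn'⟩ := frequently_atTop.1
    (frequently_lt_of_lt_limsup (u := K.u) (f := atTop) (b := K.C - ε) u_bdd'.isCoboundedUnder_le
      (sub_lt_self _ hε0)) (N + K.Fr + 2 * K.M)
  refine eventually_atTop.2 ⟨n - K.Fr - K.M, fun m hm =>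
    lt_of_lt_of_le (b := (K.C + a) / 2) (by linarith) (u_persist (fun j hj => ?_) m hm)⟩
  obtain ⟨t, ht, e⟩ := K.hFr (K.Fr + K.M - j) (by omega)
  have h1 : t ∈ Pre K.Λ (K.Fr + K.M - j) := (mem_filter.1 ((mem_W K.h0).2 ⟨ht, e⟩)).1
  have h2 := single_le_Ex (H := fun a => K.C + ε - K.u (n - a.sum)) (fun w hw => by
    have := pre_lt hw
    exact sub_nonneg.2 (hN _ (by omega)).le) h1
  rw [Ex_sub, Ex_const, ← u_tower (by omega), e,
    show n - (K.Fr + K.M - j) = n - K.Fr - K.M + j by omega] at h2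
  have h3 : q ≤ K.τ ^ (K.Fr + K.M - j) := K.pw_anti (by omega)
  have h4 := (hN (n - K.Fr - K.M + j) (by omega)).le
  have h5 : q * (K.C + ε - K.u (n - K.Fr - K.M + j)) ≤ 2 * ε :=
    (mul_le_mul_of_nonneg_right h3 (by linarith)).trans (by linarith)
  by_contra h6
  have : q * ((K.C - a) / 2) < q * (K.C + ε - K.u (n - K.Fr - K.M + j)) :=
    mul_lt_mul_of_pos_left (by linarith) hq
  linarith

lemma C_pos : 0 < K.C := by
  refine (K.pw (K.Fr + K.M)).trans_le (ge_of_tendsto tendsto_u (eventually_atTop.2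
    ⟨K.Fr, u_persist fun j hj => ?_⟩))
  obtain ⟨t, ht, e⟩ := K.hFr (K.Fr + j) (by omega)
  have : 1 ≤ (W K.Λ (K.Fr + j)).card := card_pos.2 ⟨t, (mem_W K.h0).2 ⟨ht, e⟩⟩
  have h1 : (1 : ℝ) ≤ (W K.Λ (K.Fr + j)).card := by exact_mod_cast this
  have h2 : K.τ ^ (K.Fr + K.M) ≤ K.τ ^ (K.Fr + j) := K.pw_anti (by omega)
  have := K.pw (K.Fr + j)
  unfold u
  nlinarith

lemma u_near {δ : ℝ} (hδ : 0 < δ) : ∃ R, ∀ m, R ≤ m → |K.u m - K.C| ≤ δ := by
  obtain ⟨R, hR⟩ := Metric.tendsto_atTop.1 (tendsto_u (K := K)) δ hδ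
  exact ⟨R, fun m hm => (hR m hm).le⟩

/-- Mixing of the overshoot. -/
lemma mixing : ∃ R, ∀ r r', R ≤ r → R ≤ r' → ∀ g : ℕ → ℝ,
    |K.Ex r (fun w => g (w.sum - r)) - K.Ex r' (fun w => g (w.sum - r'))| ≤
      1 / 6 * K.Ex r' (fun w => |g (w.sum - r')|) := by
  have hC := C_pos (K := K)
  obtain ⟨R, hR⟩ := u_near (K := K) (δ := K.C / 13) (by positivity)
  have key : ∀ r, K.M ≤ r → ∀ g : ℕ → ℝ, K.Ex r (fun w => g (w.sum - r)) =
      ∑ q ∈ K.Q, K.τ ^ q.1 * K.u (r + q.2 - q.1) * g q.2 := by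
    intro r hr g
    rw [Ex_Q hr]
    refine sum_congr rfl fun q hq => ?_
    have := K.hleM _ (mem_Q.1 hq).1
    rw [sum_congr rfl (g := fun _ => K.τ ^ (r + q.2) * g q.2) fun a ha => by
      have := ((mem_W K.h0).1 ha).2
      rw [show (a ++ [q.1]).sum - r = q.2 by simp; omega]]
    rw [sum_const, nsmul_eq_mul, u, show r + q.2 = q.1 + (r + q.2 - q.1) by omega, pow_add,
      Nat.add_sub_cancel_left]
    ring
  refine ⟨R + K.M, fun r r' hr hr' g => ?_⟩
  rw [key r (by omega), key r' (by omega), key r' (by omega) fun i => |g i|, ← sum_sub_distrib,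
    mul_sum]
  refine (abs_sum_le_sum_abs _ _).trans (sum_le_sum fun q hq => ?_)
  have := K.hleM _ (mem_Q.1 hq).1
  have h1 := abs_le.1 (hR (r + q.2 - q.1) (by omega))
  have h2 := abs_le.1 (hR (r' + q.2 - q.1) (by omega))
  rw [← sub_mul, ← mul_sub, abs_mul, abs_mul, abs_of_pos (K.pw _), ← mul_assoc, mul_left_comm]
  gcongr
  · exact (K.pw _).le
  · rw [abs_le]; constructor <;> linarith

end Ctx

end Pool.Agent.MP_2dc627_co.H36
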