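import Mathlib
import Pool.Agent.MP_2dc627_co.H36.Renew

/-!
A second moment bound for local patterns in far apart windows.
-/

namespace Pool.Agent.MP_2dc627_co.H36

open Finset Filter Topology

attribute [-simp] Nat.cast_list_sum

open Classical in
/-- Weighted count of patterns near position `c`. -/
noncomputable def Zp {ι : Type} (P : Finset ι) (o : ι → ℕ) (π : ι → List ℕ) (ω : ι → ℝ) (c : ℕ)
    (t : List ℕ) : ℝ := ∑ σ ∈ P, ω σ * if Occ (c + o σ) (π σ) t then 1 else 0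

namespace Ctx

variable {K : Ctx} {ι : Type} {P : Finset ι} {o : ι → ℕ} {π : ι → List ℕ} {ω : ι → ℝ}

lemma Zp_nonneg (hω : ∀ σ ∈ P, 0 ≤ ω σ) (c : ℕ) (t : List ℕ) : 0 ≤ Zp P o π ω c t :=
  sum_nonneg fun σ hσ => mul_nonneg (hω σ hσ) (by split_ifs <;> norm_num)

lemma Zp_le (hω : ∀ σ ∈ P, 0 ≤ ω σ) (c : ℕ) (t : List ℕ) : Zp P o π ω c t ≤ ∑ σ ∈ P, ω σ :=
  sum_le_sum fun σ hσ => mul_le_of_le_one_right (hω σ hσ) (by split_ifs <;> norm_num)

lemma Sm_Zp (hπ : ∀ σ ∈ P, Word K.Λ (π σ)) {l c : ℕ} (hl : ∀ σ ∈ P, c + o σ + (π σ).sum ≤ l)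
    (H : List ℕ → ℝ) : K.Sm l (fun t => Zp P o π ω c t * H t) =
      ∑ σ ∈ P, ω σ * K.τ ^ l * ∑ a ∈ W K.Λ (c + o σ), ∑ v ∈ W K.Λ (l - (c + o σ) - (π σ).sum),
        H (a ++ π σ ++ v) := by
  simp only [Zp, sum_mul, Sm_sum]
  refine sum_congr rfl fun σ hσ => ?_
  rw [← sum_W_occ K.h0 (hπ σ hσ) (hl σ hσ), Sm, mul_sum]
  refine sum_congr rfl fun t _ => ?_
  split_ifs <;> ring

lemma Zp_mean (hπ : ∀ σ ∈ P, Word K.Λ (π σ)) (hω : ∀ σ ∈ P, 0 ≤ ω σ) {δ : ℝ} (hδ : 0 < δ) :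
    ∃ R, ∀ c l, R ≤ c → c + R ≤ l →
      |K.Sm l (Zp P o π ω c) - K.C ^ 2 * ∑ σ ∈ P, ω σ * K.τ ^ (π σ).sum| ≤ δ := by
  have hs : 0 ≤ ∑ σ ∈ P, ω σ := sum_nonneg hω
  obtain ⟨R, hR⟩ := u_near (K := K) (δ := δ / (2 * (∑ σ ∈ P, ω σ + 1))) (by positivity)
  have hC : K.C ≤ 1 := le_of_tendsto' tendsto_u u_le_one
  have hC0 := C_pos (K := K)
  refine ⟨R + P.sup fun σ => o σ + (π σ).sum, fun c l h1 h2 => ?_⟩
  have hsup : ∀ σ ∈ P, o σ + (π σ).sum ≤ P.sup fun σ => o σ + (π σ).sum :=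
    fun σ hσ => le_sup (f := fun σ => o σ + (π σ).sum) hσ
  have := Sm_Zp (ω := ω) hπ (l := l) (c := c) (o := o)
    (fun σ hσ => by have := hsup σ hσ; omega) fun _ => 1
  simp only [mul_one] at this
  rw [this, mul_sum, ← sum_sub_distrib]
  refine (abs_sum_le_sum_abs _ _).trans ((sum_le_sum (g := fun σ =>
    ω σ * (δ / (∑ σ ∈ P, ω σ + 1))) fun σ hσ => ?_).trans ?_)
  · have := hsup σ hσ
    have e : ω σ * K.τ ^ l * ∑ a ∈ W K.Λ (c + o σ), ∑ v ∈ W K.Λ (l - (c + o σ) - (π σ).sum),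
        (1 : ℝ) = ω σ * K.τ ^ (π σ).sum * (K.u (c + o σ) * K.u (l - (c + o σ) - (π σ).sum)) := by
      conv_lhs => rw [show l = (π σ).sum + (c + o σ) + (l - (c + o σ) - (π σ).sum) by omega]
      simp only [sum_const, nsmul_eq_mul, u, pow_add,
        show (π σ).sum + (c + o σ) + (l - (c + o σ) - (π σ).sum) - (c + o σ) - (π σ).sum =
          l - (c + o σ) - (π σ).sum by omega]
      ring
    rw [e, mul_comm (K.C ^ 2), ← mul_sub, abs_mul, abs_of_nonneg (mul_nonneg (hω σ hσ) (K.pw _).le),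
      mul_assoc]
    refine mul_le_mul_of_nonneg_left ((mul_le_of_le_one_left (abs_nonneg _)
      (K.pw_le_one _)).trans ?_) (hω σ hσ)
    have h3 := hR (c + o σ) (by omega)
    have h4 := hR (l - (c + o σ) - (π σ).sum) (by omega)
    set a := K.u (c + o σ)
    have hb := u_nonneg (K := K) (l - (c + o σ) - (π σ).sum)
    have hb' := u_le_one (K := K) (l - (c + o σ) - (π σ).sum)
    set b := K.u (l - (c + o σ) - (π σ).sum)
    rw [show a * b - K.C ^ 2 = (a - K.C) * b + (b - K.C) * K.C by ring,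
      show δ / (∑ σ ∈ P, ω σ + 1) = δ / (2 * (∑ σ ∈ P, ω σ + 1)) + δ / (2 * (∑ σ ∈ P, ω σ + 1)) by
        field_simp; ring]
    refine (abs_add_le _ _).trans (add_le_add ?_ ?_)
    · rw [abs_mul, abs_of_nonneg hb]
      exact (mul_le_of_le_one_right (abs_nonneg _) hb').trans h3
    · rw [abs_mul, abs_of_nonneg hC0.le]
      exact (mul_le_of_le_one_right (abs_nonneg _) hC).trans h4
  · rw [← sum_mul, mul_div_assoc', div_le_iff₀ (by positivity)]
    nlinarith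

theorem window (hω : ∀ σ ∈ P, 0 ≤ ω σ) {m0 : ℝ} (hm0 : 0 ≤ m0)
    (hm : ∀ δ : ℝ, 0 < δ → ∃ R, ∀ c l, R ≤ c → c + R ≤ l → |K.Sm l (Zp P o π ω c) - m0| ≤ δ)
    {ε : ℝ} (hε : 0 < ε) : ∃ G0 J : ℕ, 0 < J ∧ ∀ G, G0 ≤ G → ∀ (l c0 : ℕ) (I : Finset ℕ),
      J ≤ I.card → G ≤ c0 → (∀ k ∈ I, c0 + k * G + G ≤ l) → ∀ H : List ℕ → ℝ,
      (∀ t, 0 ≤ H t ∧ H t ≤ 1) →
      |∑ k ∈ I, K.Sm l (fun t => Zp P o π ω (c0 + k * G) t * H t) -
        I.card * (m0 / K.C) * K.Sm l H| ≤ ε * I.card := by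
  have hC := C_pos (K := K)
  set μ := m0 / K.C with hμ
  have hμ0 : 0 ≤ μ := by positivity
  obtain ⟨δ, ⟨hδ1, hδ2⟩, hδ0⟩ : ∃ δ : ℝ, ((m0 + δ) * ((m0 + δ) / (K.C - δ)) -
      2 * μ * (m0 - δ) + μ ^ 2 * (K.C + δ) < ε ^ 2 / 2 ∧ δ < K.C) ∧ 0 < δ := by
    have h1 : ContinuousAt (fun δ : ℝ => (m0 + δ) * ((m0 + δ) / (K.C - δ)) -
        2 * μ * (m0 - δ) + μ ^ 2 * (K.C + δ)) 0 := by
      fun_prop (disch := simpa using hC.ne')
    have h2 := h1.eventually_lt continuousAt_const (g := fun _ => ε ^ 2 / 2) (by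
      have : (m0 + 0) * ((m0 + 0) / (K.C - 0)) - 2 * μ * (m0 - 0) + μ ^ 2 * (K.C + 0) = 0 := by
        rw [hμ, sub_zero]; field_simp; ring
      rw [this]; positivity)
    exact (((h2.and (eventually_lt_nhds hC)).filter_mono (nhdsWithin_le_nhds (s := Set.Ioi 0))).and
      self_mem_nhdsWithin).exists
  obtain ⟨R1, hR1⟩ := hm δ hδ0
  obtain ⟨R2, hR2⟩ := u_near (K := K) hδ0
  set L := P.sup fun σ => o σ + (π σ).sum with hL
  have hsup : ∀ σ ∈ P, o σ + (π σ).sum ≤ L :=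
    fun σ hσ => le_sup (f := fun σ => o σ + (π σ).sum) hσ
  set B := ∑ σ ∈ P, ω σ with hB
  set Z := Zp P o π ω with hZ
  have Z0 : ∀ c t, 0 ≤ Z c t := Zp_nonneg hω
  have Z1 : ∀ c t, Z c t ≤ B := Zp_le hω
  have cross : ∀ l c c', R1 ≤ c → c + L + K.M + R1 ≤ c' → c' + R1 + R2 ≤ l →
      K.Sm l (fun t => Z c t * Z c' t) ≤ (m0 + δ) * ((m0 + δ) / (K.C - δ)) := by
    intro l c c' h1 h2 h3
    have loc : ∀ a ∈ Pre K.Λ (c + L), ∀ v ∈ W K.Λ (l - a.sum), Z c (a ++ v) = Z c a :=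
      fun a ha v hv => sum_congr rfl fun σ hσ => by
        rw [occ_local K.h0 ((mem_W K.h0).1 hv).1
          (by have := pre_ge ha; have := hsup σ hσ; omega)]
    have e1 : (K.C - δ) * K.Ex (c + L) (Z c) ≤ m0 + δ := by
      have := (abs_le.1 (hR1 c l h1 (by omega))).2
      rw [Sm_tower (r := c + L) (by omega)] at this
      rw [← Ex_mul]
      refine (Ex_mono fun a ha => ?_).trans (sub_le_iff_le_add'.1 this)
      rw [Sm_congr (loc a ha), Sm_const]
      have := pre_lt ha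
      have := (abs_le.1 (hR2 (l - a.sum) (by omega))).1
      exact mul_le_mul_of_nonneg_right (by linarith) (Z0 _ _)
    rw [Sm_tower (r := c + L) (by omega)]
    refine (Ex_mono (G := fun a => (m0 + δ) * Z c a) fun a ha => ?_).trans ?_
    · have := pre_lt ha
      rw [Sm_congr (G := fun v => Z c a * Z (c' - a.sum) v) fun v hv => by
        rw [loc a ha v hv]
        congr 1
        refine sum_congr rfl fun σ _ => ?_
        rw [← occ_shift K.h0 (pre_word ha) (t := v),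
          show c' - a.sum + o σ + a.sum = c' + o σ by omega], Sm_mul, mul_comm]
      have := (abs_le.1 (hR1 (c' - a.sum) (l - a.sum) (by omega) (by omega))).2
      exact mul_le_mul_of_nonneg_right (by linarith) (Z0 _ _)
    · rw [Ex_mul]
      refine mul_le_mul_of_nonneg_left ?_ (by positivity)
      rwa [le_div_iff₀' (by linarith)]
  obtain ⟨J, hJ⟩ := exists_nat_gt (2 * B ^ 2 / ε ^ 2)
  refine ⟨L + K.M + R1 + R2, J + 1, by omega, fun G hG l c0 I hI hc0 hl H hH => ?_⟩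
  have hn : (0 : ℝ) < I.card := by exact_mod_cast (by omega : 0 < I.card)
  obtain ⟨k0, hk0⟩ : I.Nonempty := card_pos.1 (by omega)
  set n : ℝ := (I.card : ℝ) with hnd
  set Y : List ℕ → ℝ := fun t => ∑ k ∈ I, Z (c0 + k * G) t - n * μ with hY
  set D := (m0 + δ) * ((m0 + δ) / (K.C - δ)) with hD
  have hD0 : 0 ≤ D := by have := sub_pos.2 hδ2; positivity
  have h1 : K.Sm l (fun t => Y t ^ 2) ≤ (ε * n) ^ 2 := by
    have e : K.Sm l (fun t => Y t ^ 2) =
        ∑ k ∈ I, ∑ k' ∈ I, K.Sm l (fun t => Z (c0 + k * G) t * Z (c0 + k' * G) t) +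
          (-(2 * n * μ) * ∑ k ∈ I, K.Sm l (Z (c0 + k * G)) + K.u l * (n * μ) ^ 2) := by
      simp only [← Sm_sum, ← Sm_mul, ← Sm_const, ← Sm_add]
      refine Sm_congr fun t _ => ?_
      rw [← sum_mul_sum, hY]
      ring
    have e1 : ∑ k ∈ I, ∑ k' ∈ I, K.Sm l (fun t => Z (c0 + k * G) t * Z (c0 + k' * G) t) ≤
        ∑ k ∈ I, ∑ k' ∈ I, (D + if k = k' then B ^ 2 else 0) := by
      refine sum_le_sum fun k hk => sum_le_sum fun k' hk' => ?_
      have := hl k hk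
      have := hl k' hk'
      rcases lt_trichotomy k k' with h | h | h
      · have : (k + 1) * G ≤ k' * G := Nat.mul_le_mul_right _ h
        rw [add_mul] at this
        rw [if_neg h.ne, add_zero]
        exact cross _ _ _ (by omega) (by omega) (by omega)
      · rw [if_pos h]
        refine (Sm_mono (G := fun _ => B ^ 2) fun t _ => ?_).trans ?_
        · rw [sq]; exact mul_le_mul (Z1 _ _) (Z1 _ _) (Z0 _ _) ((Z0 0 t).trans (Z1 _ _))
        · rw [Sm_const]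
          have := mul_le_of_le_one_left (sq_nonneg B) (u_le_one (K := K) l)
          linarith
      · have : (k' + 1) * G ≤ k * G := Nat.mul_le_mul_right _ h
        rw [add_mul] at this
        rw [if_neg h.ne', add_zero]
        simp only [mul_comm (Z (c0 + k * G) _)]
        exact cross _ _ _ (by omega) (by omega) (by omega)
    have e2 : ∑ k ∈ I, ∑ k' ∈ I, (D + if k = k' then B ^ 2 else 0) = n * (n * D + B ^ 2) := by
      rw [sum_congr rfl (g := fun _ => n * D + B ^ 2) fun k hk => by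
        simp [sum_add_distrib, hk, hnd]]
      simp [hnd]; ring
    have e3 : n * (m0 - δ) ≤ ∑ k ∈ I, K.Sm l (Z (c0 + k * G)) := by
      rw [hnd, ← nsmul_eq_mul, ← sum_const]
      refine sum_le_sum fun k hk => ?_
      have := hl k hk
      have := (abs_le.1 (hR1 (c0 + k * G) l (by omega) (by omega))).1
      linarith
    have e4 : K.u l ≤ K.C + δ := by
      have := hl k0 hk0
      have := (abs_le.1 (hR2 l (by omega))).2
      linarith
    have e5 : 2 * B ^ 2 ≤ n * ε ^ 2 := by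
      rw [div_lt_iff₀ (by positivity)] at hJ
      have : (J : ℝ) ≤ n := by rw [hnd]; exact_mod_cast (by omega : J ≤ I.card)
      nlinarith [sq_nonneg ε]
    have e6 := mul_le_mul_of_nonneg_left e3 (show 0 ≤ 2 * n * μ by positivity)
    have e7 := mul_le_mul_of_nonneg_right e4 (sq_nonneg (n * μ))
    have e8 := mul_le_mul_of_nonneg_left hδ1.le (sq_nonneg n)
    have e9 := mul_le_mul_of_nonneg_left e5 hn.le
    rw [e]
    nlinarith
  have h2 : ∑ k ∈ I, K.Sm l (fun t => Z (c0 + k * G) t * H t) - n * μ * K.Sm l H =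
      K.Sm l fun t => Y t * H t := by
    rw [sub_eq_add_neg, ← neg_mul, ← Sm_sum, ← Sm_mul, ← Sm_add]
    refine Sm_congr fun t _ => ?_
    rw [← sum_mul, hY]
    ring
  have hl0 : 0 < ε * n := by positivity
  have h3 : ∀ s : ℝ, s = 1 ∨ s = -1 → s * K.Sm l (fun t => Y t * H t) ≤ ε * n := by
    intro s hs
    rw [← Sm_mul]
    refine (Sm_mono (G := fun t => 1 / (2 * (ε * n)) * Y t ^ 2 + ε * n / 2) fun t _ => ?_).trans ?_
    · have h4 : s * (Y t * H t) ≤ |Y t| := by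
        refine (le_abs_self _).trans ?_
        rw [abs_mul, abs_mul, abs_of_nonneg (hH t).1, show |s| = 1 by
          rcases hs with rfl | rfl <;> simp, one_mul]
        exact mul_le_of_le_one_right (abs_nonneg _) (hH t).2
      refine h4.trans ?_
      rw [← sq_abs, ← sub_nonneg, show 1 / (2 * (ε * n)) * |Y t| ^ 2 + ε * n / 2 - |Y t| =
        (|Y t| - ε * n) ^ 2 / (2 * (ε * n)) by field_simp; ring]
      positivity
    · rw [Sm_add, Sm_mul, Sm_const]
      have h5 := mul_le_mul_of_nonneg_left h1 (show 0 ≤ 1 / (2 * (ε * n)) by positivity)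
      rw [show 1 / (2 * (ε * n)) * (ε * n) ^ 2 = ε * n / 2 by field_simp] at h5
      have := mul_le_of_le_one_left (show 0 ≤ ε * n / 2 by positivity) (u_le_one (K := K) l)
      linarith
  rw [h2, abs_le]
  have := h3 1 (Or.inl rfl)
  have := h3 (-1) (Or.inr rfl)
  constructor <;> linarith

end Ctx

end Pool.Agent.MP_2dc627_co.H36
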