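import Mathlib
import Pool.Agent.MP_2dc627_co.H36.Closure
import Pool.Agent.MP_2dc627_co.H36.Window

/-!
The product bound for cross intersecting families of tilings.
-/

namespace Pool.Agent.MP_2dc627_co.H36

open Finset

attribute [-simp] Nat.cast_list_sum

namespace Ctx

variable {K : Ctx}

lemma exists_nu (b : ℕ) : ∃ ν, Word K.Λ ν ∧ (∀ x ∈ ν, x ≠ K.S) ∧ ν.sum ≤ K.Fr + K.S ∧
    K.S ∣ b + ν.sum := by
  have hS := K.hS2
  have hlt := Nat.mod_lt (b + K.Fr) (show 0 < K.S by omega)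
  obtain ⟨t, ht, e⟩ := K.hFr (K.Fr + (K.S - (b + K.Fr) % K.S)) (by omega)
  have h1 : K.S ∣ b + t.sum := by
    have := Nat.div_add_mod (b + K.Fr) K.S
    exact ⟨(b + K.Fr) / K.S + 1, by rw [mul_add]; omega⟩
  have : ∀ t, Word K.Λ t → ∃ ν, Word K.Λ ν ∧ (∀ x ∈ ν, x ≠ K.S) ∧ ∃ j, ν.sum + K.S * j = t.sum := by
    intro t ht
    induction t with
    | nil => exact ⟨[], ht, by simp, 0, by simp⟩
    | cons x t ih =>
      obtain ⟨ν, h1, h2, j, h3⟩ := ih (word_cons.1 ht).2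
      by_cases hx : x = K.S
      · exact ⟨ν, h1, h2, j + 1, by simp [mul_add]; omega⟩
      · exact ⟨x :: ν, word_cons.2 ⟨(word_cons.1 ht).1, h1⟩, by simpa [hx] using h2, j,
          by simp; omega⟩
  obtain ⟨ν, h2, h3, j, h4⟩ := this t ht
  refine ⟨ν, h2, h3, by omega, ?_⟩
  rw [← h4, ← add_assoc] at h1
  exact (Nat.dvd_add_left (dvd_mul_right _ _)).1 h1

lemma exists_trunc {Λ : Finset ℕ} (p : ℤ → Prop) (ν : List ℕ) (hν : Word Λ ν) (b : ℤ)
    (h : p (b + (ν.sum : ℕ))) : ∃ ν', Word Λ ν' ∧ ν'.sum ≤ ν.sum ∧ p (b + (ν'.sum : ℕ)) ∧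
      ∀ c x, Has b ν' c x → x ∈ ν ∧ ¬ p c := by
  induction ν generalizing b with
  | nil => exact ⟨[], hν, le_rfl, h, by simp⟩
  | cons y ν ih =>
    by_cases hb : p b
    · exact ⟨[], word_nil, by simp, by simpa, by simp⟩
    · obtain ⟨ν', h1, h2, h3, h4⟩ := ih (word_cons.1 hν).2 (b + y) (by simpa [add_assoc] using h)
      refine ⟨y :: ν', word_cons.2 ⟨(word_cons.1 hν).1, h1⟩, by simpa, by simpa [add_assoc] using h3,
        ?_⟩
      rintro c x (⟨rfl, rfl⟩ | h5)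
      · exact ⟨by simp, hb⟩
      · exact ⟨List.mem_cons_of_mem _ (h4 c x h5).1, (h4 c x h5).2⟩

lemma exists_struct : ∃ (w : ℕ) (lT lU : ℕ → List ℕ), K.M ≤ w ∧
    (∀ i < K.M, Word K.Λ (lT i) ∧ i + (lT i).sum = w) ∧
    (∀ i < K.M, Word K.Λ (lU i) ∧ i + (lU i).sum = w + 1) ∧
    ∀ i < K.M, ∀ i' < K.M, Dj i (lT i) i' (lU i') := by
  have hS := K.hS2
  set h := K.M + K.Fr + K.S with hh
  set w := K.S * (2 * K.M + h * K.S + K.Fr + K.S) with hw
  have hw1 : 2 * K.M + h * K.S + K.Fr + K.S ≤ w := Nat.le_mul_of_pos_left _ (by omega)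
  have hhS : h ≤ h * K.S := Nat.le_mul_of_pos_right _ (by omega)
  set UT : ℤ → ℕ → Prop := fun b x =>
    ((K.S : ℤ) ∣ b - 1 ∧ x = K.S) ∨ (¬ (K.S : ℤ) ∣ b - 1 ∧ x ≠ K.S ∧ b < h) with hUT
  have hU : ∀ i < K.M, ∃ l, (Word K.Λ l ∧ i + l.sum = w + 1) ∧ ∀ b x, Has i l b x → UT b x := by
    intro i hi
    obtain ⟨ν, h1, h2, h3, j, h4⟩ := exists_nu (K := K) (i + (K.S - 1))
    obtain ⟨ν', h5, h6, ⟨j', h7⟩, h8⟩ := exists_trunc (fun b => (K.S : ℤ) ∣ b - 1) ν h1 i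
      ⟨j - 1, by rw [mul_sub]; omega⟩
    obtain ⟨m, hm⟩ : ∃ m : ℕ, i + ν'.sum + m * K.S = w + 1 := by
      have : (K.S : ℤ) ∣ (w + 1 - (i + ν'.sum) : ℕ) := by
        refine ⟨(2 * K.M + h * K.S + K.Fr + K.S : ℕ) - j', ?_⟩
        rw [mul_sub, ← Nat.cast_mul]; omega
      obtain ⟨m, hm⟩ := Int.natCast_dvd_natCast.1 this
      exact ⟨m, by rw [mul_comm]; omega⟩
    refine ⟨ν' ++ List.replicate m K.S, ⟨word_append.2 ⟨h5, word_replicate K.hS⟩,
      by simp; omega⟩, fun b x hb => ?_⟩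
    rcases has_append.1 hb with hb | hb
    · have := hb.bounds
      have := pos_of_mem K.h0 (h5 x this.2.2)
      exact Or.inr ⟨(h8 b x hb).2, h2 x (h8 b x hb).1, by omega⟩
    · obtain ⟨rfl, m', -, rfl⟩ := has_replicate.1 hb
      exact Or.inl ⟨⟨j' + m', by rw [mul_add, mul_comm _ (m' : ℤ)]; omega⟩, rfl⟩
  have hT : ∀ i < K.M, ∃ l, (Word K.Λ l ∧ i + l.sum = w) ∧ ∀ b x, Has i l b x → ¬ UT b x := by
    intro i hi
    obtain ⟨a, ha, ha1, ha2, ha3⟩ : ∃ a, Word K.Λ a ∧ a.sum ≤ K.M ∧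
        ¬ (K.S : ℤ) ∣ i + (a.sum : ℕ) - 1 ∧ ∀ b x, Has i a b x → ¬ UT b x := by
      by_cases h1 : (K.S : ℤ) ∣ i - 1
      · obtain ⟨L, hL, hL'⟩ := K.exists_ndvd
        refine ⟨[L], by simpa, by simpa using K.hleM L hL, fun h2 => hL' ?_, fun b x hb => ?_⟩
        · have := dvd_sub h2 h1
          rw [← Int.natCast_dvd_natCast]
          simpa using this
        · obtain ⟨rfl, rfl⟩ := has_single.1 hb
          rintro (h2 | h2)
          exacts [hL' (h2.2 ▸ dvd_rfl), h2.1 h1]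
      · exact ⟨[], word_nil, by simp, by simpa, by simp⟩
    obtain ⟨ν, h1, h2, h3, j, h4⟩ := exists_nu (K := K) (i + a.sum + h * K.S)
    obtain ⟨m, hm⟩ : ∃ m : ℕ, K.S * j + m * K.S = w := by
      obtain ⟨m, hm⟩ : K.S ∣ w - K.S * j := Nat.dvd_sub (dvd_mul_right _ _) (dvd_mul_right _ _)
      exact ⟨m, by rw [mul_comm m]; omega⟩
    refine ⟨a ++ (List.replicate h K.S ++ (ν ++ List.replicate m K.S)),
      ⟨by simp [ha, h1, word_replicate K.hS], by simp; omega⟩, fun b x hb => ?_⟩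
    simp only [has_append, List.sum_replicate, smul_eq_mul] at hb
    rcases hb with hb | hb | hb | hb
    · exact ha3 b x hb
    · obtain ⟨rfl, m', -, rfl⟩ := has_replicate.1 hb
      rintro (⟨⟨c, hc⟩, -⟩ | h5)
      · exact ha2 ⟨c - m', by rw [mul_sub, mul_comm _ (m' : ℤ)]; omega⟩
      · exact h5.2.1 rfl
    · have := hb.bounds
      rintro (h5 | h5)
      · exact h2 x this.2.2 h5.2
      · omega
    · obtain ⟨rfl, m', -, rfl⟩ := has_replicate.1 hb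
      rintro (⟨⟨c, hc⟩, -⟩ | h5)
      · have : (K.S : ℤ) ∣ (1 : ℕ) :=
          ⟨j + m' - c, by rw [mul_sub, mul_add, mul_comm _ (m' : ℤ)]; omega⟩
        have := Nat.le_of_dvd one_pos (Int.natCast_dvd_natCast.1 this)
        omega
      · exact h5.2.1 rfl
  choose! lU hU1 hU2 using hU
  choose! lT hT1 hT2 using hT
  exact ⟨w, lT, lU, by omega, hT1, hU1, fun i hi i' hi' b x h1 h2 =>
    hT2 i hi b x h1 (hU2 i' hi' b x h2)⟩

variable (K) in
/-- Average over free left and right parts with a prescribed middle part. -/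
noncomputable def Lam (ζ : ℕ → ℕ → List ℕ) (r r' : ℕ) (H : List ℕ → ℝ) : ℝ :=
  K.Ex r fun a => K.Ex r' fun b => H (a ++ ζ (a.sum - r) (b.sum - r') ++ b.reverse)

lemma Lam_eq {ζ : ℕ → ℕ → List ℕ} {L : ℕ}
    (hζ : ∀ i < K.M, ∀ j < K.M, Word K.Λ (ζ i j) ∧ i + j + (ζ i j).sum = L) {c l : ℕ}
    (hl : c + 2 * K.M + L ≤ l) (H : List ℕ → ℝ) :
    K.Sm l (fun t => Zp (K.Q ×ˢ K.Q) (fun σ => K.M + σ.1.2 - σ.1.1)
      (fun σ => σ.1.1 :: ζ σ.1.2 σ.2.2 ++ [σ.2.1]) (fun σ => (K.τ ^ (ζ σ.1.2 σ.2.2).sum)⁻¹) c t *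
        H t) = K.Lam ζ (c + K.M) (l - (c + K.M) - L) H := by
  have hQ : ∀ q ∈ K.Q, q.1 ∈ K.Λ ∧ q.2 < q.1 ∧ q.1 ≤ K.M := fun q hq =>
    ⟨(mem_Q.1 hq).1, (mem_Q.1 hq).2, K.hleM _ (mem_Q.1 hq).1⟩
  rw [Sm_Zp, Lam, Ex_Q (by omega), sum_product]
  · refine sum_congr rfl fun q hq => ?_
    have h1 := hQ q hq
    simp only [Ex_Q (show K.M ≤ l - (c + K.M) - L by omega), mul_sum]
    rw [sum_comm' (t' := K.Q) (s' := fun _ => W K.Λ (c + K.M + q.2 - q.1)) (by simp)]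
    refine sum_congr rfl fun q' hq' => ?_
    have h2 := hQ q' hq'
    have h3 := hζ q.2 (by omega) q'.2 (by omega)
    rw [show c + K.M + q.2 - q.1 = c + (K.M + q.2 - q.1) by omega]
    refine sum_congr rfl fun a ha => ?_
    rw [← sum_W_reverse K.h0, show l - (c + (K.M + q.2 - q.1)) - (q.1 :: ζ q.2 q'.2 ++ [q'.1]).sum =
      l - (c + K.M) - L + q'.2 - q'.1 by simp; omega]
    refine sum_congr rfl fun b hb => ?_
    have := ((mem_W K.h0).1 ha).2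
    have := ((mem_W K.h0).1 hb).2
    rw [show (a ++ [q.1]).sum - (c + K.M) = q.2 by simp; omega,
      show (b ++ [q'.1]).sum - (l - (c + K.M) - L) = q'.2 by simp; omega, ← mul_assoc, ← pow_add]
    congr 1
    · rw [inv_mul_eq_iff_eq_mul₀ (K.pw _).ne', ← pow_add]
      congr 1
      omega
    · simp
  · rintro ⟨q, q'⟩ h
    rw [mem_product] at h
    have h1 := hQ q h.1
    have h2 := hQ q' h.2
    simp [h1.1, h2.1, (hζ q.2 (by omega) q'.2 (by omega)).1]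
  · rintro ⟨q, q'⟩ h
    rw [mem_product] at h
    have h1 := hQ q h.1
    have h2 := hQ q' h.2
    have := (hζ q.2 (by omega) q'.2 (by omega)).2
    simp; omega

lemma good {ζ : ℕ → ℕ → List ℕ} {L : ℕ}
    (hζ : ∀ i < K.M, ∀ j < K.M, Word K.Λ (ζ i j) ∧ i + j + (ζ i j).sum = L) {ε : ℝ} (hε : 0 < ε) :
    ∃ G0 J : ℕ, ∀ G, G0 ≤ G → ∀ (l c0 N : ℕ), G ≤ c0 → c0 + N * G ≤ l → ∀ H : List ℕ → ℝ,
      (∀ t, 0 ≤ H t ∧ H t ≤ 1) → #{k ∈ range N |
        K.Lam ζ (c0 + k * G + K.M) (l - (c0 + k * G + K.M) - L) H < K.Sm l H / K.C - ε} < J := by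
  obtain ⟨G0, J, hJ, h⟩ := window (K := K) (P := K.Q ×ˢ K.Q) (o := fun σ => K.M + σ.1.2 - σ.1.1)
    (π := fun σ => σ.1.1 :: ζ σ.1.2 σ.2.2 ++ [σ.2.1])
    (ω := fun σ => (K.τ ^ (ζ σ.1.2 σ.2.2).sum)⁻¹) (fun σ _ => inv_nonneg.2 (K.pw _).le) zero_le_one
    (fun δ hδ => ⟨2 * K.M + L, fun c l _ h => by
      have := Lam_eq hζ (c := c) (l := l) (by omega) fun _ => 1
      simp only [mul_one, Lam, Ex_const] at this
      rw [this, sub_self, abs_zero]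
      exact hδ.le⟩) hε
  refine ⟨G0 + 2 * K.M + L, J, fun G hG l c0 N h1 h2 H hH => ?_⟩
  by_contra h3
  set I := {k ∈ range N |
    K.Lam ζ (c0 + k * G + K.M) (l - (c0 + k * G + K.M) - L) H < K.Sm l H / K.C - ε}
  have h4 : ∀ k ∈ I, c0 + k * G + G ≤ l := fun k hk => by
    have : (k + 1) * G ≤ N * G := Nat.mul_le_mul_right _ (mem_range.1 (mem_filter.1 hk).1)
    rw [add_mul] at this
    omega
  have h5 := (abs_le.1 (h G (by omega) l c0 I (by omega) h1 h4 H hH)).1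
  rw [sum_congr rfl fun k hk => Lam_eq hζ (by have := h4 k hk; omega) H] at h5
  have h6 := sum_lt_sum_of_nonempty (card_pos.1 (by omega : 0 < #I))
    fun k hk => (mem_filter.1 hk).2
  rw [sum_const, nsmul_eq_mul] at h6
  have : (#I : ℝ) * (K.Sm l H / K.C - ε) = #I * (1 / K.C) * K.Sm l H - ε * #I := by ring
  linarith

lemma zones {s e c c' L v x : ℕ} {a b t u : List ℕ} {p : ℤ} (ha : a ∈ Pre K.Λ (c - s))
    (hb : b ∈ Pre K.Λ (c' - e)) (hs : s ≤ c) (he : e ≤ c') (h1 : s + a.sum + t.sum = c + v)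
    (h2 : e + b.sum + u.sum + v = c' + L) (h : Has s (a ++ (t ++ u.reverse) ++ b.reverse) p x) :
    (Has s a p x ∧ p < c) ∨ (Has (s + a.sum) t p x ∧ c ≤ p ∧ p + x ≤ c + v) ∨
      (Has (e + b.sum) u (c + L + c' - p - x) x ∧ c + v ≤ p ∧ p + x ≤ c + L) ∨
      (Has e b (c + L + c' - p - x) x ∧ c + L < p + x) := by
  have := pre_ge ha
  have := pre_ge hb
  simp only [has_append, List.sum_append, List.sum_reverse] at h
  rcases h with (h | h | h) | h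
  · have := pre_has ha h
    exact Or.inl ⟨h, by omega⟩
  · have := h.bounds
    exact Or.inr (Or.inl ⟨h, by omega⟩)
  · have := h.bounds
    rw [List.sum_reverse] at this
    exact Or.inr (Or.inr (Or.inl ⟨(has_reverse (by omega)).1 h, by omega⟩))
  · have h' : Has e b (c + L + c' - p - x) x := (has_reverse (by omega)).1 h
    have := pre_has hb h'
    exact Or.inr (Or.inr (Or.inr ⟨h', by omega⟩))

lemma glue {w s s' e e' c c' : ℕ} {lT lU : ℕ → List ℕ} (hw : K.M ≤ w)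
    (hT : ∀ i < K.M, Word K.Λ (lT i) ∧ i + (lT i).sum = w)
    (hU : ∀ i < K.M, Word K.Λ (lU i) ∧ i + (lU i).sum = w + 1)
    (hTU : ∀ i < K.M, ∀ i' < K.M, Dj i (lT i) i' (lU i')) {a a' b b' : List ℕ}
    (ha : a ∈ Pre K.Λ (c - s)) (ha' : a' ∈ Pre K.Λ (c - s')) (hb : b ∈ Pre K.Λ (c' - e))
    (hb' : b' ∈ Pre K.Λ (c' - e')) (hs : s ≤ c) (hs' : s' ≤ c) (he : e ≤ c') (he' : e' ≤ c')
    (hd : Dj s a s' a') (hd' : Dj e b e' b')
    (hW : Word K.Λ (a ++ (lT (a.sum - (c - s)) ++ (lU (b.sum - (c' - e))).reverse) ++ b.reverse)) :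
    Dj s (a ++ (lT (a.sum - (c - s)) ++ (lU (b.sum - (c' - e))).reverse) ++ b.reverse)
      s' (a' ++ (lU (a'.sum - (c - s')) ++ (lT (b'.sum - (c' - e'))).reverse) ++ b'.reverse) := by
  have key : ∀ {s c : ℕ} {a : List ℕ}, a ∈ Pre K.Λ (c - s) → s ≤ c →
      a.sum - (c - s) < K.M ∧ s + a.sum = c + (a.sum - (c - s)) := by
    intro s c a ha hs
    have := pre_ge ha
    have := pre_lt ha
    omega
  have k1 := key ha hs
  have k2 := key ha' hs'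
  have k3 := key hb he
  have k4 := key hb' he'
  generalize a.sum - (c - s) = i at *
  generalize a'.sum - (c - s') = i' at *
  generalize b.sum - (c' - e) = j at *
  generalize b'.sum - (c' - e') = j' at *
  intro p x h7 h8
  have hx := hW x h7.bounds.2.2
  have := K.hleM x hx
  have := K.hSle x hx
  have := K.hS2
  have t1 := (hT i k1.1).2
  have t2 := (hU j k3.1).2
  have t3 := (hU i' k2.1).2
  have t4 := (hT j' k4.1).2
  have z1 := zones (L := 2 * w + 1) (v := w) ha hb hs he (by omega) (by omega) h7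
  have z2 := zones (L := 2 * w + 1) (v := w + 1) ha' hb' hs' he' (by omega) (by omega) h8
  have d1 := (hTU i k1.1 i' k2.1).shift (r := s + a.sum) (r' := s' + a'.sum) (by omega) p x
  have d2 := (hTU j' k4.1 j k3.1).shift (r := e' + b'.sum) (r' := e + b.sum) (by omega)
    (c + (2 * w + 1 : ℕ) + c' - p - x) x
  have hx' : 2 ≤ x ∧ x ≤ w := by omega
  clear * - z1 z2 d1 d2 hx' hd hd'
  rcases z1 with z1 | z1 | z1 | z1 <;> rcases z2 with z2 | z2 | z2 | z2 <;>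
    first
    | omega
    | exact hd _ _ z1.1 z2.1
    | exact hd' _ _ z1.1 z2.1
    | exact d1 z1.1 z2.1
    | exact d2 z2.1 z1.1

open Classical in
theorem cross (hp : K.τ ^ K.S ≤ 1 / 2) {π k : ℝ} (hπ0 : 0 ≤ π) (hπ : ∀ m, 0 < m → K.u m ≤ π)
    (hk0 : 0 ≤ k) (hk : π * (K.τ ^ K.S) ^ 2 ≤ k * (1 - 2 * K.τ ^ K.S)) {ε : ℝ} (hε : 0 < ε) :
    ∃ N : ℕ, ∀ n, N ≤ n → ∀ s ≤ K.M, ∀ s' ≤ K.M, ∀ e ≤ K.M, ∀ e' ≤ K.M, s ≠ s' → e ≠ e' →
      ∀ A B : Finset (List ℕ), A ⊆ W K.Λ (n - s - e) → B ⊆ W K.Λ (n - s' - e') →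
        (∀ t ∈ A, ∀ u ∈ B, ¬ Dj s t s' u) → ∃ y z : ℝ, 0 ≤ y ∧ 0 ≤ z ∧
          A.card * K.τ ^ (n - s - e) / K.C - ε ≤ y ∧ B.card * K.τ ^ (n - s' - e') / K.C - ε ≤ z ∧
          (y + k) * (z + k) ≤ k * (1 + k) := by
  obtain ⟨w, lT, lU, hw, hT, hU, hTU⟩ := exists_struct (K := K)
  set ζ : ℕ → ℕ → List ℕ := fun i j => lT i ++ (lU j).reverse with hζd
  set ζ' : ℕ → ℕ → List ℕ := fun i j => lU i ++ (lT j).reverse with hζd'
  have hζ : ∀ i < K.M, ∀ j < K.M, Word K.Λ (ζ i j) ∧ i + j + (ζ i j).sum = 2 * w + 1 :=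
    fun i hi j hj => ⟨by simp [hζd, (hT i hi).1, (hU j hj).1], by
      have := (hT i hi).2; have := (hU j hj).2; simp [hζd]; omega⟩
  have hζ' : ∀ i < K.M, ∀ j < K.M, Word K.Λ (ζ' i j) ∧ i + j + (ζ' i j).sum = 2 * w + 1 :=
    fun i hi j hj => ⟨by simp [hζd', (hU i hi).1, (hT j hj).1], by
      have := (hU i hi).2; have := (hT j hj).2; simp [hζd']; omega⟩
  obtain ⟨G1, J1, h1⟩ := good hζ hε
  obtain ⟨G2, J2, h2⟩ := good hζ' hε
  set G := G1 + G2 + 2 * w + 1 + 3 * K.M with hG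
  refine ⟨(J1 + J2) * G + G + 3 * K.M, fun n hn s hs s' hs' e he e' he' hss hee A B hA hB hAB => ?_⟩
  have ind : ∀ (p : Prop) [Decidable p], (0 : ℝ) ≤ (if p then 1 else 0) ∧
      (if p then 1 else 0 : ℝ) ≤ 1 := fun p _ => by split_ifs <;> norm_num
  have h3 := h1 G (by omega) (n - s - e) (G + K.M - s) (J1 + J2) (by omega) (by omega)
    (fun t => if t ∈ A then 1 else 0) fun _ => ind _
  have h4 := h2 G (by omega) (n - s' - e') (G + K.M - s') (J1 + J2) (by omega) (by omega)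
    (fun t => if t ∈ B then 1 else 0) fun _ => ind _
  obtain ⟨j, hj, hj'⟩ := exists_mem_notMem_of_card_lt_card
    ((card_union_le _ _).trans_lt ((add_lt_add h3 h4).trans_eq (card_range (J1 + J2)).symm))
  simp only [mem_union, mem_filter, hj, true_and, not_or, not_lt, Sm_ind hA, Sm_ind hB] at hj'
  have : (j + 1) * G ≤ (J1 + J2) * G := Nat.mul_le_mul_right _ (mem_range.1 hj)
  rw [add_mul] at this
  set c := G + 2 * K.M + j * G with hc
  set c' := n - c - (2 * w + 1) with hc'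
  have hsc : s ≤ c ∧ s' ≤ c ∧ e ≤ c' ∧ e' ≤ c' := by omega
  rw [show G + K.M - s + j * G + K.M = c - s by omega,
    show G + K.M - s' + j * G + K.M = c - s' by omega,
    show n - s - e - (c - s) - (2 * w + 1) = c' - e by omega,
    show n - s' - e' - (c - s') - (2 * w + 1) = c' - e' by omega] at hj'
  refine ⟨_, _, le_Ex fun _ _ => le_Ex fun _ _ => (ind _).1,
    le_Ex fun _ _ => le_Ex fun _ _ => (ind _).1, hj'.1, hj'.2, ?_⟩
  refine closure hp hπ0 hπ hk0 hk hss c _ _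
    (fun _ => ⟨le_Ex fun _ _ => (ind _).1, Ex_le fun _ _ => (ind _).2⟩)
    (fun _ => ⟨le_Ex fun _ _ => (ind _).1, Ex_le fun _ _ => (ind _).2⟩) fun a ha a' ha' hd =>
      closure hp hπ0 hπ hk0 hk hee c' _ _ (fun _ => ind _) (fun _ => ind _) fun b hb b' hb' hd' => ?_
  split_ifs with h5 h6
  · exact absurd (glue hw hT hU hTU ha ha' hb hb' hsc.1 hsc.2.1 hsc.2.2.1 hsc.2.2.2 hd hd'
      ((mem_W K.h0).1 (hA h5)).1) (hAB _ h5 _ h6)
  all_goals nlinarith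

end Ctx

end Pool.Agent.MP_2dc627_co.H36
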