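import Mathlib

/-!
Tilings of an interval by tiles with lengths in a given set.
-/

namespace Pool.Agent.MP_2dc627_co.H36

/-- The tilings of `[n]` with tile lengths in `Λ`, as words of sum `n` with letters in `Λ`. -/
def tilings (Λ : Finset ℕ) (n : ℕ) : Set (List ℕ) := {t | (∀ x ∈ t, x ∈ Λ) ∧ t.sum = n}

/-- The tiles of a tiling: the letter `x` that follows the initial part `a` occupies the integer
interval from `a.sum + 1` to `a.sum + x`. -/
def tiles (t : List ℕ) : Set (Finset ℕ) :=
  {I | ∃ a x b, t = a ++ x :: b ∧ I = Finset.Icc (a.sum + 1) (a.sum + x)}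

/-- Two tilings intersect if they have a common tile. -/
def Intersect (t u : List ℕ) : Prop := (tiles t ∩ tiles u).Nonempty

end Pool.Agent.MP_2dc627_co.H36
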