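import Mathlib
import Pool.Agent.MP_2dc627_co.H36.Renew

/-!
Expansion for two words placed at distance one.
-/

namespace Pool.Agent.MP_2dc627_co.H36

open Finset Relation

attribute [-simp] Nat.cast_list_sum

/-- The profile function. -/
noncomputable def psi (θ y : ℝ) : ℝ := y - θ * (y * Real.log y)

lemma mul_log_sub {a b : ℝ} (ha : 0 ≤ a) (hb : 0 < b) :
    a * Real.log a - a * Real.log b ≤ a / b * (a - b) := by
  rcases ha.eq_or_lt with rfl | ha
  · simp
  · rw [← mul_sub, ← Real.log_div ha.ne' hb.ne']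
    refine (mul_le_mul_of_nonneg_left (Real.log_le_sub_one_of_pos (by positivity)) ha.le).trans_eq ?_
    field_simp

lemma psi_sub {θ a b : ℝ} (hθ : 0 ≤ θ) (hb : 0 ≤ b) (hab : b ≤ a) (ha : a ≤ 1) :
    (1 - θ) * (a - b) ≤ psi θ a - psi θ b := by
  have h1 : Real.log a ≤ 0 := Real.log_nonpos (hb.trans hab) ha
  have : a * Real.log a - b * Real.log b ≤ a - b := by
    rcases hb.eq_or_lt with rfl | hb
    · nlinarith
    · have h2 := Real.log_le_sub_one_of_pos (show 0 < a / b from div_pos (hb.trans_le hab) hb)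
      rw [Real.log_div (hb.trans_le hab).ne' hb.ne'] at h2
      have h3 : b * (Real.log a - Real.log b) ≤ a - b :=
        (mul_le_mul_of_nonneg_left h2 hb.le).trans_eq (by field_simp)
      nlinarith
  unfold psi
  nlinarith

lemma psi_nonneg {θ a : ℝ} (hθ : 0 ≤ θ) (h0 : 0 ≤ a) (ha : a ≤ 1) : 0 ≤ psi θ a := by
  have h1 : Real.log a ≤ 0 := Real.log_nonpos h0 ha
  have := mul_nonneg hθ (mul_nonneg h0 (neg_nonneg.2 h1))
  unfold psi
  linarith

namespace Ctx

variable {K : Ctx}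

lemma psi_Ex {θ q : ℝ} (hθ : 0 ≤ θ) (hq : 0 < q) {r : ℕ} {Y : List ℕ → ℝ}
    (hY : ∀ w, 0 ≤ Y w ∧ Y w ≤ 1) (h : ∀ w ∈ Pre K.Λ r, q ≤ K.τ ^ w.sum) :
    psi θ (K.Ex r Y) - θ / q * K.Ex r (fun w => |Y w - K.Ex r Y|) ≤
      K.Ex r fun w => psi θ (Y w) := by
  have hy : 0 ≤ K.Ex r Y := le_Ex fun w _ => (hY w).1
  rcases hy.eq_or_lt with h0 | h0
  · have h1 : 0 ≤ K.Ex r fun w => psi θ (Y w) := le_Ex fun w _ => psi_nonneg hθ (hY w).1 (hY w).2
    have h2 : 0 ≤ K.Ex r (fun w => |Y w - K.Ex r Y|) := le_Ex fun w _ => abs_nonneg _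
    have h3 : psi θ (K.Ex r Y) = 0 := by rw [← h0]; simp [psi]
    have := mul_nonneg (div_nonneg hθ hq.le) h2
    linarith
  · set y := K.Ex r Y with hyd
    have : psi θ y - θ / q * K.Ex r (fun w => |Y w - y|) =
        K.Ex r fun w => (1 - θ * Real.log y) * Y w - θ / q * |Y w - y| := by
      rw [Ex_sub, Ex_mul, Ex_mul, psi]; ring
    rw [this]
    refine Ex_mono fun w hw => ?_
    have h1 := mul_log_sub (hY w).1 h0
    have h2 : Y w / y ≤ 1 / q := by
      rw [div_le_div_iff₀ h0 hq, one_mul, mul_comm]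
      exact (mul_le_mul_of_nonneg_right (h w hw) (hY w).1).trans
        (single_le_Ex (fun w _ => (hY w).1) hw)
    have h3 : Y w / y * (Y w - y) ≤ 1 / q * |Y w - y| :=
      (mul_le_mul_of_nonneg_left (le_abs_self _) (div_nonneg (hY w).1 hy)).trans
        (mul_le_mul_of_nonneg_right h2 (abs_nonneg _))
    have h4 := mul_le_mul_of_nonneg_left (h1.trans h3) hθ
    unfold psi
    have : θ / q * |Y w - y| = θ * (1 / q * |Y w - y|) := by ring
    nlinarith

lemma dj_one_append {a a' v v' : List ℕ} (hv : Word K.Λ v) (h : Dj 0 a 1 a') (e : a.sum = a'.sum)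
    (h' : Dj 0 v 1 v') : Dj 0 (a ++ v) 1 (a' ++ v') := by
  intro b x h1 h2
  rcases has_append.1 h1 with h1 | h1 <;> rcases has_append.1 h2 with h2 | h2
  · exact h b x h1 h2
  · have := h1.bounds
    have := h2.bounds
    omega
  · have := K.hSle x (hv x h1.bounds.2.2)
    have := K.hS2
    have := h1.bounds
    have := h2.bounds
    omega
  · exact h'.shift (by omega) b x h1 h2

lemma dj_one_self {a : List ℕ} (ha : Word K.Λ a) : Dj 0 a 1 a := by
  induction a with
  | nil => exact fun _ _ h _ => h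
  | cons x a ih =>
    rw [word_cons] at ha
    refine dj_one_append (a := [x]) (a' := [x]) ha.2 (fun b y h1 h2 => ?_) rfl (ih ha.2)
    rw [has_single] at h1 h2
    omega

lemma dj_one_swap {x y : ℕ} (hx : x ∈ K.Λ) : Dj 0 [x, y] 1 [y, x] := by
  intro b z h1 h2
  have := K.hSle x hx
  have := K.hS2
  simp only [has_cons, has_nil, or_false] at h1 h2
  omega

variable (K) in
/-- Compatible words of the same sum. -/
def E1 (w w' : List ℕ) : Prop :=
  Word K.Λ w ∧ Word K.Λ w' ∧ w.sum = w'.sum ∧ Dj 0 w 1 w'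

lemma conn_cons {x : ℕ} (hx : x ∈ K.Λ) {w w' : List ℕ} (h : ReflTransGen K.E1 w w') :
    ReflTransGen K.E1 (x :: w) (x :: w') :=
  h.lift (List.cons x) fun a b h => ⟨word_cons.2 ⟨hx, h.1⟩, word_cons.2 ⟨hx, h.2.1⟩,
    by simp [h.2.2.1], dj_one_append (a := [x]) (a' := [x]) h.1 (dj_one_self (by simpa)) rfl h.2.2.2⟩

lemma conn_perm {w w' : List ℕ} (h : w.Perm w') (hw : Word K.Λ w) : ReflTransGen K.E1 w w' := by
  induction h with
  | nil => rfl
  | cons x _ ih => exact conn_cons (word_cons.1 hw).1 (ih (word_cons.1 hw).2)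
  | swap x y l =>
    simp only [word_cons] at hw
    exact .single ⟨by simp [hw], by simp [hw], by simp [add_left_comm],
      dj_one_append (a := [y, x]) (a' := [x, y]) hw.2.2 (dj_one_swap hw.1) (by simp [add_comm])
        (dj_one_self hw.2.2)⟩
  | trans h _ ih ih' => exact (ih hw).trans (ih' fun x hx => hw x (h.mem_iff.2 hx))

lemma conn_word {w w' : List ℕ} (hw : Word K.Λ w) (hw' : Word K.Λ w') (e : w.sum = w'.sum) :
    ReflTransGen K.E1 w w' := by
  induction hn : w.length using Nat.strong_induction_on generalizing w w' with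
  | _ n ih =>
    by_cases h : ∃ x ∈ w, x ∈ w'
    · obtain ⟨x, h1, h2⟩ := h
      have p1 := List.perm_cons_erase h1
      have p2 := List.perm_cons_erase h2
      have w1 : Word K.Λ (w.erase x) := fun y hy => hw y (List.mem_of_mem_erase hy)
      have w2 : Word K.Λ (w'.erase x) := fun y hy => hw' y (List.mem_of_mem_erase hy)
      have := ih _ (by have := p1.length_eq; simp only [List.length_cons] at this; omega) w1 w2
        (by have := p1.sum_eq; have := p2.sum_eq; simp only [List.sum_cons] at *; omega) rfl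
      exact (conn_perm p1 hw).trans ((conn_cons (hw x h1) this).trans
        (conn_perm p2.symm (word_cons.2 ⟨hw x h1, w2⟩)))
    · exact .single ⟨hw, hw', e, fun b x h1 h2 => h ⟨x, h1.bounds.2.2, h2.bounds.2.2⟩⟩

variable (K) in
/-- Compatible stopped words of the same sum. -/
def E2 (r : ℕ) (w w' : List ℕ) : Prop :=
  w ∈ Pre K.Λ r ∧ w' ∈ Pre K.Λ r ∧ w.sum = w'.sum ∧ Dj 0 w 1 w'

lemma conn_lift {r x : ℕ} {a a' : List ℕ} (h : ReflTransGen K.E1 a a')
    (ha : a ++ [x] ∈ Pre K.Λ r) :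
    a' ++ [x] ∈ Pre K.Λ r ∧ ReflTransGen (K.E2 r) (a ++ [x]) (a' ++ [x]) := by
  induction h with
  | refl => exact ⟨ha, .refl⟩
  | tail _ h ih =>
    obtain ⟨h1, h2, h3, h4⟩ := (concat_mem_pre K.h0).1 ih.1
    have := (concat_mem_pre K.h0).2 ⟨h.2.1, h2, h.2.2.1 ▸ h3, h.2.2.1 ▸ h4⟩
    exact ⟨this, ih.2.tail ⟨ih.1, this, by simp [h.2.2.1],
      dj_one_append (by simpa) h.2.2.2 h.2.2.1 (dj_one_self (by simpa))⟩⟩

lemma conn_pre {r : ℕ} (hr : K.Fr + 2 * K.M ≤ r) {w w' : List ℕ} (hw : w ∈ Pre K.Λ r)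
    (hw' : w' ∈ Pre K.Λ r) (e : w.sum = w'.sum) : ReflTransGen (K.E2 r) w w' := by
  have := K.S_lt_M
  have g1 := pre_ge hw
  rcases List.eq_nil_or_concat' w with rfl | ⟨a, x, rfl⟩
  · simp at g1; omega
  rcases List.eq_nil_or_concat' w' with rfl | ⟨a', x', rfl⟩
  · simp at g1 e; omega
  obtain ⟨h1, h2, h3, h4⟩ := (concat_mem_pre K.h0).1 hw
  obtain ⟨h1', h2', h3', h4'⟩ := (concat_mem_pre K.h0).1 hw'
  have := K.hleM x h2
  have := K.hleM x' h2'
  simp only [List.sum_append, List.sum_cons, List.sum_nil] at e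
  obtain ⟨b, hb, eb⟩ := K.hFr (a.sum - x') (by omega)
  have c1 := conn_lift (conn_word (w' := b ++ [x']) h1 (by simp [hb, h2']) (by simp; omega)) hw
  have m2 : b ++ [x] ++ [x'] ∈ Pre K.Λ r :=
    (concat_mem_pre K.h0).2 ⟨by simp [hb, h2], h2', by simp; omega, by simp; omega⟩
  have c2 := conn_lift (conn_word (w := b ++ [x]) (by simp [hb, h2]) h1' (by simp; omega)) m2
  refine (c1.2.tail ⟨c1.1, m2, by simp [add_comm], ?_⟩).trans c2.2
  simp only [List.append_assoc]
  exact dj_one_append (K := K) (by simp [h2, h2']) (dj_one_self hb) rfl (dj_one_swap h2')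

lemma conn_unif (R : ℕ) : ∃ k : ℕ, ∀ r, K.Fr + 2 * K.M ≤ r → r ≤ R → ∀ w ∈ Pre K.Λ r,
    ∀ w' ∈ Pre K.Λ r, w.sum = w'.sum → ∀ (Y : List ℕ → ℝ) (σ : ℝ), 0 ≤ σ →
      (∀ v v', K.E2 r v v' → Y v - Y v' ≤ σ) → Y w - Y w' ≤ k * σ := by
  obtain ⟨k, hk⟩ := exists_unif
    ((Icc (K.Fr + 2 * K.M) R).sigma fun r => (Pre K.Λ r ×ˢ Pre K.Λ r).filter
      fun p : List ℕ × List ℕ => p.1.sum = p.2.sum)
    (fun p k => ∀ (Y : List ℕ → ℝ) (σ : ℝ), 0 ≤ σ →
      (∀ v v', K.E2 p.1 v v' → Y v - Y v' ≤ σ) → Y p.2.1 - Y p.2.2 ≤ k * σ)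
    (fun p k k' h h' Y σ h1 h2 => (h' Y σ h1 h2).trans (by gcongr)) (by
      rintro ⟨r, w, w'⟩ h
      simp only [mem_sigma, mem_Icc, mem_filter, mem_product] at h
      have := conn_pre h.1.1 h.2.1.1 h.2.1.2 h.2.2
      clear h
      induction this with
      | refl => exact ⟨0, by simp⟩
      | tail _ h ih =>
        obtain ⟨k, hk⟩ := ih
        refine ⟨k + 1, fun Y σ h1 h2 => ?_⟩
        have := hk Y σ h1 h2
        have := h2 _ _ h
        push_cast
        linarith)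
  exact ⟨k, fun r h1 h2 w hw w' hw' e => hk ⟨r, w, w'⟩ (by simp [h1, h2, hw, hw', e])⟩

variable (K) in
/-- Harmonic functions on words. -/
def Harm (y : List ℕ → ℝ) : Prop := ∀ a, Word K.Λ a → ∀ r, y a = K.Ex r fun v => y (a ++ v)

lemma Harm.nil {y : List ℕ → ℝ} (h : K.Harm y) (r : ℕ) : y [] = K.Ex r y := h [] word_nil r

lemma Harm.shift {y : List ℕ → ℝ} (h : K.Harm y) {a : List ℕ} (ha : Word K.Λ a) :
    K.Harm fun v => y (a ++ v) := fun b hb r => by
  simpa only [List.append_assoc] using h (a ++ b) (word_append.2 ⟨ha, hb⟩) r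

/-- The variation at the first cut is bounded by the oscillation at the second cut. -/
lemma var_le {R0 : ℕ} (hR0 : ∀ r r', R0 ≤ r → R0 ≤ r' → ∀ g : ℕ → ℝ,
    |K.Ex r (fun w => g (w.sum - r)) - K.Ex r' (fun w => g (w.sum - r'))| ≤
      1 / 6 * K.Ex r' (fun w => |g (w.sum - r')|)) {y : List ℕ → ℝ} (hy : K.Harm y) {r r' : ℕ}
    (h : r + K.M + R0 ≤ r') {O : ℝ}
    (hO : ∀ w ∈ Pre K.Λ r', ∀ w' ∈ Pre K.Λ r', w.sum = w'.sum → y w - y w' ≤ O) :
    K.Ex r (fun w => |y w - y []|) ≤ 2 * O + 1 / 6 * (K.Ex r' (fun w => |y w - y []|) + O) := by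
  have : ∀ i, ∃ c, ∀ w ∈ Pre K.Λ r', w.sum - r' = i → |y w - y [] - c| ≤ O := by
    intro i
    by_cases h : ∃ w ∈ Pre K.Λ r', w.sum - r' = i
    · obtain ⟨w, hw, e⟩ := h
      refine ⟨y w - y [], fun w' hw' e' => ?_⟩
      have := pre_ge hw
      have := pre_ge hw'
      have h1 := hO w hw w' hw' (by omega)
      have h2 := hO w' hw' w hw (by omega)
      rw [abs_le]; constructor <;> linarith
    · exact ⟨0, fun w hw e => absurd ⟨w, hw, e⟩ h⟩
  choose g hg using this
  have key : ∀ a r, a ∈ Pre K.Λ r → r ≤ r' →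
      |y a - y [] - K.Ex (r' - a.sum) fun v => g (a.sum + v.sum - r')| ≤ O := by
    intro a r ha hr
    rw [hy a (pre_word ha) (r' - a.sum), ← Ex_const (K := K) (r' - a.sum) (y []), ← Ex_sub,
      ← Ex_sub]
    refine (abs_Ex_le _ _).trans (Ex_le fun v hv => ?_)
    exact hg _ _ (append_mem_pre K.h0 hr ha hv) (by simp)
  have h0 := key [] 0 (by simp [pre_zero]) (Nat.zero_le _)
  simp only [sub_self, List.sum_nil, Nat.sub_zero, zero_add] at h0
  have h1 : K.Ex r' (fun w => |g (w.sum - r')|) ≤ K.Ex r' (fun w => |y w - y []|) + O := by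
    rw [← Ex_const (K := K) r' O, ← Ex_add]
    refine Ex_mono fun w hw => ?_
    have h2 := abs_le.1 (hg _ w hw rfl)
    have := le_abs_self (y w - y [])
    have := neg_abs_le (y w - y [])
    rw [abs_le]; constructor <;> linarith
  refine Ex_le fun a ha => ?_
  have := pre_lt ha
  have h2 := key a r ha (by omega)
  have h3 := hR0 (r' - a.sum) r' (by omega) (by omega) g
  rw [Ex_congr (G := fun v => g (v.sum - (r' - a.sum))) fun v _ => by
    rw [show a.sum + v.sum - r' = v.sum - (r' - a.sum) by omega]] at h2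
  rw [abs_le] at h0 h2 h3 ⊢
  constructor <;> linarith

theorem lock : ∃ θ : ℝ, 0 < θ ∧ θ ≤ 1 / 2 ∧ ∀ (m : ℕ) (y δ : List ℕ → ℝ), K.Harm y → K.Harm δ →
    (∀ w, 0 ≤ y w ∧ y w ≤ 1) →
    (∀ w v, Word K.Λ w → Word K.Λ v → m ≤ w.sum → y (w ++ v) = y w) →
    (∀ w w', Word K.Λ w → Word K.Λ w' → m ≤ w.sum → w.sum = w'.sum → Dj 0 w 1 w' →
      psi θ (y w) ≤ δ w') → psi θ (y []) ≤ δ [] := by
  obtain ⟨R0, hR0⟩ := mixing (K := K)
  set R := R0 + K.Fr + 2 * K.M with hR
  obtain ⟨k, hk⟩ := conn_unif (K := K) (2 * R)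
  have hq := K.pw (2 * R + K.M)
  have hq1 := K.pw_le_one (2 * R + K.M)
  set q := K.τ ^ (2 * R + K.M) with hqd
  have hSM := K.S_lt_M
  set γ := q / (48 * (k + 1)) with hγ
  have hγ0 : 0 < γ := by positivity
  have hγ1 : γ * (48 * (k + 1)) = q := by rw [hγ]; field_simp
  have hk0 : (0 : ℝ) ≤ k := Nat.cast_nonneg _
  have hθ0 : 0 < γ * q := by positivity
  have hθ1 : γ * q ≤ 1 / 2 := by nlinarith [mul_nonneg hγ0.le hk0]
  have hθq : γ * q / q = γ := by field_simp
  have hqq : ∀ r ≤ 2 * R, ∀ w ∈ Pre K.Λ r, q ≤ K.τ ^ w.sum := fun r hr w hw =>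
    K.pw_anti (by have := pre_lt hw; omega)
  refine ⟨γ * q, hθ0, hθ1, fun m => ?_⟩
  set θ := γ * q with hθ
  suffices H : ∀ (y δ : List ℕ → ℝ), K.Harm y → K.Harm δ → (∀ w, 0 ≤ y w ∧ y w ≤ 1) →
      (∀ w v, Word K.Λ w → Word K.Λ v → m ≤ w.sum → y (w ++ v) = y w) →
      (∀ w w', Word K.Λ w → Word K.Λ w' → m ≤ w.sum → w.sum = w'.sum → Dj 0 w 1 w' →
        psi θ (y w) ≤ δ w') → ∀ r, R < r + K.M → r ≤ R →
      psi θ (y []) + γ * K.Ex r (fun w => |y w - y []|) ≤ δ [] by
    intro y δ h1 h2 h3 h4 h5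
    have := H y δ h1 h2 h3 h4 h5 R (by omega) le_rfl
    have := mul_nonneg hγ0.le (le_Ex (K := K) (r := R) fun w _ => abs_nonneg (y w - y []))
    linarith
  induction m using Nat.strong_induction_on with
  | _ m ih =>
  intro y δ hy hδ h01 hfr hb r hr1 hr2
  rcases Nat.eq_zero_or_pos m with rfl | hm
  · rw [Ex_congr (G := fun _ => 0) fun w hw => by
      have := hfr [] w word_nil (pre_word hw) le_rfl
      simp_all, Ex_const, mul_zero, add_zero]
    exact hb [] [] word_nil word_nil le_rfl rfl fun _ _ h _ => h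
  have IH : ∀ a a', Word K.Λ a → Word K.Λ a' → 0 < a.sum → a.sum = a'.sum → Dj 0 a 1 a' →
      ∀ r, R < r + K.M → r ≤ R →
        psi θ (y a) + γ * K.Ex r (fun w => |y (a ++ w) - y a|) ≤ δ a' := by
    intro a a' ha ha' h0 e hd
    simpa only [List.append_nil] using ih (m - a.sum) (by omega) (fun v => y (a ++ v))
      (fun v => δ (a' ++ v)) (hy.shift ha) (hδ.shift ha') (fun _ => h01 _)
      (fun w v hw hv h => by
        rw [← List.append_assoc]
        exact hfr _ _ (word_append.2 ⟨ha, hw⟩) hv (by simp; omega))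
      (fun w w' hw hw' h e' hd' => hb _ _ (word_append.2 ⟨ha, hw⟩) (word_append.2 ⟨ha', hw'⟩)
        (by simp; omega) (by simp; omega) (dj_one_append hw hd e hd'))
  set D := K.Ex r (fun w => |y w - y []|) with hD
  set D' := K.Ex r (fun a => K.Ex (r + R - a.sum) fun w => |y (a ++ w) - y a|) with hD'
  have hD0 : 0 ≤ D := le_Ex fun w _ => abs_nonneg _
  by_cases hc : 2 * D ≤ D'
  · have h1 := psi_Ex hθ0.le hq h01 (hqq r (by omega))
    rw [← hy.nil, hθq] at h1
    have h2 : K.Ex r (fun w => psi θ (y w)) + γ * D' ≤ δ [] := by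
      rw [hδ.nil r, hD', ← Ex_mul, ← Ex_add]
      refine Ex_mono fun a ha => ?_
      have := pre_ge ha
      have := pre_lt ha
      exact IH a a (pre_word ha) (pre_word ha) (by omega) rfl (dj_one_self (pre_word ha)) _
        (by omega) (by omega)
    nlinarith
  · have h1 := psi_Ex hθ0.le hq h01 (hqq (r + R) (by omega))
    rw [← hy.nil, hθq] at h1
    have h2 : K.Ex (r + R) (fun w => |y w - y []|) ≤ D + D' := by
      rw [Ex_tower (Nat.le_add_right r R), hD, hD', ← Ex_add]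
      refine Ex_mono fun a _ => ?_
      rw [← Ex_const (K := K) (r + R - a.sum) |y a - y []|, ← Ex_add]
      refine Ex_mono fun v _ => ?_
      rw [add_comm]
      exact abs_sub_le _ _ _
    have h3 : ∀ v v', K.E2 (r + R) v v' → psi θ (y v) ≤ δ v' := by
      intro v v' h
      have := IH v v' (pre_word h.1) (pre_word h.2.1) (by have := pre_ge h.1; omega) h.2.2.1
        h.2.2.2 R (by omega) le_rfl
      have := mul_nonneg hγ0.le (le_Ex (K := K) (r := R) fun w _ => abs_nonneg (y (v ++ w) - y v))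
      linarith
    have h4 : ∀ v ∈ Pre K.Λ (r + R), 0 ≤ δ v - psi θ (y v) := fun v hv =>
      sub_nonneg.2 (h3 v v ⟨hv, hv, rfl, dj_one_self (pre_word hv)⟩)
    set E := K.Ex (r + R) (fun v => δ v - psi θ (y v)) with hE
    have hE0 : 0 ≤ E := le_Ex h4
    have h5 := var_le hR0 hy (r := r) (r' := r + R) (by omega) (O := k * (2 * E / q))
      fun w hw w' hw' e => hk (r + R) (by omega) (by omega) w hw w' hw' e y _ (by positivity)
        fun v v' h => by
          rcases le_total (y v) (y v') with h6 | h6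
          · have : 0 ≤ 2 * E / q := by positivity
            linarith
          · have h7 := psi_sub hθ0.le (h01 v').1 h6 (h01 v).2
            have h8 := single_le_Ex h4 h.2.1
            have h9 := mul_le_mul_of_nonneg_right (hqq _ (by omega) _ h.2.1) (h4 _ h.2.1)
            have := h3 v v' h
            have : y v - y v' ≤ 2 * (δ v' - psi θ (y v')) := by nlinarith
            rw [le_div_iff₀ hq]
            nlinarith
    rw [Ex_sub, ← hδ.nil] at hE
    have h6 : D ≤ 6 * (k * (2 * E / q)) := by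
      have : 0 ≤ k * (2 * E / q) := by positivity
      linarith
    have h7 : 4 * γ * D ≤ E := by
      have e : 4 * γ * (6 * (k * (2 * E / q))) = E * (k / (k + 1)) := by
        rw [hγ]; field_simp; ring
      have : k / (k + 1 : ℝ) ≤ 1 := by rw [div_le_one (by positivity)]; linarith
      nlinarith
    nlinarith

end Ctx

end Pool.Agent.MP_2dc627_co.H36
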