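import Mathlib
import Pool.Agent.MP_2dc627_co.H36.Ctx

/-!
Far apart positions are joined by a word that avoids the tiles of a given word.
-/

namespace Pool.Agent.MP_2dc627_co.H36

open Finset

attribute [-simp] Nat.cast_list_sum

lemma Has.prev {s b : ℤ} {y : ℕ} {t : List ℕ} (h : Has s t b y) (hb : s < b) :
    ∃ y' : ℕ, Has s t (b - y') y' := by
  obtain ⟨a, v, rfl, rfl⟩ := has_iff.1 h
  rcases List.eq_nil_or_concat' a with rfl | ⟨a, y', rfl⟩
  · simp at hb
  · exact ⟨y', has_iff.2 ⟨a, y :: v, by simp, by simp; omega⟩⟩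

lemma Has.unique' {Λ : Finset ℕ} (h0 : 0 ∉ Λ) {s b : ℤ} {x x' : ℕ} {t : List ℕ} (ht : Word Λ t)
    (h : Has s t (b - x) x) (h' : Has s t (b - x') x') : x = x' := by
  have h1 := pos_of_mem h0 (ht x h.bounds.2.2)
  have h2 := pos_of_mem h0 (ht x' h'.bounds.2.2)
  rcases le_total x x' with hx | hx
  · rcases h'.two h0 ht h (by omega) with h3 | ⟨r, -, h3⟩ <;> omega
  · rcases h.two h0 ht h' (by omega) with h3 | ⟨r, -, h3⟩ <;> omega

lemma exists_flat (Φ : ℕ → ℕ) (B G : ℕ) (hm : Monotone Φ) (hB : ∀ c, Φ c ≤ B) :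
    ∃ k ≤ B, ∀ c, k * G ≤ c → c < k * G + G → Φ (c + 1) = Φ c := by
  have : ∃ k ≤ B, Φ ((k + 1) * G) ≤ Φ (k * G) := by
    by_contra h
    push Not at h
    have : ∀ k ≤ B + 1, k ≤ Φ (k * G) := by
      intro k hk
      induction k with
      | zero => omega
      | succ k ih =>
        have := h k (by omega)
        have := ih (by omega)
        omega
    have := this (B + 1) le_rfl
    have := hB ((B + 1) * G)
    omega
  obtain ⟨k, hk, h⟩ := this
  refine ⟨k, hk, fun c h1 h2 => le_antisymm ?_ (hm (by omega))⟩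
  exact (hm (by rw [add_mul]; omega)).trans (h.trans (hm h1))

lemma rotate (g : ℕ → ℕ) (S x : ℕ) (h1 : ∀ i < x, g (S + 1 + i) = g i)
    (h2 : ∀ i < S, g (x + i) = g i) : g (x + S) = g S := by
  have e1 := sum_range_add g (S + 1) x
  have e2 := sum_range_add g x (S + 1)
  have e3 : ∑ i ∈ range x, g (S + 1 + i) = ∑ i ∈ range x, g i :=
    sum_congr rfl fun i hi => h1 i (mem_range.1 hi)
  have e4 : ∑ i ∈ range S, g (x + i) = ∑ i ∈ range S, g i :=
    sum_congr rfl fun i hi => h2 i (mem_range.1 hi)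
  rw [sum_range_succ _ S, e4] at e2
  rw [add_comm (S + 1) x, sum_range_succ _ S, e2, add_comm x, e3] at e1
  rw [add_comm x]
  omega

namespace Ctx

variable {K : Ctx}

open Classical in
lemma reach_flat {s a : ℤ} {t : List ℕ} (ht : Word K.Λ t) (hs : s ≤ a) (P : ℤ → Prop)
    (hP : ∀ b, ∀ x ∈ K.Λ, P b → ¬ Has s t b x → P (b + x)) (G : ℕ) :
    ∃ k ≤ ∑ x ∈ K.Λ, x, ∀ b, ∀ x ∈ K.Λ, a + (k * G : ℕ) < b + x → b + x ≤ a + (k * G : ℕ) + G →
      ¬ Has s t b x → (P b ↔ P (b + x)) := by
  set e : ℤ → ℕ → ℕ := fun b x => if P b ∧ ¬ Has s t b x then 1 else 0 with he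
  set Φ : ℕ → ℕ := fun c => ∑ x ∈ K.Λ, ∑ i ∈ range x, e (a + c - i) x with hΦ
  have h1 : ∀ c : ℕ, Φ (c + 1) + ∑ x ∈ K.Λ, e (a + c + 1 - x) x =
      Φ c + ∑ x ∈ K.Λ, e (a + c + 1) x := by
    intro c
    simp only [hΦ, ← sum_add_distrib]
    refine sum_congr rfl fun x _ => ?_
    have e1 := sum_range_succ (fun i : ℕ => e (a + c + 1 - i) x) x
    rw [sum_range_succ'] at e1
    simp only [Nat.cast_add, Nat.cast_one, add_sub_add_right_eq_sub, Nat.cast_zero,
      sub_zero] at e1
    simp only [Nat.cast_add, Nat.cast_one, ← add_assoc]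
    omega
  have h2 : ∀ b, a < b → ∑ x ∈ K.Λ, e (b - x) x ≤ ∑ x ∈ K.Λ, e b x ∧
      (∑ x ∈ K.Λ, e b x ≤ ∑ x ∈ K.Λ, e (b - x) x →
        ∀ x ∈ K.Λ, ¬ Has s t (b - x) x → P b → P (b - x)) := by
    intro b hb
    by_cases hPb : P b
    · simp only [he, hPb, true_and, ← card_filter]
      have h3 : #(K.Λ.filter fun x : ℕ => ¬ Has s t (b - x) x) ≤
          #(K.Λ.filter fun x => ¬ Has s t b x) := by
        by_cases h : ∃ y, Has s t b y
        · obtain ⟨y, hy⟩ := h
          obtain ⟨y', hy'⟩ := hy.prev (by omega)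
          calc _ ≤ #(K.Λ.erase y') := card_le_card fun x hx => by
                rw [mem_filter] at hx
                exact mem_erase.2 ⟨fun e => hx.2 (e ▸ hy'), hx.1⟩
            _ = #(K.Λ.erase y) := by
                rw [card_erase_of_mem (ht _ hy'.bounds.2.2), card_erase_of_mem (ht _ hy.bounds.2.2)]
            _ ≤ _ := card_le_card fun x hx => by
                rw [mem_erase] at hx
                exact mem_filter.2 ⟨hx.2, fun e => hx.1 (e.unique K.h0 ht hy)⟩
        · push Not at h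
          rw [filter_true_of_mem fun x _ => h x]
          exact card_filter_le _ _
      have h4 : (K.Λ.filter fun x : ℕ => P (b - x) ∧ ¬ Has s t (b - x) x) ⊆
          K.Λ.filter fun x : ℕ => ¬ Has s t (b - x) x :=
        fun x hx => by
          rw [mem_filter] at hx ⊢
          exact ⟨hx.1, hx.2.2⟩
      refine ⟨(card_le_card h4).trans h3, fun h x hx hx' _ => ?_⟩
      have := eq_of_subset_of_card_le h4 (h3.trans h)
      have h5 : x ∈ K.Λ.filter fun x : ℕ => ¬ Has s t (b - x) x := mem_filter.2 ⟨hx, hx'⟩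
      rw [← this] at h5
      exact (mem_filter.1 h5).2.1
    · refine ⟨?_, fun _ _ _ _ h => absurd h hPb⟩
      rw [sum_eq_zero fun x hx => ?_]
      · exact Nat.zero_le _
      · exact if_neg fun h => hPb (by simpa using hP _ x hx h.1 h.2)
  obtain ⟨k, hk, h3⟩ := exists_flat Φ (∑ x ∈ K.Λ, x) G
    (monotone_nat_of_le_succ fun c => by
      have := h1 c
      have := (h2 (a + c + 1) (by omega)).1
      omega)
    (fun c => sum_le_sum fun x _ => by
      refine (sum_le_card_nsmul _ _ 1 fun i _ => ?_).trans (by simp)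
      simp only [he]
      split_ifs <;> omega)
  refine ⟨k, hk, fun b x hx h4 h5 h6 => ⟨fun h => hP b x hx h h6, fun h => ?_⟩⟩
  obtain ⟨c, hc⟩ : ∃ c : ℕ, b + x = a + c + 1 := ⟨(b + x - a - 1).toNat, by omega⟩
  have h7 := h1 c
  rw [h3 c (by omega) (by omega), ← hc] at h7
  have := (h2 (b + x) (by omega)).2 (by omega) x hx
  simp only [add_sub_cancel_right] at this
  exact this h6 h

open Classical in
theorem reach : ∃ D : ℕ, ∀ (s a b : ℤ) (t : List ℕ), Word K.Λ t → s ≤ a → a + D ≤ b →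
    ∃ r, Word K.Λ r ∧ a + (r.sum : ℕ) = b ∧ Dj s t a r := by
  set G := K.Fr + 3 * K.M with hG
  refine ⟨(∑ x ∈ K.Λ, x) * G, fun s a b t ht hs hb => ?_⟩
  set P : ℤ → Prop := fun b => ∃ r, Word K.Λ r ∧ a + (r.sum : ℕ) = b ∧ Dj s t a r with hPd
  have hP : ∀ b, ∀ x ∈ K.Λ, P b → ¬ Has s t b x → P (b + x) := by
    rintro b x hx ⟨r, h1, rfl, h2⟩ h
    refine ⟨r ++ [x], by simp [h1, hx], by simp [add_assoc], fun b y h3 h4 => ?_⟩
    rcases has_append.1 h4 with h4 | h4
    · exact h2 b y h3 h4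
    · obtain ⟨rfl, rfl⟩ := has_single.1 h4
      exact h h3
  obtain ⟨k, hk, E0⟩ := reach_flat ht hs P hP G
  have hkG : k * G ≤ (∑ x ∈ K.Λ, x) * G := Nat.mul_le_mul_right _ hk
  set c := a + (k * G : ℕ) with hc
  have hS2 := K.hS2
  have hSM := K.S_lt_M
  have E1 : ∀ b, ∀ x ∈ K.Λ, x ≠ K.S → c ≤ b → b + x ≤ c + G → (P b ↔ P (b + x)) := by
    intro b x hx hxS h1 h2
    have hSx := K.hSle x hx
    by_cases hb : Has s t b x
    swap
    · exact E0 b x hx (by omega) h2 hb
    have key : ∀ b' y, Has s t b' y → b - K.S < b' → b' < b + x → b' = b ∧ y = x := by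
      intro b' y h h3 h4
      have := K.hSle y (ht y h.bounds.2.2)
      rcases le_total b b' with h5 | h5
      · rcases hb.two K.h0 ht h h5 with h6 | ⟨r, -, h6⟩ <;> omega
      · rcases h.two K.h0 ht hb h5 with h6 | ⟨r, -, h6⟩ <;> omega
    have := rotate (fun i => if P (b - K.S + 1 + i) then 1 else 0) (K.S - 1) x
      (fun i hi => if_congr (by
        rw [E0 (b - K.S + 1 + i) K.S K.hS (by omega) (by omega) fun h => by
          have := key _ _ h (by omega) (by omega); omega]
        rw [show b - K.S + 1 + (K.S - 1 + 1 + i : ℕ) = b - K.S + 1 + i + K.S by omega]) rfl rfl)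
      (fun i hi => if_congr (by
        rw [E0 (b - K.S + 1 + i) x hx (by omega) (by omega) fun h => by
          have := key _ _ h (by omega) (by omega); omega]
        rw [show b - K.S + 1 + (x + i : ℕ) = b - K.S + 1 + i + x by omega]) rfl rfl)
    rw [show b - K.S + 1 + (x + (K.S - 1) : ℕ) = b + x by omega,
      show b - K.S + 1 + (K.S - 1 : ℕ) = b by omega] at this
    by_cases h3 : P b <;> by_cases h4 : P (b + x) <;> simp only [h3, h4] at this ⊢ <;>
      simp at this
  have E2 : ∀ b, ∀ x ∈ K.Λ, c ≤ b → b + 2 * K.M ≤ c + G → (P b ↔ P (b + x)) := by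
    intro b x hx h1 h2
    have := K.hleM x hx
    by_cases hxS : x = K.S
    swap
    · exact E1 b x hx hxS h1 (by omega)
    subst hxS
    by_cases hb : Has s t b K.S
    swap
    · exact E0 b _ hx (by omega) (by omega) hb
    have hL := Nat.find_spec K.exists_ndvd
    have hL' := fun m => Nat.find_min (m := m) K.exists_ndvd
    set L := Nat.find K.exists_ndvd
    have h3 := K.hleM L hL.1
    have h4 := K.hSle L hL.1
    have h5 : L ≠ K.S := fun e => hL.2 (e ▸ dvd_rfl)
    rw [E0 b L hL.1 (by omega) (by omega) fun h => h5 (h.unique K.h0 ht hb),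
      E0 (b + L) K.S K.hS (by omega) (by omega), E1 (b + K.S) L hL.1 h5 (by omega) (by omega),
      add_right_comm]
    intro h
    rcases hb.two K.h0 ht h (by omega) with h6 | ⟨r, hr, h6⟩
    · omega
    · have h7 : K.S ∣ r.sum := List.dvd_sum fun y hy => by
        have := List.single_le_sum (fun _ _ => Nat.zero_le _) y hy
        by_contra h8
        exact hL' y (by omega) ⟨hr y hy, h8⟩
      exact hL.2 (show L = K.S + r.sum by omega ▸ (Nat.dvd_add_right dvd_rfl).2 h7)
  have E3 : ∀ r, Word K.Λ r → ∀ b, c ≤ b → b + (r.sum : ℕ) + 2 * K.M ≤ c + G →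
      (P b ↔ P (b + (r.sum : ℕ))) := by
    intro r
    induction r with
    | nil => simp
    | cons x r ih =>
      intro hr b h1 h2
      simp only [word_cons, List.sum_cons, Nat.cast_add] at hr h2 ⊢
      rw [E2 b x hr.1 h1 (by omega), ih hr.2 (b + x) (by omega) (by omega), add_assoc]
  have E4 : ∀ n : ℕ, ∃ b, a + n ≤ b ∧ b < a + n + K.M ∧ P b := by
    intro n
    induction n with
    | zero => exact ⟨a, by omega, by omega, [], word_nil, by simp, fun _ _ _ h => h⟩
    | succ n ih =>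
      obtain ⟨b, h1, h2, h3⟩ := ih
      by_cases h : b = a + n
      · have : ∃ x ∈ K.Λ, ¬ Has s t b x := by
          by_contra h4
          push Not at h4
          have := (h4 _ K.hS).unique K.h0 ht (h4 _ K.hM)
          omega
        obtain ⟨x, hx, h4⟩ := this
        have := K.hleM x hx
        have := K.hSle x hx
        exact ⟨b + x, by omega, by omega, hP b x hx h3 h4⟩
      · exact ⟨b, by omega, by omega, h3⟩
  have E5 : ∀ b, c ≤ b → b < c + K.M → (P b ↔ P (c + K.M + K.Fr)) := by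
    intro b h1 h2
    obtain ⟨r, hr, e⟩ := K.hFr (c + K.M + K.Fr - b).toNat (by omega)
    rw [E3 r hr b h1 (by omega), show b + (r.sum : ℕ) = c + K.M + K.Fr by omega]
  obtain ⟨b0, h1, h2, h3⟩ := E4 (k * G)
  have E6 : ∀ n : ℕ, P (c + n) := by
    intro n
    induction n using Nat.strong_induction_on with
    | _ n ih =>
      by_cases h : n < K.M
      · exact (E5 _ (by omega) (by omega)).2 ((E5 b0 h1 h2).1 h3)
      · have : ∃ x ∈ K.Λ, ¬ Has s t (c + n - x) x := by
          by_contra h4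
          push Not at h4
          have := (h4 _ K.hS).unique' K.h0 ht (h4 _ K.hM)
          omega
        obtain ⟨x, hx, h4⟩ := this
        have := K.hleM x hx
        have := K.hSle x hx
        have h5 := ih (n - x) (by omega)
        rw [show c + (n - x : ℕ) = c + n - x by omega] at h5
        simpa using hP _ x hx h5 h4
  have := E6 (b - c).toNat
  rwa [show c + (b - c).toNat = b by omega] at this

end Ctx

end Pool.Agent.MP_2dc627_co.H36
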