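import Mathlib
import Pool.Agent.MP_2dc627_co.H36.Lock
import Pool.Agent.MP_2dc627_co.H36.Reach

/-!
Small families of tilings have many disjoint partners.
-/

namespace Pool.Agent.MP_2dc627_co.H36

open Finset

attribute [-simp] Nat.cast_list_sum

/-- The initial part of a word up to the first time the sum reaches `m`. -/
def stop : ℕ → List ℕ → List ℕ
  | _, [] => []
  | m, x :: t => if m = 0 then [] else x :: stop (m - x) t

lemma stop_zero (t : List ℕ) : stop 0 t = [] := by cases t <;> simp [stop]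

lemma stop_append {m : ℕ} {a : List ℕ} (h : m ≤ a.sum) (v : List ℕ) :
    stop m (a ++ v) = stop m a := by
  induction a generalizing m with
  | nil => obtain rfl : m = 0 := by simpa using h
           simp [stop_zero]
  | cons x a ih =>
    simp only [List.cons_append, stop]
    rw [ih (by simp at h; omega)]

lemma stop_split (m : ℕ) (a : List ℕ) : ∃ v, a = stop m a ++ v := by
  induction a generalizing m with
  | nil => exact ⟨[], rfl⟩
  | cons x a ih =>
    simp only [stop]
    split_ifs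
    · exact ⟨_, rfl⟩
    · obtain ⟨v, hv⟩ := ih (m - x)
      exact ⟨v, by rw [List.cons_append, ← hv]⟩

namespace Ctx

variable {K : Ctx}

lemma stop_mem {m : ℕ} {a : List ℕ} (ha : Word K.Λ a) (h : m ≤ a.sum) : stop m a ∈ Pre K.Λ m := by
  induction a generalizing m with
  | nil => obtain rfl : m = 0 := by simpa using h
           simp [stop_zero, pre_zero]
  | cons x a ih =>
    rcases Nat.eq_zero_or_pos m with rfl | hm
    · simp [stop_zero, pre_zero]
    · rw [word_cons] at ha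
      rw [pre_pos K.h0 hm, stop, if_neg hm.ne', mem_biUnion]
      exact ⟨x, ha.1, mem_image_of_mem _ (ih ha.2 (by simp at h; omega))⟩

lemma stop_pre {m : ℕ} {a : List ℕ} (ha : a ∈ Pre K.Λ m) : stop m a = a := by
  induction a generalizing m with
  | nil => rfl
  | cons x a ih =>
    rcases Nat.eq_zero_or_pos m with rfl | hm
    · simp [pre_zero] at ha
    · rw [pre_pos K.h0 hm] at ha
      simp only [mem_biUnion, mem_image, List.cons.injEq] at ha
      obtain ⟨y, -, b, hb, rfl, rfl⟩ := ha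
      rw [stop, if_neg hm.ne', ih hb]

lemma exists_harm (m : ℕ) (F : List ℕ → ℝ) (hF : ∀ w, 0 ≤ F w ∧ F w ≤ 1) :
    ∃ y, K.Harm y ∧ y [] = K.Ex m F ∧ (∀ w, m ≤ w.sum → y w = F (stop m w)) ∧
      ∀ w, 0 ≤ y w ∧ y w ≤ 1 := by
  refine ⟨fun a => K.Ex (m - a.sum) fun v => F (stop m (a ++ v)), fun a _ r => ?_,
    Ex_congr fun w hw => by rw [List.nil_append, stop_pre (m := m) hw], fun w hw => ?_,
    fun w => ⟨le_Ex fun _ _ => (hF _).1, Ex_le fun _ _ => (hF _).2⟩⟩
  · rcases le_total r (m - a.sum) with h | h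
    · simp only [Ex_tower h, List.sum_append, List.append_assoc, Nat.sub_sub]
    · rw [Ex_tower h]
      refine Ex_congr fun b hb => ?_
      have := pre_ge hb
      rw [← Ex_const (K := K) (r - b.sum) (F (stop m (a ++ b)))]
      refine Ex_congr fun v hv => ?_
      have := pre_ge hv
      beta_reduce
      rw [show m - (a ++ (b ++ v)).sum = 0 by simp; omega, Ex_zero, List.append_nil,
        ← List.append_assoc, stop_append (a := a ++ b) (by simp; omega)]
  · simp only [show m - w.sum = 0 by omega, Ex_zero, List.append_nil]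

lemma Sm_append_le {l : ℕ} {a : List ℕ} (ha : Word K.Λ a) (h : a.sum ≤ l) {H : List ℕ → ℝ}
    (hH : ∀ t, 0 ≤ H t) : K.τ ^ a.sum * K.Sm (l - a.sum) (fun v => H (a ++ v)) ≤ K.Sm l H := by
  classical
  have := sum_W_occ K.h0 (c := 0) ha (by omega : 0 + a.sum ≤ l) H
  simp only [W_zero, sum_singleton, List.nil_append, Nat.sub_zero] at this
  simp only [Sm, ← mul_sum, ← this, ← mul_assoc, ← pow_add, show a.sum + (l - a.sum) = l by omega]
  refine mul_le_mul_of_nonneg_left (sum_le_sum fun t _ => ?_) (K.pw _).le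
  split_ifs
  exacts [le_rfl, hH t]

open Classical in
theorem sse (X : ℝ) : ∃ η : ℝ, 0 < η ∧ ∃ N : ℕ, ∀ n, N ≤ n → ∀ s0 ∈ K.Λ, ∀ s1 ∈ K.Λ,
    ∀ A B : Finset (List ℕ), A ⊆ W K.Λ n → B ⊆ W K.Λ n →
      (∀ T ∈ A, ¬ Has 0 T 0 s0 ∧ ¬ Has 0 T (n - s1) s1) → A.card * K.τ ^ n ≤ η →
      (∀ U ∈ W K.Λ n, Has 0 U 0 s0 → Has 0 U (n - s1) s1 → (∃ T ∈ A, Dj 0 T 0 U) → U ∈ B) →
      X * A.card ≤ B.card := by
  obtain ⟨θ, hθ0, hθ1, hL⟩ := lock (K := K)
  obtain ⟨D, hD⟩ := reach (K := K)
  have hκ := K.pw (D + 2 * K.M)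
  set κ := K.τ ^ (D + 2 * K.M) with hκd
  refine ⟨Real.exp (-(X / (κ * κ * θ))), Real.exp_pos _, 2 * D + 4 * K.M,
    fun n hn s0 hs0 s1 hs1 A B hA hB hT hη hU => ?_⟩
  rcases A.eq_empty_or_nonempty with rfl | hne
  · simp
  have hτ := K.pw n
  have hy0 : 0 < A.card * K.τ ^ n := by have := card_pos.2 hne; positivity
  have hSM := K.S_lt_M
  have hS2 := K.hS2
  have := K.hleM s0 hs0
  have := K.hleM s1 hs1
  have ind : ∀ (p : Prop) [Decidable p], (0 : ℝ) ≤ (if p then 1 else 0) ∧
      (if p then 1 else 0 : ℝ) ≤ 1 := fun p _ => by split_ifs <;> norm_num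
  obtain ⟨w1, hw1, h1⟩ := exists_ge_Ex (K := K) (D + K.M)
    fun a => K.Sm (n - a.sum) fun v => if a ++ v ∈ A then 1 else 0
  rw [← Sm_tower (by omega) fun t => if t ∈ A then 1 else 0, Sm_ind hA] at h1
  have g1 := pre_ge hw1
  have g2 := pre_lt hw1
  obtain ⟨r, hr, er, hd⟩ := hD 0 s0 (w1.sum + 1) w1 (pre_word hw1) (by omega) (by omega)
  set m := n - w1.sum - (D + 2 * K.M) with hm
  set F : List ℕ → ℝ := fun w => if ∃ v, w1 ++ (w ++ v) ∈ A then 1 else 0 with hF
  set Δ : List ℕ → ℝ := fun w' =>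
    if ∃ w ∈ Pre K.Λ (m + 1), ∃ v, w1 ++ (w ++ v) ∈ A ∧ Dj 0 w 1 w' then 1 else 0 with hΔ
  have h2 : A.card * K.τ ^ n ≤ K.Ex (m + 1) F := by
    rw [Sm_tower (r := m + 1) (by omega)] at h1
    refine h1.trans (Ex_mono fun w _ => ?_)
    refine (Sm_mono (G := fun _ => F w) fun v _ => ?_).trans ?_
    · simp only [hF]
      split_ifs with h3 h4
      exacts [le_rfl, absurd ⟨v, h3⟩ h4, zero_le_one, le_rfl]
    · rw [Sm_const]
      exact mul_le_of_le_one_left (ind _).1 (u_le_one _)
  obtain ⟨y, hy1, hy2, hy3, hy4⟩ := exists_harm (K := K) (m + 1) F fun _ => ind _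
  obtain ⟨δ, hδ1, hδ2, hδ3, -⟩ := exists_harm (K := K) m Δ fun _ => ind _
  have h3 := hL (m + 1) y δ hy1 hδ1 hy4
    (fun w v _ _ h => by rw [hy3 _ h, hy3 _ (by simp; omega), stop_append h])
    (fun w w' hw hw' h e hd => by
      rw [hy3 _ h, hδ3 _ (by omega)]
      simp only [hF]
      split_ifs with h4
      · obtain ⟨v, hv⟩ := h4
        obtain ⟨a, ha⟩ := stop_split (m + 1) w
        obtain ⟨a', ha'⟩ := stop_split m w'
        rw [ha, ha'] at hd
        simp only [hΔ]
        rw [if_pos ⟨_, stop_mem hw h, v, hv, hd.left⟩]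
        simp [psi]
      · simpa [psi] using (ind _).1)
  have h4 : κ * (κ * K.Ex m Δ) ≤ B.card * K.τ ^ n := by
    rw [← Sm_ind hB]
    have e : (s0 :: r).sum = w1.sum + 1 := by simp; omega
    refine le_trans ?_ (Sm_append_le (a := s0 :: r) (word_cons.2 ⟨hs0, hr⟩) (by omega)
      fun _ => (ind _).1)
    refine mul_le_mul (K.pw_anti (by omega)) ?_ (mul_nonneg hκ.le (le_Ex fun _ _ => (ind _).1))
      (K.pw _).le
    rw [Sm_tower (r := m) (by omega), ← Ex_mul]
    refine Ex_mono fun w' hw' => ?_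
    simp only [hΔ]
    split_ifs with h5
    swap
    · rw [mul_zero]; exact Sm_nonneg fun _ _ => (ind _).1
    obtain ⟨w, hw, v, hv, hd'⟩ := h5
    have g3 := pre_ge hw'
    have g4 := pre_lt hw'
    have g5 := pre_ge hw
    obtain ⟨hTw, hTs⟩ := (mem_W K.h0).1 (hA hv)
    obtain ⟨r', hr', er', hd''⟩ := hD 0 (w1.sum + 1 + w'.sum) (n - s1) _ hTw (by omega) (by omega)
    have hmem : r' ++ [s1] ∈ W K.Λ (n - (s0 :: r).sum - w'.sum) :=
      (mem_W K.h0).2 ⟨by simp [hr', hs1], by simp; omega⟩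
    refine le_trans ?_ (single_le_Sm (fun _ _ => (ind _).1) hmem)
    rw [if_pos]
    · exact mul_le_mul_of_nonneg_right (K.pw_anti (by omega)) zero_le_one
    refine hU _ ((mem_W K.h0).2 ⟨by simp [hr, hr', hs0, hs1, pre_word hw'], by simp; omega⟩)
      (Or.inl ⟨rfl, rfl⟩) ?_ ⟨_, hv, fun b x h6 h7 => ?_⟩
    · simp only [has_append, has_single]
      exact Or.inr (Or.inr (Or.inr ⟨by omega, trivial⟩))
    · have hx := K.hSle x (hTw x h6.bounds.2.2)
      simp only [has_append, has_single] at h7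
      rcases h7 with (⟨rfl, rfl⟩ | h7) | h7 | h7 | ⟨rfl, rfl⟩
      · exact (hT _ hv).1 h6
      · rcases has_append.1 h6 with h6 | h6
        · exact hd b x h6 ((has_shift (by omega)).1 h7)
        · have := h6.bounds
          have := h7.bounds
          omega
      · have := h7.bounds
        have := pre_has hw' h7
        rcases has_append.1 h6 with h6 | h6
        · have := h6.bounds
          omega
        rcases has_append.1 h6 with h6 | h6
        · exact hd'.shift (by omega) b x h6 h7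
        · have := h6.bounds
          omega
      · exact hd'' b x h6 ((has_shift (by omega)).1 h7)
      · exact (hT _ hv).2 ((has_shift (by omega)).1 h6)
  rw [hy2, hδ2] at h3
  have h5 := psi_sub hθ0.le hy0.le h2 (hy2 ▸ (hy4 []).2)
  have h6 : X / (κ * κ * θ) ≤ -Real.log (A.card * K.τ ^ n) := by
    have := Real.log_le_log hy0 hη
    rw [Real.log_exp] at this
    linarith
  rw [div_le_iff₀ (by positivity)] at h6
  have h7 : θ * (A.card * K.τ ^ n * -Real.log (A.card * K.τ ^ n)) ≤ K.Ex m Δ := by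
    have : 0 ≤ (1 - θ) * (K.Ex (m + 1) F - A.card * K.τ ^ n) :=
      mul_nonneg (by linarith) (by linarith)
    unfold psi at h5 h3
    linarith
  refine le_of_mul_le_mul_right ?_ hτ
  have h8 := mul_le_mul_of_nonneg_left h7 (mul_pos hκ hκ).le
  have h9 := mul_le_mul_of_nonneg_left h6 hy0.le
  nlinarith

end Ctx

end Pool.Agent.MP_2dc627_co.H36
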