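import Mathlib
import Pool.Agent.MP_2dc627_co.H36.Cross
import Pool.Agent.MP_2dc627_co.H36.Sse

/-!
The case where the shortest tile has probability less than one half.
-/

namespace Pool.Agent.MP_2dc627_co.H36

open Finset

attribute [-simp] Nat.cast_list_sum

open Classical in
lemma card_head {Λ : Finset ℕ} (h0 : 0 ∉ Λ) {x n : ℕ} (hx : x ∈ Λ) (hn : x ≤ n) :
    #{T ∈ W Λ n | Has 0 T 0 x} = #(W Λ (n - x)) := by
  symm
  refine card_nbij (List.cons x) (fun t ht => ?_) (fun _ _ _ _ h => (List.cons.inj h).2)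
    fun T hT => ?_
  · simp only [mem_coe, mem_W h0, mem_filter, word_cons, List.sum_cons] at ht ⊢
    exact ⟨⟨⟨hx, ht.1⟩, by omega⟩, Or.inl ⟨rfl, rfl⟩⟩
  · simp only [mem_coe, mem_W h0, mem_filter] at hT
    obtain ⟨t, rfl⟩ := List.head?_eq_some_iff.1 ((has_head h0 hT.1.1).1 hT.2)
    simp only [word_cons, List.sum_cons] at hT
    exact ⟨t, mem_coe.2 ((mem_W h0).2 ⟨hT.1.1.2, by omega⟩), rfl⟩

lemma card_le_of_compl {α : Type*} [DecidableEq α] {F Z : Finset α} (h : #(F \ Z) ≤ #(Z \ F)) :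
    #F ≤ #Z := by
  have := card_sdiff_add_card_inter F Z
  have := card_sdiff_add_card_inter Z F
  rw [inter_comm] at this
  omega

lemma core_alg {p s t r c a b k h ε : ℝ} (hp : p < 1 / 2) (hp0 : 0 < p) (q10 : 0 < s)
    (q20 : 0 < t) (q1 : s ≤ p) (q2 : t ≤ p) (r0 : 0 ≤ r) (r1 : r ≤ 1) (c0 : 0 ≤ c) (c1 : c ≤ 1)
    (ha0 : 0 < a) (hb0 : 0 < b) (hk0 : 0 < k) (hkh : k ≤ h) (hε1 : ε ≤ a)
    (ha3 : a * (2 * h) ≤ b ^ 2 * (p * (1 - p)))
    (h4 : p - ε ≤ a + t * (c - a) + s * (r + t * (1 - r) - (a + t * (c - a))))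
    (h5 : (r + k) * (c + k) ≤ k * (1 + k)) :
    (r ≤ b ∧ p - ε ≤ a + b + t) ∨ (c ≤ b ∧ p - ε ≤ a + b + s) := by
  have h6 : p - ε ≤ a + (s * t + s * (1 - t) * r + t * (1 - s) * c) := by
    have := mul_nonneg ha0.le (mul_nonneg q10.le (show 0 ≤ 1 - t by linarith))
    have := mul_nonneg ha0.le q20.le
    linarith
  have h7 : s * t + s * (1 - t) * r + t * (1 - s) * c ≤ p ^ 2 + p * (1 - p) * (r + c) := by
    have e1 := mul_nonneg (sub_nonneg.2 q1) (show 0 ≤ t * (1 - c) + (1 - t) * r from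
      add_nonneg (mul_nonneg q20.le (by linarith)) (mul_nonneg (by linarith) r0))
    have e2 := mul_nonneg (sub_nonneg.2 q2) (show 0 ≤ p * (1 - r) + (1 - p) * c from
      add_nonneg (mul_nonneg hp0.le (by linarith)) (mul_nonneg (by linarith) c0))
    linarith
  have h8 : r * c ≤ b * b := by
    have hpp := mul_pos hp0 (show 0 < 1 - p by linarith)
    refine le_of_mul_le_mul_right ?_ hpp
    have e1 : r * c ≤ k * (1 - r - c) := by linarith
    have e2 : p * (1 - p) * (1 - r - c) ≤ 2 * a := by linarith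
    have e3 := mul_le_mul_of_nonneg_right e1 hpp.le
    have e4 := mul_le_mul_of_nonneg_left e2 hk0.le
    have e5 := mul_le_mul_of_nonneg_left hkh ha0.le
    linarith
  rcases le_total r c with h9 | h9
  · have hr : r ≤ b := by
      by_contra h10
      nlinarith [mul_le_mul_of_nonneg_left h9 r0]
    have e1 : s * (1 - t) * r ≤ r := mul_le_of_le_one_left r0 (by nlinarith)
    have e2 : t * (1 - s) * c ≤ t * (1 - s) :=
      mul_le_of_le_one_right (mul_nonneg q20.le (by linarith)) c1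
    exact Or.inl ⟨hr, by linarith⟩
  · have hr : c ≤ b := by
      by_contra h10
      nlinarith [mul_le_mul_of_nonneg_right h9 c0]
    have e1 : t * (1 - s) * c ≤ c := mul_le_of_le_one_left c0 (by nlinarith)
    have e2 : s * (1 - t) * r ≤ s * (1 - t) :=
      mul_le_of_le_one_right (mul_nonneg q10.le (by linarith)) r1
    exact Or.inr ⟨hr, by linarith⟩

lemma dj_class {x x' y y' : ℕ} {t u : List ℕ} (hx : x ≠ x') (hy : y ≠ y') (h0 : 0 < x) (h0' : 0 < x')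
    (h1 : 0 < y) (h1' : 0 < y') (e : x + t.sum + y = x' + u.sum + y') (hd : Dj x t x' u) :
    Dj 0 (x :: (t ++ [y])) 0 (x' :: (u ++ [y'])) := by
  intro b z h5 h6
  simp only [has_cons, has_append, has_nil, or_false, zero_add] at h5 h6
  rcases h5 with h5 | h5 | h5 <;> rcases h6 with h6 | h6 | h6 <;>
    first
    | omega
    | exact hd b z h5 h6
    | (have := h5.bounds; omega)
    | (have := h6.bounds; omega)

namespace Ctx

variable {K : Ctx}

lemma core (hp : K.τ ^ K.S < 1 / 2) {π η : ℝ} (hπ0 : 0 < π) (hπ1 : π < 1) (hη : 0 < η) :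
    ∃ k ε : ℝ, 0 ≤ k ∧ π * (K.τ ^ K.S) ^ 2 ≤ k * (1 - 2 * K.τ ^ K.S) ∧ 0 < ε ∧
      ∀ ψ : ℕ → ℕ → ℝ, (∀ x ∈ K.Λ, ∀ y ∈ K.Λ, 0 ≤ ψ x y ∧ ψ x y ≤ 1) →
        (∀ x ∈ K.Λ, ∀ x' ∈ K.Λ, x ≠ x' → ∀ y ∈ K.Λ, ∀ y' ∈ K.Λ, y ≠ y' →
          (ψ x y + k) * (ψ x' y' + k) ≤ k * (1 + k)) →
        K.τ ^ K.S - ε ≤ ∑ x ∈ K.Λ, K.τ ^ x * ∑ y ∈ K.Λ, K.τ ^ y * ψ x y →
        (∀ x ∈ K.Λ, x ≠ K.S → ∀ y ∈ K.Λ, ψ x y ≤ η) ∨
          ∀ x ∈ K.Λ, ∀ y ∈ K.Λ, y ≠ K.S → ψ x y ≤ η := by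
  have hp0 := K.pw K.S
  have hq : ∀ x ∈ K.Λ, K.τ ^ x ≤ K.τ ^ K.S := fun x hx => K.pw_anti (K.hSle x hx)
  have hq' : ∀ x ∈ K.Λ, x ≠ K.S → K.τ ^ x ≤ K.τ ^ K.S * K.τ := fun x hx h => by
    rw [← pow_succ]; exact K.pw_anti (by have := K.hSle x hx; omega)
  have cs := @closure_step K hp.le
  set p := K.τ ^ K.S with hpd
  have hτ := sub_pos.2 K.τ1
  have hp2 : 0 < 1 - 2 * p := by linarith
  have hp1 : 0 < 1 - p := by linarith
  set h := p ^ 2 / (1 - 2 * p) with hh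
  have hh0 : 0 < h := by positivity
  have hh1 : h * (1 - 2 * p) = p ^ 2 := div_mul_cancel₀ _ hp2.ne'
  obtain ⟨b, hb0, hb1, hb2⟩ : ∃ b, 0 < b ∧ b ≤ η ∧ b ≤ p * (1 - K.τ) / 4 :=
    ⟨min η (p * (1 - K.τ) / 4), by positivity, min_le_left _ _, min_le_right _ _⟩
  obtain ⟨a, ha0, ha1, ha2, ha3⟩ : ∃ a, 0 < a ∧ a ≤ 1 - π ∧ a ≤ b ∧
      a * (2 * h) ≤ b ^ 2 * (p * (1 - p)) := by
    refine ⟨min (1 - π) (min b (b ^ 2 * (p * (1 - p)) / (2 * h))), ?_, min_le_left _ _,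
      (min_le_right _ _).trans (min_le_left _ _), ?_⟩
    · have := sub_pos.2 hπ1
      positivity
    · rw [← le_div_iff₀ (by positivity)]
      exact (min_le_right _ _).trans (min_le_right _ _)
  obtain ⟨ε, hε0, hε1, hε2, hε3⟩ : ∃ ε, 0 < ε ∧ ε ≤ a ∧ ε ≤ p ∧ ε * (4 * (p + h)) ≤ a * p ^ 2 := by
    refine ⟨min a (min p (a * p ^ 2 / (4 * (p + h)))), by positivity, min_le_left _ _,
      (min_le_right _ _).trans (min_le_left _ _), ?_⟩
    rw [← le_div_iff₀ (by positivity)]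
    exact (min_le_right _ _).trans (min_le_right _ _)
  have hk1 : (1 - a) * p ^ 2 = (1 - a) * h * (1 - 2 * p) := by rw [mul_assoc, hh1]
  have hk0 : 0 < (1 - a) * h := mul_pos (by linarith) hh0
  have hkh : (1 - a) * h ≤ h := by nlinarith
  refine ⟨(1 - a) * h, ε, hk0.le, by nlinarith [sq_nonneg p], hε0, fun ψ h01 hψ hs => ?_⟩
  set k := (1 - a) * h with hk
  by_cases hc : ∀ x ∈ K.Λ, ∀ y ∈ K.Λ, ψ x y ≤ 1 - a
  · exfalso
    have r0 : ∀ x ∈ K.Λ, 0 ≤ ∑ y ∈ K.Λ, K.τ ^ y * ψ x y :=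
      fun x hx => avg_nonneg fun y hy => (h01 x hx y hy).1
    have h1 := cs hk0.le hk1.le r0 r0 (Or.inl fun x hx x' hx' => by
        have := avg_le (hc x hx)
        have := r0 x' hx'
        linarith)
      fun x hx x' hx' hne => cs hk0.le hk1.le (fun y hy => (h01 x hx y hy).1)
        (fun y hy => (h01 x' hx' y hy).1) (Or.inl fun y hy y' hy' => by
          have := hc x hx y hy
          have := (h01 x hx y' hy').1
          linarith) (hψ x hx x' hx' hne)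
    have h2 : (p - ε + k) * (p - ε + k) ≤ k * (1 + k) :=
      le_trans (mul_self_le_mul_self (by linarith) (by linarith)) h1
    have := mul_pos ha0 (pow_pos hp0 2)
    nlinarith [sq_nonneg ε]
  push Not at hc
  obtain ⟨x0, hx0, y0, hy0, hc⟩ := hc
  have h1 : ∀ x ∈ K.Λ.erase x0, ∀ y ∈ K.Λ.erase y0, ψ x y ≤ a := by
    intro x hx y hy
    rw [mem_erase] at hx hy
    have := hψ x hx.2 x0 hx0 hx.1 y hy.2 y0 hy0 hy.1
    have h2 := (h01 x hx.2 y hy.2).1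
    have h3 : (ψ x y + k) * (1 - a + k) ≤ k * (1 + k) :=
      (mul_le_mul_of_nonneg_left (by linarith) (by linarith)).trans this
    refine le_of_mul_le_mul_right ?_ hk0
    nlinarith [mul_nonneg h2 (show 0 ≤ 1 - a by linarith)]
  obtain ⟨y1, hy1, h2⟩ := exists_max_image _ (ψ x0) (erase_nonempty (K := K) y0)
  obtain ⟨x1, hx1, h3⟩ := exists_max_image _ (fun x => ψ x y0) (erase_nonempty (K := K) x0)
  have h4 := avg_le' (y := fun x => ∑ y ∈ K.Λ, K.τ ^ y * ψ x y) hx0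
    (fun x hx => avg_le' hy0 (h1 x hx) (h3 x hx)) (avg_le' hy0 h2 (h01 _ hx0 _ hy0).2)
  replace h4 := hs.trans h4
  have hy1' := mem_erase.1 hy1
  have hx1' := mem_erase.1 hx1
  have h5 := hψ x0 hx0 x1 hx1'.2 hx1'.1.symm y1 hy1'.2 y0 hy0 hy1'.1
  obtain ⟨r0, r1⟩ := h01 _ hx0 _ hy1'.2
  obtain ⟨c0, c1⟩ := h01 _ hx1'.2 _ hy0
  have h6 := core_alg hp hp0 (K.pw x0) (K.pw y0) (hq _ hx0) (hq _ hy0) r0 r1 c0 c1 ha0 hb0 hk0
    hkh hε1 ha3 h4 h5
  have hpτ := mul_pos hp0 hτ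
  rcases h6 with ⟨hr, h6⟩ | ⟨hr, h6⟩
  · obtain rfl : y0 = K.S := by
      by_contra hne
      have := hq' _ hy0 hne
      linarith
    refine Or.inr fun x hx y hy hne => ?_
    by_cases e : x = x0
    · exact e ▸ (h2 y (mem_erase.2 ⟨hne, hy⟩)).trans (hr.trans hb1)
    · exact (h1 x (mem_erase.2 ⟨e, hx⟩) y (mem_erase.2 ⟨hne, hy⟩)).trans (ha2.trans hb1)
  · obtain rfl : x0 = K.S := by
      by_contra hne
      have := hq' _ hx0 hne
      linarith
    refine Or.inl fun x hx hne y hy => ?_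
    by_cases e : y = y0
    · exact e ▸ (h3 x (mem_erase.2 ⟨hne, hx⟩)).trans (hr.trans hb1)
    · exact (h1 x (mem_erase.2 ⟨hne, hx⟩) y (mem_erase.2 ⟨e, hy⟩)).trans (ha2.trans hb1)

lemma Sm_cons {l : ℕ} (h : 1 + K.M ≤ l) (H : List ℕ → ℝ) :
    K.Sm l H = ∑ x ∈ K.Λ, K.τ ^ x * K.Sm (l - x) fun t => H (x :: t) := by
  rw [Sm_tower h, Ex_pos one_pos]
  refine sum_congr rfl fun x hx => ?_
  rw [show 1 - x = 0 by have := pos_of_mem K.h0 hx; omega, Ex_zero]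
  simp

lemma Sm_reverse (l : ℕ) (H : List ℕ → ℝ) : K.Sm l (fun t => H t.reverse) = K.Sm l H :=
  sum_W_reverse K.h0 l fun t => K.τ ^ l * H t

lemma Sm_class {l : ℕ} (h : 1 + 2 * K.M ≤ l) (H : List ℕ → ℝ) : K.Sm l H =
    ∑ x ∈ K.Λ, K.τ ^ x * ∑ y ∈ K.Λ, K.τ ^ y * K.Sm (l - x - y) fun t => H (x :: (t ++ [y])) := by
  rw [Sm_cons (by omega)]
  refine sum_congr rfl fun x hx => congrArg _ ?_
  rw [← Sm_reverse, Sm_cons (by have := K.hleM x hx; omega)]
  refine sum_congr rfl fun y _ => congrArg _ ?_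
  rw [← Sm_reverse]
  simp

open Classical in
lemma finish : ∃ η : ℝ, 0 < η ∧ ∃ N : ℕ, ∀ n, N ≤ n → ∀ F : Finset (List ℕ), F ⊆ W K.Λ n →
    (∀ T ∈ F, ∀ U ∈ F, ¬ Dj 0 T 0 U) → #{T ∈ F | ¬ Has 0 T 0 K.S} * K.τ ^ n ≤ η →
      #F ≤ #(W K.Λ (n - K.S)) := by
  obtain ⟨η, hη, N, h⟩ := sse (K := K) #K.Λ
  refine ⟨η, hη, N + K.S, fun n hn F hF hI hs => ?_⟩
  rw [← card_head K.h0 K.hS (by omega)]
  refine card_le_of_compl ?_
  set B := {T ∈ W K.Λ n | Has 0 T 0 K.S} \ F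
  have h1 : ∀ y ∈ K.Λ, #K.Λ * #{T ∈ F | ¬ Has 0 T 0 K.S ∧ T.getLast? = some y} ≤ #B := by
    intro y _
    obtain ⟨y', hy', hne⟩ := K.exists_ne y
    have := h n (by omega) K.S K.hS y' hy' {T ∈ F | ¬ Has 0 T 0 K.S ∧ T.getLast? = some y} B
      ((filter_subset _ _).trans hF) (sdiff_subset.trans (filter_subset _ _))
      (fun T hT => by
        rw [mem_filter] at hT
        obtain ⟨h2, h3⟩ := (mem_W K.h0).1 (hF hT.1)
        refine ⟨hT.2.1, fun h4 => hne ?_⟩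
        have := (has_last K.h0 (s := 0) (x := y') h2).1 (by simpa [h3] using h4)
        simpa [hT.2.2] using this.symm)
      (le_trans (by
        gcongr with T
        · exact (K.pw _).le
        · exact fun h => h.1) hs)
      (fun U hU h2 _ ⟨T, hT, hd⟩ => mem_sdiff.2 ⟨mem_filter.2 ⟨hU, h2⟩,
        fun h3 => hI T (mem_filter.1 hT).1 U h3 hd⟩)
    exact_mod_cast this
  have h2 : #(F \ {T ∈ W K.Λ n | Has 0 T 0 K.S}) ≤
      ∑ y ∈ K.Λ, #{T ∈ F | ¬ Has 0 T 0 K.S ∧ T.getLast? = some y} := by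
    refine (card_le_card fun T hT => ?_).trans card_biUnion_le
    simp only [mem_sdiff, mem_filter, not_and, mem_biUnion] at hT ⊢
    obtain ⟨h2, h3⟩ := (mem_W K.h0).1 (hF hT.1)
    rcases List.eq_nil_or_concat' T with rfl | ⟨a, y, rfl⟩
    · have := K.hS2
      simp at h3; omega
    · exact ⟨y, h2 y (by simp), hT.1, hT.2 (hF hT.1), by simp⟩
  have h3 := sum_le_sum h1
  rw [← mul_sum, sum_const, smul_eq_mul] at h3
  exact h2.trans (Nat.le_of_mul_le_mul_left h3 (card_pos.2 ⟨_, K.hS⟩))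

open Classical in
theorem low (hp : K.τ ^ K.S < 1 / 2) : ∃ N : ℕ, ∀ n, N ≤ n → ∀ F : Finset (List ℕ),
    F ⊆ W K.Λ n → (∀ T ∈ F, ∀ U ∈ F, ¬ Dj 0 T 0 U) → #F ≤ #(W K.Λ (n - K.S)) := by
  obtain ⟨η, hη, N1, h1⟩ := finish (K := K)
  obtain ⟨π, hπ0, hπ1, hπ⟩ := exists_pibar (K := K)
  obtain ⟨k, ε0, hk0, hk, hε0, h2⟩ := core hp hπ0 hπ1 (half_pos hη)
  obtain ⟨ε, hε, hε1, hε2⟩ : ∃ ε, 0 < ε ∧ ε ≤ ε0 / 2 ∧ ε ≤ η / 2 :=
    ⟨min (ε0 / 2) (η / 2), by positivity, min_le_left _ _, min_le_right _ _⟩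
  obtain ⟨N2, h3⟩ := cross hp.le hπ0.le hπ hk0 hk hε
  have hC := C_pos (K := K)
  have hC1 : K.C ≤ 1 := le_of_tendsto' tendsto_u u_le_one
  obtain ⟨N3, h4⟩ := u_near (K := K) (mul_pos hε hC)
  refine ⟨N1 + N2 + N3 + 2 * K.M + 1, fun n hn F hF hI => ?_⟩
  by_contra hlt
  have hSM := K.S_lt_M
  set A : ℕ → ℕ → Finset (List ℕ) := fun x y => {t ∈ W K.Λ (n - x - y) | x :: (t ++ [y]) ∈ F}
    with hA
  set φ : ℕ → ℕ → ℝ := fun x y => #(A x y) * K.τ ^ (n - x - y) / K.C with hφ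
  have e1 : ∀ x y, K.Sm (n - x - y) (fun t => if x :: (t ++ [y]) ∈ F then 1 else 0) =
      K.C * φ x y := fun x y => by
    rw [hφ, mul_div_cancel₀ _ hC.ne', ← Sm_ind (filter_subset _ _)]
    exact Sm_congr fun t ht => if_congr (by simp [ht]) rfl rfl
  have e2 : ∀ (P : List ℕ → Prop) [DecidablePred P] (Q : ℕ → ℕ → Prop),
      (∀ x ∈ K.Λ, ∀ y ∈ K.Λ, ∀ t ∈ W K.Λ (n - x - y), P (x :: (t ++ [y])) → Q x y) →
      (∀ x ∈ K.Λ, ∀ y ∈ K.Λ, Q x y → max (φ x y - ε) 0 ≤ η / 2) →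
      #{T ∈ F | P T} * K.τ ^ n ≤ η := by
    intro P _ Q hPQ hQ
    rw [← Sm_ind ((filter_subset _ _).trans hF), Sm_class (by omega)]
    refine avg_le fun x hx => avg_le fun y hy => ?_
    by_cases h5 : Q x y
    · have := (le_max_left _ _).trans (hQ x hx y hy h5)
      refine (Sm_mono fun t _ => ?_).trans ((e1 x y).le.trans ?_)
      · simp only [mem_filter]
        split_ifs with h6 h7
        exacts [le_rfl, absurd h6.1 h7, zero_le_one, le_rfl]
      · nlinarith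
    · rw [Sm_congr (G := fun _ => 0) fun t ht =>
        if_neg fun h6 => h5 (hPQ x hx y hy t ht (mem_filter.1 h6).2), Sm_const, mul_zero]
      exact hη.le
  rcases h2 (fun x y => max (φ x y - ε) 0)
    (fun x hx y hy => ⟨le_max_right _ _, max_le (by
      have := K.hleM x hx
      have := K.hleM y hy
      have h5 := (abs_le.1 (h4 (n - x - y) (by omega))).2
      have h6 : K.C * φ x y ≤ K.u (n - x - y) * 1 := by
        rw [← e1, ← Sm_const]
        exact Sm_mono fun t _ => by split_ifs <;> norm_num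
      refine le_of_mul_le_mul_left ?_ hC
      linarith) zero_le_one⟩)
    (fun x hx x' hx' hne y hy y' hy' hne' => by
      obtain ⟨a, b, ha, hb, h5, h6, h7⟩ := h3 n (by omega) x (K.hleM x hx) x' (K.hleM x' hx') y
        (K.hleM y hy) y' (K.hleM y' hy') hne hne' (A x y) (A x' y') (filter_subset _ _)
        (filter_subset _ _) fun t ht u hu hd => by
          rw [mem_filter] at ht hu
          refine hI _ ht.2 _ hu.2 (dj_class hne hne' (pos_of_mem K.h0 hx) (pos_of_mem K.h0 hx')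
            (pos_of_mem K.h0 hy) (pos_of_mem K.h0 hy') ?_ hd)
          have g1 := ((mem_W K.h0).1 (hF ht.2)).2
          have g2 := ((mem_W K.h0).1 (hF hu.2)).2
          simp only [List.sum_cons, List.sum_append, List.sum_nil] at g1 g2
          omega
      have := max_le h5 ha
      have := max_le h6 hb
      refine le_trans ?_ h7
      gcongr)
    (by
      have h5 : K.u (n - K.S) * K.τ ^ K.S ≤ #F * K.τ ^ n := by
        rw [u, mul_assoc, ← pow_add, show n - K.S + K.S = n by omega]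
        exact mul_le_mul_of_nonneg_right (Nat.cast_le.2 (not_le.1 hlt).le) (K.pw _).le
      have h6 := (abs_le.1 (h4 (n - K.S) (by omega))).1
      rw [← Sm_ind hF, Sm_class (by omega)] at h5
      simp only [e1, mul_left_comm _ K.C, ← mul_sum] at h5
      have h7 : ∑ x ∈ K.Λ, K.τ ^ x * ∑ y ∈ K.Λ, K.τ ^ y * φ x y ≤
          ∑ x ∈ K.Λ, K.τ ^ x * ∑ y ∈ K.Λ, K.τ ^ y * (max (φ x y - ε) 0 + ε) := by
        gcongr with x _ y _
        · exact (K.pw _).le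
        · exact (K.pw _).le
        · exact sub_le_iff_le_add.1 (le_max_left _ _)
      simp only [mul_add, sum_add_distrib, ← sum_mul, K.hsum, one_mul] at h7
      have hp0 := K.pw K.S
      have h8 : K.C * (K.τ ^ K.S - ε) ≤ K.u (n - K.S) * K.τ ^ K.S := by
        nlinarith [mul_pos hε hC]
      have := le_of_mul_le_mul_left (h8.trans h5) hC
      linarith) with h5 | h5
  · exact hlt (h1 n (by omega) F hF hI (e2 (fun T => ¬ Has 0 T 0 K.S) (fun x _ => x ≠ K.S)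
      (fun x _ y _ t _ h e => h (Or.inl ⟨rfl, e.symm⟩)) fun x hx y hy h => h5 x hx h y hy))
  · have hinj := List.reverse_injective (α := ℕ)
    refine hlt ((card_image_of_injective F hinj).ge.trans (h1 n (by omega) _ (fun T hT => ?_)
      (fun T hT U hU hd => ?_) ?_))
    · obtain ⟨T, hT', rfl⟩ := mem_image.1 hT
      simpa [mem_W K.h0] using hF hT'
    · obtain ⟨T, hT', rfl⟩ := mem_image.1 hT
      obtain ⟨U, hU', rfl⟩ := mem_image.1 hU
      refine hI T hT' U hU' ?_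
      simpa using hd.reverse (r := 0) (r' := 0)
        (by simp [((mem_W K.h0).1 (hF hT')).2, ((mem_W K.h0).1 (hF hU')).2])
    · rw [filter_image, card_image_of_injective _ hinj]
      exact e2 (fun T => ¬ Has 0 T.reverse 0 K.S) (fun _ y => y ≠ K.S) (fun x _ y _ t _ h e => h (by simp [has_cons, e]))
        fun x hx y hy h => h5 x hx y hy h

end Ctx

end Pool.Agent.MP_2dc627_co.H36
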