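import Mathlib
import Pool.Agent.MP_2dc627_co.H36.Basics

/-!
A matching between words that do not start with the least letter and words that do not end
with it.
-/

namespace Pool.Agent.MP_2dc627_co.H36

open Finset List

attribute [-simp] Nat.cast_list_sum

/-- The graph of the matching. -/
inductive Rl (S : ℕ) : List ℕ → List ℕ → Prop
  | nil : Rl S [] []
  | swap {x b : ℕ} {V V' : List ℕ} : ¬ S ∣ x → V.head? ≠ some S → Rl S V V' →
      Rl S (x :: (replicate b S ++ V)) (replicate b S ++ x :: V')
  | mult {k a i ρ e : ℕ} {V V' : List ℕ} : 2 ≤ k → ρ < k → V.head? ≠ some S →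
      (e = if V.head? = some (k * S) then 1 else 0) → Rl S V V' →
      Rl S (replicate (a + 1) (k * S) ++ (replicate (i * k + ρ + e) S ++ V))
        (replicate (a * k + ρ) S ++ (replicate (i + 1) (k * S) ++ (replicate e S ++ V')))

variable {S : ℕ} {Λ : Finset ℕ}

lemma Rl.sum {V V' : List ℕ} (h : Rl S V V') : V'.sum = V.sum := by
  induction h with
  | nil => rfl
  | swap _ _ _ ih => simp [ih]; ring
  | mult _ _ _ _ _ ih => simp [ih]; ring

lemma Rl.word (hS : S ∈ Λ) {V V' : List ℕ} (h : Rl S V V') (hV : Word Λ V) : Word Λ V' := by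
  induction h with
  | nil => exact hV
  | swap _ _ _ ih =>
    simp only [word_cons, word_append] at hV ⊢
    exact ⟨hV.2.1, hV.1, ih hV.2.2⟩
  | mult _ _ _ _ _ ih =>
    simp only [word_append] at hV ⊢
    exact ⟨word_replicate hS, word_replicate (hV.1 _ (by simp)), word_replicate hS, ih hV.2.2⟩

lemma find_rep (b : ℕ) (l : List ℕ) :
    (replicate b S ++ l).find? (fun y => y ≠ S) = l.find? (fun y => y ≠ S) := by
  induction b with
  | zero => simp
  | succ b ih => simp [replicate_succ]

lemma mul_ne (hS : 0 < S) {k : ℕ} (hk : 2 ≤ k) : k * S ≠ S := by nlinarith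

lemma Rl.first (hS : 0 < S) {V V' : List ℕ} (h : Rl S V V') :
    V'.find? (fun y => y ≠ S) = V.head? := by
  cases h with
  | nil => rfl
  | @swap x _ _ _ h _ _ =>
    rw [find_rep, find?_cons_of_pos (by simpa using fun e : x = S => h (e ▸ dvd_rfl))]; rfl
  | mult hk _ _ _ _ =>
    rw [find_rep, replicate_succ, cons_append, find?_cons_of_pos (by simpa using mul_ne hS hk)]
    rfl

lemma Rl.last (hS : 0 < S) {V V' : List ℕ} (h : Rl S V V') : V'.getLast? ≠ some S := by
  induction h with
  | nil => simp
  | @swap x b V V' h _ _ ih =>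
    rcases eq_nil_or_concat' V' with rfl | ⟨a, y, rfl⟩
    · simpa using fun e : x = S => h (e ▸ dvd_rfl)
    · rw [← cons_append, ← append_assoc, getLast?_concat]
      simpa using ih
  | @mult k a i ρ e V V' hk _ _ he h ih =>
    rcases eq_nil_or_concat' V' with rfl | ⟨a, y, rfl⟩
    · rw [← h.first hS] at he
      simp only [find?_nil, reduceCtorEq, if_false] at he
      simpa [he, replicate_succ', ← append_assoc] using mul_ne hS hk
    · simp only [← append_assoc]
      simpa using ih

lemma rep_cancel {y a b : ℕ} {l l' : List ℕ} (h : l.head? ≠ some y) (h' : l'.head? ≠ some y)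
    (e : replicate a y ++ l = replicate b y ++ l') : a = b ∧ l = l' := by
  induction a generalizing b with
  | zero =>
    cases b with
    | zero => simpa using e
    | succ b => simp only [replicate_zero, nil_append] at e; simp [e, replicate_succ] at h
  | succ a ih =>
    cases b with
    | zero => simp only [replicate_zero, nil_append] at e; simp [← e, replicate_succ] at h'
    | succ b =>
      simp only [replicate_succ, cons_append, cons.injEq, true_and] at e
      simpa using ih e

lemma Rl.head_ne (hS : 0 < S) {k e : ℕ} {V V' : List ℕ} (hk : 2 ≤ k)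
    (he : e = if V.head? = some (k * S) then 1 else 0) (h : Rl S V V') :
    (replicate e S ++ V').head? ≠ some (k * S) := by
  have := mul_ne hS hk
  split_ifs at he with h1
  · simpa [he] using this.symm
  · intro h2
    rw [he, replicate_zero, nil_append] at h2
    obtain ⟨l, rfl⟩ := head?_eq_some_iff.1 h2
    exact h1 (by rw [← h.first hS, find?_cons_of_pos (by simpa using this)])

lemma Rl.inj (hS : 0 < S) {V V' U U' : List ℕ} (h : Rl S V V') (h' : Rl S U U') (e : V' = U') :
    V = U := by
  induction h generalizing U U' with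
  | nil => cases h' <;> simp_all
  | @swap x b V V' hx _ _ ih =>
    have hxS : x ≠ S := fun e => hx (e ▸ dvd_rfl)
    cases h' with
    | nil => simp at e
    | @swap x' b' U U' hx' _ h' =>
      have hxS' : x' ≠ S := fun e => hx' (e ▸ dvd_rfl)
      obtain ⟨rfl, e'⟩ := rep_cancel (by simpa) (by simpa) e
      obtain ⟨rfl, e''⟩ := cons.inj e'
      rw [ih h' e'']
    | mult hk _ _ _ _ =>
      obtain ⟨-, e'⟩ := rep_cancel (by simpa) (by simpa [replicate_succ] using mul_ne hS hk) e
      exact absurd ((cons.inj e').1 ▸ dvd_mul_left _ _) hx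
  | @mult k a i ρ c V V' hk hρ _ hc h ih =>
    cases h' with
    | nil => simp at e
    | @swap x' b' U U' hx' _ h' =>
      have hxS' : x' ≠ S := fun e => hx' (e ▸ dvd_rfl)
      obtain ⟨-, e'⟩ := rep_cancel (by simpa [replicate_succ] using mul_ne hS hk) (by simpa) e
      exact absurd ((cons.inj e').1 ▸ dvd_mul_left _ _) hx'
    | @mult k' a' i' ρ' c' U U' hk' hρ' _ hc' h' =>
      obtain ⟨e1, e2⟩ := rep_cancel (by simpa [replicate_succ] using mul_ne hS hk)
        (by simpa [replicate_succ] using mul_ne hS hk') e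
      obtain rfl : k = k' := Nat.eq_of_mul_eq_mul_right hS (cons.inj e2).1
      obtain ⟨e3, e4⟩ := rep_cancel (h.head_ne hS hk hc) (h'.head_ne hS hk hc') e2
      have e5 := congrArg (find? fun y => y ≠ S) e4
      rw [find_rep, find_rep, h.first hS, h'.first hS] at e5
      obtain rfl : c = c' := by rw [hc, hc', e5]
      obtain rfl : i = i' := by omega
      obtain rfl : ρ = ρ' := by
        have := congrArg (· % k) e1
        simpa [Nat.mod_eq_of_lt hρ, Nat.mod_eq_of_lt hρ'] using this
      obtain rfl : a = a' := Nat.eq_of_mul_eq_mul_right (by omega : 0 < k) (by omega)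
      rw [ih h' (append_cancel_left e4)]

lemma exists_run (y : ℕ) (l : List ℕ) : ∃ b r, l = replicate b y ++ r ∧ r.head? ≠ some y := by
  induction l with
  | nil => exact ⟨0, [], rfl, by simp⟩
  | cons x l ih =>
    by_cases h : x = y
    · obtain ⟨b, r, rfl, hr⟩ := ih
      exact ⟨b + 1, r, by simp [h, replicate_succ], hr⟩
    · exact ⟨0, x :: l, rfl, by simpa⟩

lemma exists_rl (V : List ℕ) (h0 : ∀ x ∈ V, 0 < x) (hV : V.head? ≠ some S) : ∃ V', Rl S V V' := by
  induction hn : V.length using Nat.strong_induction_on generalizing V with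
  | _ n ih =>
    cases V with
    | nil => exact ⟨[], .nil⟩
    | cons x l =>
      by_cases hx : S ∣ x
      · obtain ⟨k, rfl⟩ := hx
        rw [mul_comm] at *
        have hk : 2 ≤ k := by
          have := h0 _ mem_cons_self
          rcases k with _ | _ | k <;> simp_all
        obtain ⟨a, r, rfl, hr⟩ := exists_run (k * S) l
        obtain ⟨b, V, rfl, hV'⟩ := exists_run S r
        obtain ⟨V', h⟩ := ih _ (by simp at hn; omega) V (fun x hx => h0 x (by simp [hx])) hV' rfl
        obtain ⟨c, hc⟩ : ∃ c, b = c + if V.head? = some (k * S) then 1 else 0 := by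
          split_ifs with h1
          · cases b with
            | zero => exact absurd h1 hr
            | succ b => exact ⟨b, rfl⟩
          · exact ⟨b, rfl⟩
        have := Rl.mult (a := a) (i := c / k) (ρ := c % k) hk (Nat.mod_lt _ (by omega)) hV' rfl h
        rw [Nat.div_add_mod' c k, ← hc] at this
        exact ⟨_, this⟩
      · obtain ⟨b, V, rfl, hV'⟩ := exists_run S l
        obtain ⟨V', h⟩ := ih _ (by simp at hn; omega) V (fun x hx => h0 x (by simp [hx])) hV' rfl
        exact ⟨_, .swap hx hV' h⟩

lemma dj_append_S (h0 : 0 ∉ Λ) (hS : ∀ x ∈ Λ, S ≤ x) {s : ℤ} {a a' v v' : List ℕ}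
    (hv : Word Λ v) (ha : Word Λ a) (h : Dj s a (s + S) a') (e : a'.sum = a.sum)
    (h' : Dj 0 v S v') (hh : v.head? ≠ some S) : Dj s (a ++ v) (s + S) (a' ++ v') := by
  intro b x h1 h2
  rcases has_append.1 h1 with h1 | h1 <;> rcases has_append.1 h2 with h2 | h2
  · exact h b x h1 h2
  · have := pos_of_mem h0 (ha x h1.bounds.2.2)
    have := h1.bounds
    have := h2.bounds
    omega
  · have := hS x (hv x h1.bounds.2.2)
    have := h1.bounds
    have := h2.bounds
    obtain rfl : b = s + (a.sum : ℕ) := by omega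
    obtain rfl : x = S := by omega
    exact hh ((has_head h0 hv).1 h1)
  · exact h'.shift (by omega) b x h1 h2

lemma Rl.dj (h0 : 0 ∉ Λ) (hS' : S ∈ Λ) (hS : ∀ x ∈ Λ, S ≤ x) {V V' : List ℕ} (h : Rl S V V')
    (hV : Word Λ V) : Dj 0 V S V' := by
  have hS0 := pos_of_mem h0 hS'
  induction h with
  | nil => exact fun _ _ h _ => h
  | @swap x b V V' hx hh _ ih =>
    simp only [word_cons, word_append] at hV
    have := dj_append_S (s := 0) (a := x :: replicate b S) (a' := replicate b S ++ [x]) h0 hS
      hV.2.2 (word_cons.2 ⟨hV.1, hV.2.1⟩) ?_ (by simp [add_comm]) (ih hV.2.2) hh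
    · simpa using this
    · intro c y h1 h2
      have := h2.bounds.1
      rcases h1 with ⟨rfl, rfl⟩ | h1
      · omega
      · obtain ⟨rfl, j, -, rfl⟩ := has_replicate.1 h1
        rcases has_append.1 h2 with h2 | h2
        · obtain ⟨-, j', -, e⟩ := has_replicate.1 h2
          have : x + j * y = y + j' * y := by omega
          exact hx ((Nat.dvd_add_left (dvd_mul_left y j)).1 (this ▸ by simp))
        · exact hx ((has_single.1 h2).2 ▸ dvd_rfl)
  | @mult k a i ρ e V V' hk hρ hh he h ih =>
    simp only [word_append] at hV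
    have he1 : e ≤ 1 := by split_ifs at he <;> omega
    have := dj_append_S (s := 0) (a := replicate (a + 1) (k * S) ++ replicate (i * k + ρ + e) S)
      (a' := replicate (a * k + ρ) S ++ (replicate (i + 1) (k * S) ++ replicate e S)) h0 hS
      hV.2.2 (word_append.2 ⟨hV.1, hV.2.1⟩) ?_ (by simp; ring) (ih hV.2.2) hh
    · simpa using this
    · intro c y h1 h2
      have hne := mul_ne hS0 hk
      simp only [has_append, has_replicate, sum_replicate, smul_eq_mul] at h1 h2
      rcases h1 with ⟨rfl, j, hj, rfl⟩ | ⟨rfl, j, hj, rfl⟩ <;>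
        rcases h2 with ⟨e1, j', hj', e2⟩ | ⟨e1, j', hj', e2⟩ | ⟨e1, j', hj', e2⟩ <;>
        try exact hne (by omega)
      · have : j * (k * S) ≤ a * (k * S) := Nat.mul_le_mul_right _ (by omega)
        have : (a * k + ρ) * S = a * (k * S) + ρ * S := by ring
        omega
      · have : (j' + 2) * y ≤ (a * k + k) * y := Nat.mul_le_mul_right _ (by omega)
        have : (a + 1) * (k * y) = (a * k + k) * y := by ring
        have : (j' + 2) * y = j' * y + y + y := by ring
        omega
      · have : (j + 1) * y ≤ (i * k + ρ + 1) * y := Nat.mul_le_mul_right _ (by omega)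
        have : (a + 1) * (k * y) + (i * k + ρ + 1) * y = y + (a * k + ρ) * y + (i + 1) * (k * y) := by
          ring
        have : (j + 1) * y = j * y + y := by ring
        omega

theorem exists_swap (h0 : 0 ∉ Λ) (hS' : S ∈ Λ) (hS : ∀ x ∈ Λ, S ≤ x) : ∃ f : List ℕ → List ℕ,
    (∀ V, Word Λ V → V.head? ≠ some S →
      Word Λ (f V) ∧ (f V).sum = V.sum ∧ (f V).getLast? ≠ some S ∧ Dj 0 V S (f V)) ∧
    ∀ V U, Word Λ V → V.head? ≠ some S → Word Λ U → U.head? ≠ some S → f V = f U → V = U := by
  have hS0 := pos_of_mem h0 hS'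
  have : ∀ V, Word Λ V → V.head? ≠ some S → ∃ V', Rl S V V' := fun V h1 h2 =>
    exists_rl V (fun x hx => pos_of_mem h0 (h1 x hx)) h2
  choose! f hf using this
  exact ⟨f, fun V h1 h2 => ⟨(hf V h1 h2).word hS' h1, (hf V h1 h2).sum, (hf V h1 h2).last hS0,
    (hf V h1 h2).dj h0 hS' hS h1⟩, fun V U h1 h2 h3 h4 e => (hf V h1 h2).inj hS0 (hf U h3 h4) e⟩

end Pool.Agent.MP_2dc627_co.H36
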