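import Mathlib
import Pool.Agent.MP_2dc627_co.H36.Low
import Pool.Agent.MP_2dc627_co.H36.Swap

/-!
The case where the shortest tile has probability more than one half, and the case of length one.
-/

namespace Pool.Agent.MP_2dc627_co.H36

open Finset

attribute [-simp] Nat.cast_list_sum

lemma head_ne_left {S : ℕ} {a v : List ℕ} (h : (a ++ v).head? ≠ some S) : a.head? ≠ some S := by
  cases a <;> simp_all

theorem exists_tight {Λ : Finset ℕ} {S : ℕ} (h0 : 0 ∉ Λ) (hS' : S ∈ Λ) (hS : ∀ x ∈ Λ, S ≤ x) :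
    ∃ Φ : List ℕ → List ℕ,
      (∀ T, Word Λ T → T.head? ≠ some S → (∃ y, T.getLast? = some y ∧ S ∣ y) →
        Word Λ (Φ T) ∧ (Φ T).sum = T.sum ∧ (Φ T).head? = some S ∧ Dj 0 T 0 (Φ T) ∧
          (T.getLast? = some S → (Φ T).getLast? ≠ some S)) ∧
      ∀ T U, Word Λ T → T.head? ≠ some S → (∃ y, T.getLast? = some y ∧ S ∣ y) →
        Word Λ U → U.head? ≠ some S → (∃ y, U.getLast? = some y ∧ S ∣ y) → Φ T = Φ U → T = U := by
  obtain ⟨f, hf, hinj⟩ := exists_swap h0 hS' hS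
  have hS0 := pos_of_mem h0 hS'
  have key : ∀ T, Word Λ T → (∃ y, T.getLast? = some y ∧ S ∣ y) →
      ∃ V k, T = V ++ [(k + 1) * S] := by
    rintro T hT ⟨y, hy, k, rfl⟩
    obtain ⟨V, rfl⟩ := List.getLast?_eq_some_iff.1 hy
    have := pos_of_mem h0 (hT (S * k) (by simp))
    rcases k with _ | k
    · simp at this
    · exact ⟨V, k, by rw [mul_comm]⟩
  set Φ : List ℕ → List ℕ :=
    fun T => S :: (f T.dropLast ++ List.replicate (T.getLastD 0 / S - 1) S) with hΦ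
  have e : ∀ V k, Φ (V ++ [(k + 1) * S]) = S :: (f V ++ List.replicate k S) := by
    intro V k
    simp [hΦ, Nat.mul_div_cancel _ hS0]
  refine ⟨Φ, fun T hT hh hl => ?_, fun T U hT hh hl hU hh' hl' h => ?_⟩
  · obtain ⟨V, k, rfl⟩ := key T hT hl
    have hV := (word_append.1 hT).1
    obtain ⟨h1, h2, h3, h4⟩ := hf V hV (head_ne_left hh)
    rw [e]
    refine ⟨by simp [hS', h1, word_replicate hS'], by simp [h2]; ring, rfl, fun b x h5 h6 => ?_,
      fun h5 => ?_⟩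
    · rcases h6 with ⟨rfl, rfl⟩ | h6
      · exact hh ((has_head h0 hT).1 h5)
      rw [zero_add] at h6
      rcases has_append.1 h5 with h5 | h5 <;> rcases has_append.1 h6 with h6 | h6
      · exact h4 b x h5 h6
      · have := h5.bounds
        have := h6.bounds
        omega
      · obtain ⟨rfl, rfl⟩ := has_single.1 h5
        have := h6.bounds
        have h7 : (k + 1) * S = S := by rw [add_mul] at *; omega
        rw [h7] at h6
        exact h3 ((has_last h0 h1).1 ((has_shift (s' := S) (by omega)).1 h6))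
      · have := h6.bounds
        have := (has_single.1 h5).1
        omega
    · have h6 : (k + 1) * S = S := by simpa using h5
      obtain rfl : k = 0 := by nlinarith
      rcases List.eq_nil_or_concat' (f V) with h7 | ⟨a, y, h7⟩
      · obtain rfl := Word.eq_nil h0 hV (by rw [← h2, h7]; rfl)
        simp at hh
      · rw [h7] at h3 ⊢
        rw [List.replicate_zero, List.append_nil, ← List.cons_append, List.getLast?_concat]
        simpa using h3
  · obtain ⟨V, k, rfl⟩ := key T hT hl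
    obtain ⟨V', k', rfl⟩ := key U hU hl'
    have hV := (word_append.1 hT).1
    have hV' := (word_append.1 hU).1
    rw [e, e, List.cons.injEq, ← List.reverse_inj] at h
    simp only [List.reverse_append, List.reverse_replicate] at h
    obtain ⟨rfl, h1⟩ := rep_cancel (by simpa using (hf V hV (head_ne_left hh)).2.2.1)
      (by simpa using (hf V' hV' (head_ne_left hh')).2.2.1) h.2
    rw [hinj V V' hV (head_ne_left hh) hV' (head_ne_left hh') (List.reverse_inj.1 h1)]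

open Classical in
theorem one_case {Λ : Finset ℕ} (h0 : 0 ∉ Λ) (h1 : 1 ∈ Λ) {n : ℕ} (hn : 1 ≤ n)
    (F : Finset (List ℕ)) (hF : F ⊆ W Λ n) (hI : ∀ T ∈ F, ∀ U ∈ F, ¬ Dj 0 T 0 U) :
    #F ≤ #(W Λ (n - 1)) := by
  obtain ⟨Φ, h2, h3⟩ := exists_tight h0 h1 fun x hx => pos_of_mem h0 hx
  rw [← card_head h0 h1 hn]
  have key : ∀ T ∈ F \ {T ∈ W Λ n | Has 0 T 0 1},
      Word Λ T ∧ T.head? ≠ some 1 ∧ ∃ y, T.getLast? = some y ∧ 1 ∣ y := by
    intro T hT
    simp only [mem_sdiff, mem_filter, not_and] at hT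
    obtain ⟨h4, h5⟩ := (mem_W h0).1 (hF hT.1)
    refine ⟨h4, fun h => hT.2 (hF hT.1) ((has_head h0 h4).2 h), ?_⟩
    rcases List.eq_nil_or_concat' T with rfl | ⟨a, y, rfl⟩
    · simp at h5; omega
    · simp
  refine card_le_of_compl (card_le_card_of_injOn Φ (fun T hT => ?_) fun T hT U hU =>
    h3 T U (key T hT).1 (key T hT).2.1 (key T hT).2.2 (key U hU).1 (key U hU).2.1 (key U hU).2.2)
  obtain ⟨h4, h5, h6, h7, -⟩ := h2 T (key T hT).1 (key T hT).2.1 (key T hT).2.2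
  have hT' := (mem_sdiff.1 hT).1
  exact mem_sdiff.2 ⟨mem_filter.2 ⟨(mem_W h0).2 ⟨h4, h5.trans ((mem_W h0).1 (hF hT')).2⟩,
    (has_head h0 h4).2 h6⟩, fun h => hI T hT' _ h h7⟩

namespace Ctx

variable {K : Ctx}

lemma gadget_dj {a a' v v' : List ℕ} (ha : a'.sum = a.sum) (hv : v'.sum = v.sum)
    (h1 : Dj 0 a K.S a') (h2 : Dj 0 v.reverse K.S v')
    (h3 : ¬ Has 0 (a ++ List.replicate K.S K.M ++ v) 0 K.S)
    (h4 : ¬ Has 0 (a ++ List.replicate K.S K.M ++ v) (a.sum + K.S * K.M + v.sum - K.S) K.S) :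
    Dj 0 (a ++ List.replicate K.S K.M ++ v) 0
      (K.S :: a' ++ List.replicate (K.M - 2) K.S ++ (v'.reverse ++ [K.S])) := by
  intro b x h5 h6
  have hSM := K.S_lt_M
  have hS := K.hS2
  have e : (K.M - 2) * K.S + 2 * K.S = K.S * K.M := by
    rw [← add_mul, mul_comm]; congr 1; omega
  have h7 := (h2.reverse (r := a.sum + K.S * K.M) (r' := a.sum + K.S * K.M - K.S)
    (by simp; omega)) b x
  rw [List.reverse_reverse] at h7
  simp only [has_append, has_cons, has_nil, or_false, List.sum_append, List.sum_cons,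
    List.sum_replicate, smul_eq_mul, List.sum_reverse, zero_add] at h6
  rcases h6 with ((⟨rfl, rfl⟩ | h6) | h6) | h6 | ⟨rfl, rfl⟩
  · exact h3 h5
  rotate_right
  · exact h4 ((has_shift (by omega)).1 h5)
  all_goals
    have b6 := h6.bounds
    simp only [has_append, List.sum_append, List.sum_replicate, smul_eq_mul, List.sum_reverse,
      zero_add] at h5 b6
    rcases h5 with (h5 | h5) | h5 <;> have b5 := h5.bounds <;>
      (try simp only [List.sum_replicate, smul_eq_mul, List.mem_replicate] at b5 b6) <;>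
      first
      | omega
      | exact h1 b x h5 h6
      | exact h7 ((has_shift (by omega)).1 h5) ((has_shift (by omega)).1 h6)

open Classical in
lemma gadget {n c : ℕ} (hc : 1 ≤ c) (hn : c + K.M + K.S * K.M + K.M ≤ n) {F : Finset (List ℕ)}
    (hI : ∀ T ∈ F, ∀ U ∈ F, ¬ Dj 0 T 0 U) :
    K.Sm n (fun t => Zp (univ : Finset Unit) (fun _ => K.M - K.S)
      (fun _ => List.replicate K.S K.M) (fun _ => 1) c t *
        if t ∈ {T ∈ F | ¬ Has 0 T 0 K.S ∧ ¬ Has 0 T (n - K.S) K.S} then 1 else 0) ≤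
    K.Sm n (fun t => Zp (K.Λ.erase K.S ×ˢ K.Λ.erase K.S) (fun σ => K.M - σ.1)
      (fun σ => σ.1 :: List.replicate (K.M - 2) K.S ++ [σ.2]) (fun _ => 1) c t *
        if t ∈ {T ∈ W K.Λ n | Has 0 T 0 K.S ∧ Has 0 T (n - K.S) K.S} \ F then 1 else 0) := by
  obtain ⟨f, hf, hinj⟩ := exists_swap K.h0 K.hS K.hSle
  have hSM := K.S_lt_M
  have hS := K.hS2
  have e : (K.M - 2) * K.S + 2 * K.S = K.S * K.M := by
    rw [← add_mul, mul_comm]; congr 1; omega
  rw [Sm_Zp (fun _ _ => word_replicate K.hM) (fun _ _ => by simp; omega)]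
  simp only [univ_unique, sum_singleton, one_mul, List.sum_replicate, smul_eq_mul]
  rw [← sum_product', sum_boole]
  set D := {p ∈ W K.Λ (c + (K.M - K.S)) ×ˢ W K.Λ (n - (c + (K.M - K.S)) - K.S * K.M) |
    p.1 ++ List.replicate K.S K.M ++ p.2 ∈ {T ∈ F | ¬ Has 0 T 0 K.S ∧ ¬ Has 0 T (n - K.S) K.S}}
    with hD
  set Ψ : List ℕ × List ℕ → List ℕ := fun p =>
    K.S :: f p.1 ++ List.replicate (K.M - 2) K.S ++ ((f p.2.reverse).reverse ++ [K.S]) with hΨ
  have key : ∀ p ∈ D, Word K.Λ p.1 ∧ p.1.head? ≠ some K.S ∧ Word K.Λ p.2.reverse ∧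
      p.2.reverse.head? ≠ some K.S := by
    rintro ⟨a, v⟩ hp
    simp only [hD, mem_filter, mem_product, mem_W K.h0] at hp
    obtain ⟨⟨⟨h1, h2⟩, h3, h4⟩, h5, h6, h7⟩ := hp
    refine ⟨h1, fun h => h6 ?_, word_reverse.2 h3, fun h => h7 ?_⟩
    · exact has_append.2 (Or.inl (has_append.2 (Or.inl ((has_head K.h0 h1).2 h))))
    · rw [List.head?_reverse] at h
      refine has_append.2 (Or.inr ((has_shift ?_).1 ((has_last K.h0 (s := 0) h3).2 h)))
      simp; omega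
  have hinj' : Set.InjOn Ψ D := by
    rintro ⟨a, v⟩ hp ⟨a', v'⟩ hp' h
    obtain ⟨k1, k2, k3, k4⟩ := key _ hp
    obtain ⟨k1', k2', k3', k4'⟩ := key _ hp'
    simp only [hD, coe_filter, mem_product, mem_W K.h0, Set.mem_ofPred_eq] at hp hp'
    simp only [hΨ, List.cons_append, List.cons.injEq, true_and, List.append_assoc] at h
    obtain ⟨h1, h2⟩ := append_cancel K.h0 (hf _ k1 k2).1 (hf _ k1' k2').1 h
      (by rw [(hf _ k1 k2).2.1, (hf _ k1' k2').2.1, hp.1.1.2, hp'.1.1.2])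
    have h3 := List.reverse_inj.1 (List.append_cancel_right (List.append_cancel_left h2))
    exact Prod.ext (hinj _ _ k1 k2 k1' k2' h1) (List.reverse_inj.1 (hinj _ _ k3 k4 k3' k4' h3))
  have himg : ∀ p ∈ D, Ψ p ∈ {T ∈ W K.Λ n | Has 0 T 0 K.S ∧ Has 0 T (n - K.S) K.S} \ F ∧
      1 ≤ Zp (K.Λ.erase K.S ×ˢ K.Λ.erase K.S) (fun σ => K.M - σ.1)
        (fun σ => σ.1 :: List.replicate (K.M - 2) K.S ++ [σ.2]) (fun _ => 1) c (Ψ p) := by
    rintro ⟨a, v⟩ hp
    obtain ⟨k1, k2, k3, k4⟩ := key _ hp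
    obtain ⟨f1, f2, f3, f4⟩ := hf _ k1 k2
    obtain ⟨g1, g2, g3, g4⟩ := hf _ k3 k4
    simp only [hD, mem_filter, mem_product, mem_W K.h0] at hp
    obtain ⟨⟨⟨-, h2⟩, -, h4⟩, h5, h6, h7⟩ := hp
    simp only [List.sum_reverse] at f2 g2
    refine ⟨mem_sdiff.2 ⟨mem_filter.2 ⟨(mem_W K.h0).2 ⟨by
      simp [hΨ, K.hS, f1, g1, word_replicate K.hS], by simp [hΨ]; omega⟩, Or.inl ⟨rfl, rfl⟩, ?_⟩,
      fun h => hI _ h5 _ h (gadget_dj f2 g2 f4 g4 h6 fun h => h7 ((has_shift (by omega)).1 h))⟩, ?_⟩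
    · simp only [hΨ, has_append, has_single]
      exact Or.inr (Or.inr ⟨by simp; omega, trivial⟩)
    · rcases List.eq_nil_or_concat' (f a) with h | ⟨a', x, h⟩
      · rw [h] at f2; simp at f2; omega
      rcases List.eq_nil_or_concat' (f v.reverse) with h' | ⟨v', x', h'⟩
      · rw [h'] at g2; simp at g2; omega
      rw [h] at f1 f2 f3
      rw [h'] at g1 g3
      have hx : x ∈ K.Λ := f1 x (by simp)
      have := K.hleM x hx
      refine le_trans ?_ (single_le_sum (fun σ _ => by positivity) (a := (x, x'))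
        (mem_product.2 ⟨mem_erase.2 ⟨by simpa using f3, hx⟩,
          mem_erase.2 ⟨by simpa using g3, g1 x' (by simp)⟩⟩))
      rw [if_pos ⟨K.S :: a', v'.reverse ++ [K.S], by simp [hΨ, h, h'], by simp at f2 ⊢; omega⟩]
      simp
  rw [← card_image_of_injOn hinj', mul_comm, ← Sm_ind (l := n) fun U hU => by
    obtain ⟨p, hp, rfl⟩ := mem_image.1 hU
    exact (mem_filter.1 (mem_sdiff.1 (himg p hp).1).1).1]
  refine Sm_mono fun U _ => ?_
  by_cases h : U ∈ image Ψ D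
  · obtain ⟨p, hp, rfl⟩ := mem_image.1 h
    rw [if_pos h, if_pos (himg p hp).1, mul_one]
    exact (himg p hp).2
  · rw [if_neg h]
    exact mul_nonneg (Zp_nonneg (fun _ _ => zero_le_one) _ _) (by positivity)

open Classical in
lemma nn_le_ss (hp : 1 / 2 < K.τ ^ K.S) : ∃ N : ℕ, ∀ n, N ≤ n → ∀ F : Finset (List ℕ),
    F ⊆ W K.Λ n → (∀ T ∈ F, ∀ U ∈ F, ¬ Dj 0 T 0 U) →
      #{T ∈ F | ¬ Has 0 T 0 K.S ∧ ¬ Has 0 T (n - K.S) K.S} ≤
        #({T ∈ W K.Λ n | Has 0 T 0 K.S ∧ Has 0 T (n - K.S) K.S} \ F) := by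
  obtain ⟨η, hη, N, h⟩ := sse (K := K) 1
  have hC := C_pos (K := K)
  have hSM := K.S_lt_M
  have hS := K.hS2
  have e : (K.M - 2) * K.S + K.S * 2 = K.S * K.M := by
    rw [mul_comm K.S 2, ← add_mul, mul_comm]; congr 1; omega
  have hκ : 0 < K.C * K.τ ^ ((K.M - 2) * K.S) := mul_pos hC (K.pw _)
  have hε : 0 < K.C * K.τ ^ ((K.M - 2) * K.S) * (2 * K.τ ^ K.S - 1) * η / 4 := by
    have : 0 < 2 * K.τ ^ K.S - 1 := by linarith
    positivity
  obtain ⟨G1, J1, hJ1, h1⟩ := window (K := K) (P := (univ : Finset Unit))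
    (o := fun _ => K.M - K.S) (π := fun _ => List.replicate K.S K.M) (ω := fun _ => 1)
    (fun _ _ => zero_le_one) (by have := K.τ0; positivity)
    (fun δ hδ => Zp_mean (fun _ _ => word_replicate K.hM) (fun _ _ => zero_le_one) hδ) hε
  obtain ⟨G2, J2, hJ2, h2⟩ := window (K := K) (P := K.Λ.erase K.S ×ˢ K.Λ.erase K.S)
    (o := fun σ => K.M - σ.1) (π := fun σ => σ.1 :: List.replicate (K.M - 2) K.S ++ [σ.2])
    (ω := fun _ => 1) (fun _ _ => zero_le_one) (by have := K.τ0; positivity)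
    (fun δ hδ => Zp_mean (fun σ hσ => by
      simp only [mem_product, mem_erase] at hσ
      simp [hσ.1.2, hσ.2.2, word_replicate K.hS]) (fun _ _ => zero_le_one) hδ) hε
  have hs : ∑ x ∈ K.Λ.erase K.S, K.τ ^ x = 1 - K.τ ^ K.S := by
    rw [← K.hsum, ← add_sum_erase _ _ K.hS]; ring
  have e1 : K.C ^ 2 * (∑ _σ ∈ (univ : Finset Unit), 1 * K.τ ^ (List.replicate K.S K.M).sum) / K.C =
      K.C * K.τ ^ ((K.M - 2) * K.S) * (K.τ ^ K.S) ^ 2 := by
    simp only [univ_unique, sum_singleton, one_mul, List.sum_replicate, smul_eq_mul, ← e, pow_add,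
      pow_mul]
    field_simp
  have e2 : K.C ^ 2 * (∑ σ ∈ K.Λ.erase K.S ×ˢ K.Λ.erase K.S,
      1 * K.τ ^ (σ.1 :: List.replicate (K.M - 2) K.S ++ [σ.2]).sum) / K.C =
      K.C * K.τ ^ ((K.M - 2) * K.S) * (1 - K.τ ^ K.S) ^ 2 := by
    rw [← hs, sq (∑ _ ∈ _, _), sum_mul_sum, ← sum_product',
      sum_congr rfl (g := fun σ => K.τ ^ ((K.M - 2) * K.S) * (K.τ ^ σ.1 * K.τ ^ σ.2))
        fun σ _ => by simp [pow_add]; ring, ← mul_sum]
    field_simp
  rw [e1] at h1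
  rw [e2] at h2
  set G := G1 + G2 + 1 + 2 * K.M + K.S * K.M with hG
  refine ⟨N + (J1 + J2) * G + G, fun n hn F hF hI => ?_⟩
  set A := {T ∈ F | ¬ Has 0 T 0 K.S ∧ ¬ Has 0 T (n - K.S) K.S} with hA
  set B := {T ∈ W K.Λ n | Has 0 T 0 K.S ∧ Has 0 T (n - K.S) K.S} \ F with hB
  have hA' : A ⊆ W K.Λ n := (filter_subset _ _).trans hF
  have hB' : B ⊆ W K.Λ n := sdiff_subset.trans (filter_subset _ _)
  rcases le_total (#A * K.τ ^ n) η with hc | hc
  · have := h n (by omega) K.S K.hS K.S K.hS A B hA' hB' (fun T hT => (mem_filter.1 hT).2) hc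
      fun U hU h3 h4 ⟨T, hT, hd⟩ => mem_sdiff.2 ⟨mem_filter.2 ⟨hU, h3, h4⟩,
        fun h5 => hI T (mem_filter.1 hT).1 U h5 hd⟩
    rw [one_mul] at this
    exact_mod_cast this
  have hk : ∀ k ∈ range (J1 + J2), G + k * G + G ≤ n := fun k hk => by
    have : (k + 1) * G ≤ (J1 + J2) * G := Nat.mul_le_mul_right _ (mem_range.1 hk)
    rw [add_mul] at this
    omega
  have ind : ∀ (p : Prop) [Decidable p], (0 : ℝ) ≤ (if p then 1 else 0) ∧
      (if p then 1 else 0 : ℝ) ≤ 1 := fun p _ => by split_ifs <;> norm_num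
  have h3 := (abs_le.1 (h1 G (by omega) n G (range (J1 + J2)) (by simp) le_rfl hk
    (fun t => if t ∈ A then 1 else 0) fun _ => ind _)).1
  have h4 := (abs_le.1 (h2 G (by omega) n G (range (J1 + J2)) (by simp) le_rfl hk
    (fun t => if t ∈ B then 1 else 0) fun _ => ind _)).2
  have h5 := sum_le_sum fun k (hk' : k ∈ range (J1 + J2)) =>
    gadget (K := K) (n := n) (c := G + k * G) (by omega) (by have := hk k hk'; omega) hI
  rw [Sm_ind hA'] at h3
  rw [Sm_ind hB'] at h4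
  have hJ : (0 : ℝ) < #(range (J1 + J2)) := by simp only [card_range]; positivity
  by_contra hlt
  have h6 : #B * K.τ ^ n ≤ #A * K.τ ^ n :=
    mul_le_mul_of_nonneg_right (Nat.cast_le.2 (not_le.1 hlt).le) (K.pw _).le
  have h7 := (neg_le_sub_iff_le_add'.1 h3).trans (add_le_add_right (h5.trans
    (sub_le_iff_le_add.1 h4)) _)
  clear * - h6 h7 hJ hc hκ hη hp
  generalize K.C * K.τ ^ ((K.M - 2) * K.S) = κ at *
  generalize K.τ ^ K.S = p at *
  generalize #A * K.τ ^ n = a at *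
  generalize #B * K.τ ^ n = b at *
  generalize (#(range (J1 + J2)) : ℝ) = J at *
  have h8 : κ * p ^ 2 * a ≤ κ * (2 * p - 1) * η / 2 + κ * (1 - p) ^ 2 * b :=
    le_of_mul_le_mul_left (by linarith) hJ
  have h9 := mul_le_mul_of_nonneg_left h6 (show 0 ≤ κ * (1 - p) ^ 2 by positivity)
  have h10 : 0 < κ * (2 * p - 1) := mul_pos hκ (by linarith)
  have h11 := mul_le_mul_of_nonneg_left hc h10.le
  have := mul_pos h10 hη
  linarith

open Classical in
theorem high (hp : 1 / 2 < K.τ ^ K.S) : ∃ N : ℕ, ∀ n, N ≤ n → ∀ F : Finset (List ℕ),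
    F ⊆ W K.Λ n → (∀ T ∈ F, ∀ U ∈ F, ¬ Dj 0 T 0 U) → #F ≤ #(W K.Λ (n - K.S)) := by
  obtain ⟨N, h⟩ := nn_le_ss hp
  obtain ⟨Φ, h2, h3⟩ := exists_tight K.h0 K.hS K.hSle
  refine ⟨N + K.S, fun n hn F hF hI => ?_⟩
  rw [← card_head K.h0 K.hS (by omega)]
  refine card_le_of_compl ?_
  have h1 := h n (by omega) F hF hI
  have last : ∀ T ∈ W K.Λ n, Has 0 T (n - K.S) K.S ↔ T.getLast? = some K.S := fun T hT => by
    obtain ⟨h4, h5⟩ := (mem_W K.h0).1 hT
    rw [← has_last K.h0 (s := 0) h4, h5, zero_add]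
  have key : ∀ T ∈ {T ∈ F | ¬ Has 0 T 0 K.S ∧ Has 0 T (n - K.S) K.S},
      Word K.Λ T ∧ T.head? ≠ some K.S ∧ T.getLast? = some K.S := by
    intro T hT
    rw [mem_filter] at hT
    have h4 := ((mem_W K.h0).1 (hF hT.1)).1
    exact ⟨h4, fun h => hT.2.1 ((has_head K.h0 h4).2 h), (last T (hF hT.1)).1 hT.2.2⟩
  have h4 : #{T ∈ F | ¬ Has 0 T 0 K.S ∧ Has 0 T (n - K.S) K.S} ≤
      #({T ∈ W K.Λ n | Has 0 T 0 K.S ∧ ¬ Has 0 T (n - K.S) K.S} \ F) := by
    refine card_le_card_of_injOn Φ (fun T hT => ?_) fun T hT U hU =>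
      h3 T U (key T hT).1 (key T hT).2.1 ⟨_, (key T hT).2.2, dvd_rfl⟩ (key U hU).1 (key U hU).2.1
        ⟨_, (key U hU).2.2, dvd_rfl⟩
    obtain ⟨h4, h5, h6, h7, h8⟩ := h2 T (key T hT).1 (key T hT).2.1 ⟨_, (key T hT).2.2, dvd_rfl⟩
    have hT' := (mem_filter.1 hT).1
    have h9 := (mem_W K.h0).2 ⟨h4, h5.trans ((mem_W K.h0).1 (hF hT')).2⟩
    exact mem_sdiff.2 ⟨mem_filter.2 ⟨h9, (has_head K.h0 h4).2 h6,
      fun h => h8 (key T hT).2.2 ((last _ h9).1 h)⟩, fun h => hI T hT' _ h h7⟩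
  refine (card_le_card fun T hT => ?_).trans ((card_union_le _ _).trans ((add_le_add h1 h4).trans
    ((card_union_of_disjoint ?_).ge.trans (card_le_card fun T hT => ?_))))
  · simp only [mem_sdiff, mem_filter, mem_union] at hT ⊢
    have := hF hT.1
    tauto
  · rw [disjoint_left]
    intro T h5 h6
    exact (mem_filter.1 (mem_sdiff.1 h6).1).2.2 (mem_filter.1 (mem_sdiff.1 h5).1).2.2
  · simp only [mem_sdiff, mem_filter, mem_union] at hT ⊢
    tauto

theorem main : ∃ N : ℕ, ∀ n, N ≤ n → ∀ F : Finset (List ℕ),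
    F ⊆ W K.Λ n → (∀ T ∈ F, ∀ U ∈ F, ¬ Dj 0 T 0 U) → #F ≤ #(W K.Λ (n - K.S)) :=
  (lt_or_gt_of_ne p_ne_half).elim low high

end Ctx

end Pool.Agent.MP_2dc627_co.H36
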