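import Mathlib
import Pool.Agent.MP_2dc627_co.H36.Defs
import Pool.Agent.MP_2dc627_co.H36.High

/-!
Reduction to the aperiodic case.
-/

namespace Pool.Agent.MP_2dc627_co.H36

open Finset

attribute [-simp] Nat.cast_list_sum

theorem aperiodic {Λ : Finset ℕ} {S : ℕ} (h0 : 0 ∉ Λ) (hS : S ∈ Λ) (hS' : ∀ x ∈ Λ, S ≤ x)
    (hg : Nat.setGcd (Λ : Set ℕ) ∣ 1) : ∃ N : ℕ, ∀ n, N ≤ n → ∀ F : Finset (List ℕ),
      F ⊆ W Λ n → (∀ T ∈ F, ∀ U ∈ F, ¬ Dj 0 T 0 U) → #F ≤ #(W Λ (n - S)) := by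
  have hS0 := pos_of_mem h0 hS
  by_cases h1 : S = 1
  · subst h1
    exact ⟨1, fun n hn => one_case h0 hS hn⟩
  obtain ⟨Fr, hFr⟩ := Nat.exists_mem_closure_of_ge (Λ : Set ℕ)
  have h2 : 2 ≤ Λ.card := by
    by_contra h
    have : S ∣ Nat.setGcd (Λ : Set ℕ) := Nat.dvd_setGcd_iff.2 fun m hm =>
      (card_le_one.1 (by omega) S hS m hm).dvd
    exact h1 (Nat.dvd_one.1 (this.trans hg))
  obtain ⟨τ, t0, t1, ht⟩ := exists_tau h0 h2
  exact Ctx.main (K := ⟨Λ, S, Λ.max' ⟨S, hS⟩, Fr, τ, hS, max'_mem _ _, hS', fun x hx => le_max' _ x hx,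
    by omega, fun m hm => AddSubmonoid.exists_list_of_mem_closure
      (hFr m hm (hg.trans (one_dvd m))), t0, t1, ht⟩)

theorem general {Λ : Finset ℕ} {S : ℕ} (h0 : 0 ∉ Λ) (hS : S ∈ Λ) (hS' : ∀ x ∈ Λ, S ≤ x) :
    ∃ N : ℕ, ∀ n, N ≤ n → ∀ F : Finset (List ℕ),
      F ⊆ W Λ n → (∀ T ∈ F, ∀ U ∈ F, ¬ Dj 0 T 0 U) → #F ≤ #(W Λ (n - S)) := by
  set g := Nat.setGcd (Λ : Set ℕ) with hg
  have hd : ∀ x ∈ Λ, g * (x / g) = x := fun x hx => Nat.mul_div_cancel' (Nat.setGcd_dvd_of_mem hx)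
  have hg0 : 0 < g := Nat.pos_of_ne_zero fun h => by
    have h1 := hd S hS
    have := pos_of_mem h0 hS
    rw [h, zero_mul] at h1
    omega
  set Λ' := Λ.image (· / g) with hΛ'
  have h0' : 0 ∉ Λ' := fun h => by
    obtain ⟨x, hx, e⟩ := mem_image.1 h
    have h1 := hd x hx
    have := pos_of_mem h0 hx
    rw [show x / g = 0 from e, mul_zero] at h1
    omega
  obtain ⟨N, hN⟩ := aperiodic h0' (mem_image_of_mem _ hS)
    (fun y hy => by
      obtain ⟨x, hx, rfl⟩ := mem_image.1 hy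
      exact Nat.div_le_div_right (hS' x hx))
    (Nat.dvd_of_mul_dvd_mul_left hg0 (by
      rw [mul_one]
      refine Nat.dvd_setGcd_iff.2 fun x hx => ?_
      rw [← hd x hx]
      exact Nat.mul_dvd_mul_left _ (Nat.setGcd_dvd_of_mem (mem_coe.2 (mem_image_of_mem _ hx)))))
  have up : ∀ t, Word Λ t → (t.map (· / g)).map (g * ·) = t := fun t ht => by
    rw [List.map_map]
    exact (List.map_congr_left fun x hx => hd x (ht x hx)).trans (List.map_id _)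
  have hsum : ∀ t, Word Λ t → g * (t.map (· / g)).sum = t.sum := fun t ht => by
    conv_rhs => rw [← up t ht]
    simpa using (List.sum_map_mul_left (t.map (· / g)) id g).symm
  refine ⟨g * N, fun n hn F hF hI => ?_⟩
  rcases F.eq_empty_or_nonempty with rfl | ⟨T0, hT0⟩
  · simp
  obtain ⟨m, rfl⟩ : g ∣ n := by
    obtain ⟨h1, h2⟩ := (mem_W h0).1 (hF hT0)
    exact ⟨_, h2.symm.trans (hsum T0 h1).symm⟩
  have h1 := hN m (Nat.le_of_mul_le_mul_left hn hg0) (F.image (List.map (· / g)))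
    (fun T hT => by
      obtain ⟨T, hT', rfl⟩ := mem_image.1 hT
      obtain ⟨h1, h2⟩ := (mem_W h0).1 (hF hT')
      refine (mem_W h0').2 ⟨fun y hy => ?_, Nat.eq_of_mul_eq_mul_left hg0 ((hsum T h1).trans h2)⟩
      obtain ⟨x, hx, rfl⟩ := List.mem_map.1 hy
      exact mem_image_of_mem _ (h1 x hx))
    (fun T hT U hU hd => by
      obtain ⟨T, hT', rfl⟩ := mem_image.1 hT
      obtain ⟨U, hU', rfl⟩ := mem_image.1 hU
      refine hI T hT' U hU' fun b x h1 h2 => ?_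
      obtain ⟨a, v, rfl, rfl⟩ := has_iff.1 h1
      obtain ⟨a', v', rfl, e⟩ := has_iff.1 h2
      have h3 := hsum a (word_append.1 ((mem_W h0).1 (hF hT')).1).1
      have h4 := hsum a' (word_append.1 ((mem_W h0).1 (hF hU')).1).1
      have h5 := Nat.eq_of_mul_eq_mul_left hg0 (h3.trans ((by omega : a.sum = a'.sum).trans h4.symm))
      exact hd _ (x / g) (has_iff.2 ⟨a.map (· / g), v.map (· / g), by simp, rfl⟩)
        (has_iff.2 ⟨a'.map (· / g), v'.map (· / g), by simp, by rw [h5]⟩))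
  rw [card_image_of_injOn fun T hT U hU e => by
    rw [← up T ((mem_W h0).1 (hF hT)).1, e, up U ((mem_W h0).1 (hF hU)).1]] at h1
  refine h1.trans (card_le_card_of_injOn (List.map (g * ·)) (fun t ht => ?_) fun t _ u _ e =>
    List.map_injective_iff.2 (fun _ _ => Nat.eq_of_mul_eq_mul_left hg0) e)
  obtain ⟨h2, h3⟩ := (mem_W h0').1 ht
  refine (mem_W h0).2 ⟨fun y hy => ?_, ?_⟩
  · obtain ⟨z, hz, rfl⟩ := List.mem_map.1 hy
    obtain ⟨x, hx, rfl⟩ := mem_image.1 (h2 z hz)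
    rwa [hd x hx]
  · have := List.sum_map_mul_left t id g
    simp only [id, List.map_id] at this
    rw [this, h3, Nat.mul_sub, hd S hS]

theorem final (Λ : Finset ℕ) (hne : Λ.Nonempty) (h0 : 0 ∉ Λ) : ∃ N : ℕ, ∀ n, N ≤ n →
    ∀ F : Finset (List ℕ), (F : Set (List ℕ)) ⊆ tilings Λ n → (F : Set (List ℕ)).Pairwise Intersect →
      F.card ≤ (tilings Λ (n - Λ.min' hne)).ncard := by
  obtain ⟨N, hN⟩ := general h0 (min'_mem Λ hne) fun x hx => min'_le Λ x hx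
  have e : ∀ m, tilings Λ m = W Λ m := fun m => Set.ext fun t => (mem_W h0).symm
  refine ⟨N + 1, fun n hn F hF hI => ?_⟩
  rw [e] at hF
  rw [e, Set.ncard_coe_finset]
  refine hN n (by omega) F (coe_subset.1 hF) fun T hT U hU hd => ?_
  obtain ⟨h1, h2⟩ := (mem_W h0).1 (hF hT)
  by_cases h : T = U
  · subst h
    cases T with
    | nil => simp at h2; omega
    | cons x T => exact hd 0 x (Or.inl ⟨rfl, rfl⟩) (Or.inl ⟨rfl, rfl⟩)
  · obtain ⟨I, ⟨a, x, b, rfl, rfl⟩, a', x', b', rfl, e⟩ := hI hT hU h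
    have hx := pos_of_mem h0 (h1 x (by simp))
    have := congrArg ((↑) : Finset ℕ → Set ℕ) e
    rw [coe_Icc, coe_Icc, Set.Icc_eq_Icc_iff (by omega)] at this
    obtain rfl : x = x' := by omega
    exact hd _ x (has_iff.2 ⟨a, b, rfl, rfl⟩) (has_iff.2 ⟨a', b', rfl, by omega⟩)

end Pool.Agent.MP_2dc627_co.H36
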